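import Mathlib

set_option autoImplicit false

/-! # Ptolemaic projective metrics: definitions -/

namespace Pool.Agent.Helper975.Ptol

open Set Filter Topology

/-- A Ptolemaic projective metric `d` on the open convex set `U`. -/
structure PM {E : Type*} [NormedAddCommGroup E] [NormedSpace ℝ E] (U : Set E) (d : E → E → ℝ) :
    Prop where
  isOpen : IsOpen U
  convex : Convex ℝ U
  eq_zero : ∀ x ∈ U, ∀ y ∈ U, (d x y = 0 ↔ x = y)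
  symm : ∀ x ∈ U, ∀ y ∈ U, d x y = d y x
  tri : ∀ x ∈ U, ∀ y ∈ U, ∀ z ∈ U, d x z ≤ d x y + d y z
  cont : ContinuousOn (fun p : E × E => d p.1 p.2) (U ×ˢ U)
  top : ∀ x ∈ U, ∀ ε : ℝ, 0 < ε → ∃ δ : ℝ, 0 < δ ∧ ∀ y ∈ U, d x y < δ → dist x y < ε
  cpt : ∀ x ∈ U, ∀ r : ℝ, IsCompact {y | y ∈ U ∧ d x y ≤ r}
  seg : ∀ x ∈ U, ∀ y ∈ U, ∀ z ∈ U, (d x y + d y z = d x z ↔ y ∈ segment ℝ x z)
  ptol : ∀ p ∈ U, ∀ q ∈ U, ∀ r ∈ U, ∀ s ∈ U, d p r * d q s ≤ d p q * d r s + d q r * d s p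

/-- independence of two vectors -/
def Indep {E : Type*} [NormedAddCommGroup E] [NormedSpace ℝ E] (u v : E) : Prop :=
  ∀ a b : ℝ, a • u + b • v = 0 → a = 0 ∧ b = 0

/-- quadratic form on the plane with coefficients `p, q, r` -/
def qf (p q r : ℝ) (v : ℝ × ℝ) : ℝ := p * v.1 ^ 2 + 2 * q * v.1 * v.2 + r * v.2 ^ 2

/-- bilinear form on the plane with coefficients `p, q, r` -/
def bf (p q r : ℝ) (u v : ℝ × ℝ) : ℝ :=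
  p * u.1 * v.1 + q * (u.1 * v.2 + u.2 * v.1) + r * u.2 * v.2

/-- the quadratic form `w ↦ wᵀ B w` at `w = (x,1) × (v,0) = (-v₂, v₁, x₁v₂ - x₂v₁)`, where
`B = [[b0,b1,b2],[b1,b3,b4],[b2,b4,b5]]` -/
def Bq (b : Fin 6 → ℝ) (x v : ℝ × ℝ) : ℝ :=
  b 0 * v.2 ^ 2 - 2 * b 1 * v.1 * v.2 + b 3 * v.1 ^ 2 +
    2 * (x.1 * v.2 - x.2 * v.1) * (b 4 * v.1 - b 2 * v.2) + b 5 * (x.1 * v.2 - x.2 * v.1) ^ 2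

/-- `(x,1)ᵀ adj(B) (x,1)` -/
def aq (b : Fin 6 → ℝ) (x : ℝ × ℝ) : ℝ :=
  (b 3 * b 5 - b 4 ^ 2) * x.1 ^ 2 + 2 * (b 2 * b 4 - b 1 * b 5) * x.1 * x.2 +
    (b 0 * b 5 - b 2 ^ 2) * x.2 ^ 2 + 2 * (b 1 * b 4 - b 2 * b 3) * x.1 +
    2 * (b 1 * b 2 - b 0 * b 4) * x.2 + (b 0 * b 3 - b 1 ^ 2)

/-- Euclidean type plane -/
def ConclE (U : Set (ℝ × ℝ)) (d : ℝ × ℝ → ℝ × ℝ → ℝ) : Prop :=
  U = univ ∧ ∃ p q r : ℝ, 0 < p ∧ 0 < p * r - q ^ 2 ∧ ∀ x y, d x y ^ 2 = qf p q r (x - y)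

/-- hyperbolic type plane (here `0 ∈ U`) -/
def ConclH (U : Set (ℝ × ℝ)) (d : ℝ × ℝ → ℝ × ℝ → ℝ) : Prop :=
  ∃ c β₁ β₂ γ₁ γ₂ γ₃ : ℝ, 0 < c ∧
    (∀ v : ℝ × ℝ, β₁ * v.1 + β₂ * v.2 = (gauge U (-v) - gauge U v) / 2) ∧
    (∀ v : ℝ × ℝ, qf γ₁ γ₂ γ₃ v = -(gauge U v * gauge U (-v))) ∧
    (∀ v : ℝ × ℝ, v ≠ 0 → 0 < gauge U v + gauge U (-v)) ∧
    ∀ x ∈ U, ∀ y ∈ U,
      Real.cosh (d x y / c) *
        Real.sqrt ((1 + 2 * (β₁ * x.1 + β₂ * x.2) + qf γ₁ γ₂ γ₃ x) *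
          (1 + 2 * (β₁ * y.1 + β₂ * y.2) + qf γ₁ γ₂ γ₃ y)) =
      1 + (β₁ * x.1 + β₂ * x.2) + (β₁ * y.1 + β₂ * y.2) + bf γ₁ γ₂ γ₃ x y

/-- the final conclusion -/
def Final {n : ℕ} (U : Set (EuclideanSpace ℝ (Fin n)))
    (d : EuclideanSpace ℝ (Fin n) → EuclideanSpace ℝ (Fin n) → ℝ) : Prop :=
  (∃ f : EuclideanSpace ℝ (Fin n) → EuclideanSpace ℝ (Fin n),
      Set.BijOn f U Set.univ ∧ ∀ x ∈ U, ∀ y ∈ U, d x y = dist (f x) (f y)) ∨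
  (∃ c : ℝ, 0 < c ∧ ∃ f : EuclideanSpace ℝ (Fin n) → EuclideanSpace ℝ (Fin n),
      Set.BijOn f U (Metric.ball 0 1) ∧
      ∀ x ∈ U, ∀ y ∈ U, Real.cosh (d x y / c) =
        (1 - inner ℝ (f x) (f y)) / Real.sqrt ((1 - ‖f x‖ ^ 2) * (1 - ‖f y‖ ^ 2)))

end Pool.Agent.Helper975.Ptol

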