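import Mathlib
import Pool.Agent.Helper975.Ptol.Header

set_option autoImplicit false

namespace Pool.Agent.Helper975.Ptol

open Set Filter Topology

variable {E : Type*} [NormedAddCommGroup E] [NormedSpace ℝ E]

/-- slope of `d (·) y` at `x` in direction `v` with respect to `d`-arclength -/
noncomputable def sl (d : E → E → ℝ) (x v y : E) (t : ℝ) : ℝ :=
  (d (x + t • v) y - d x y) / d x (x + t • v)

/-- one-sided derivative of `d (·) y` at `x` in direction `v` with respect to `d`-arclength -/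
noncomputable def D (d : E → E → ℝ) (x v y : E) : ℝ :=
  limUnder (𝓝[>] (0 : ℝ)) (sl d x v y)

/-- cosine of the angle at `x` between directions `u` and `v` -/
noncomputable def C (d : E → E → ℝ) (x u v : E) : ℝ :=
  - limUnder (𝓝[>] (0 : ℝ)) (fun τ => D d x v (x + τ • u))

theorem Indep.ne_left {u v : E} (huv : Indep u v) : u ≠ 0 := by
  rintro rfl
  have := huv 1 0 (by simp)
  exact one_ne_zero this.1

theorem Indep.ne_right {u v : E} (huv : Indep u v) : v ≠ 0 := by
  rintro rfl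
  have := huv 0 1 (by simp)
  exact one_ne_zero this.2

namespace PM

variable {U : Set E} {d : E → E → ℝ} (h : PM U d)
include h

theorem self {x : E} (hx : x ∈ U) : d x x = 0 := (h.eq_zero x hx x hx).2 rfl

theorem nonneg {x y : E} (hx : x ∈ U) (hy : y ∈ U) : 0 ≤ d x y := by
  have h1 := h.tri x hx y hy x hx
  rw [h.self hx, h.symm y hy x hx] at h1
  linarith

theorem pos {x y : E} (hx : x ∈ U) (hy : y ∈ U) (hne : x ≠ y) : 0 < d x y :=
  lt_of_le_of_ne (h.nonneg hx hy) (fun h0 => hne ((h.eq_zero x hx y hy).1 h0.symm))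

theorem mbound {x x' y y' : E} (hx : x ∈ U) (hx' : x' ∈ U) (hy : y ∈ U) (hy' : y' ∈ U) :
    |d x y' + d x' y - d x y - d x' y'| * d x y ≤ 2 * d x x' * d y y' := by
  have hL := h.nonneg hx hy
  have P1 := h.ptol x hx x' hx' y' hy' y hy
  have P2 := h.ptol x hx x' hx' y hy y' hy'
  have s1 := h.symm y' hy' y hy
  have s2 := h.symm y hy x hx
  have s3 := h.symm y' hy' x hx
  have t1 := h.tri x hx y hy y' hy'
  have t2 := h.tri x hx y' hy' y hy
  have t3 := h.tri x hx x' hx' y hy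
  have t4 := h.tri x' hx' x hx y hy
  have s4 := h.symm x' hx' x hx
  have hp : |d x y' - d x y| ≤ d y y' := by rw [abs_le]; constructor <;> linarith
  have hq : |d x' y - d x y| ≤ d x x' := by rw [abs_le]; constructor <;> linarith
  have hpq : |(d x y' - d x y) * (d x' y - d x y)| ≤ d y y' * d x x' := by
    rw [abs_mul]
    exact mul_le_mul hp hq (abs_nonneg _) (h.nonneg hy hy')
  have hD : |d x y' * d x' y - d x y * d x' y'| ≤ d x x' * d y y' := by
    rw [abs_le]
    constructor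
    · rw [s3] at P2; nlinarith
    · rw [s1, s2] at P1; nlinarith
  have e1 : (d x y' + d x' y - d x y - d x' y') * d x y =
      (d x y' * d x' y - d x y * d x' y') - (d x y' - d x y) * (d x' y - d x y) := by ring
  calc |d x y' + d x' y - d x y - d x' y'| * d x y
      = |(d x y' + d x' y - d x y - d x' y') * d x y| := by rw [abs_mul, abs_of_nonneg hL]
    _ ≤ |d x y' * d x' y - d x y * d x' y'| + |(d x y' - d x y) * (d x' y - d x y)| := by
        rw [e1]; exact abs_sub _ _
    _ ≤ 2 * d x x' * d y y' := by linarith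

theorem mem_of_le {x v : E} (hx : x ∈ U) {s t : ℝ} (hs : 0 ≤ s) (hst : s ≤ t) (ht : x + t • v ∈ U) :
    x + s • v ∈ U := by
  rcases eq_or_lt_of_le (hs.trans hst) with h0 | h0
  · have : s = t := by linarith
    rw [this]; exact ht
  · have hseg : x + s • v ∈ segment ℝ x (x + t • v) := by
      rw [segment_eq_image']
      refine ⟨s / t, ⟨by positivity, (div_le_one h0).2 hst⟩, ?_⟩
      simp only [add_sub_cancel_left, smul_smul]
      rw [div_mul_cancel₀ _ h0.ne']
    exact h.convex.segment_subset hx ht hseg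

theorem add_of_le {x v : E} (hx : x ∈ U) {s t : ℝ} (hs : 0 ≤ s) (hst : s ≤ t)
    (ht : x + t • v ∈ U) :
    d x (x + s • v) + d (x + s • v) (x + t • v) = d x (x + t • v) := by
  rw [h.seg x hx _ (h.mem_of_le hx hs hst ht) _ ht]
  rcases eq_or_lt_of_le (hs.trans hst) with h0 | h0
  · have : s = t := by linarith
    rw [this]; exact right_mem_segment _ _ _
  · rw [segment_eq_image']
    refine ⟨s / t, ⟨by positivity, (div_le_one h0).2 hst⟩, ?_⟩
    simp only [add_sub_cancel_left, smul_smul]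
    rw [div_mul_cancel₀ _ h0.ne']

theorem eventually_mem {x : E} (hx : x ∈ U) (v : E) : ∀ᶠ t in 𝓝[>] (0 : ℝ), x + t • v ∈ U := by
  have hc : ContinuousAt (fun t : ℝ => x + t • v) 0 := by fun_prop
  have : ∀ᶠ t in 𝓝 (0 : ℝ), x + t • v ∈ U := by
    apply hc.eventually_mem
    apply h.isOpen.mem_nhds
    simpa using hx
  exact this.filter_mono nhdsWithin_le_nhds

omit h in
theorem ne_add {x v : E} (hv : v ≠ 0) {t : ℝ} (ht : t ≠ 0) : x ≠ x + t • v := by
  intro h0
  have : t • v = 0 := by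
    have := congrArg (fun z => z - x) h0
    simpa using this.symm
  rcases smul_eq_zero.1 this with h1 | h1
  · exact ht h1
  · exact hv h1

theorem pos_add {x v : E} (hx : x ∈ U) (hv : v ≠ 0) {t : ℝ} (ht : t ≠ 0) (hm : x + t • v ∈ U) :
    0 < d x (x + t • v) := h.pos hx hm (ne_add hv ht)

theorem sl_mono {x v y : E} (hx : x ∈ U) (hy : y ∈ U) (hv : v ≠ 0) {s t : ℝ} (hs : 0 < s)
    (hst : s ≤ t) (ht : x + t • v ∈ U) : sl d x v y s ≤ sl d x v y t := by
  have hsm := h.mem_of_le hx hs.le hst ht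
  have ha := h.pos_add hx hv hs.ne' hsm
  have hb := h.pos_add hx hv (hs.trans_le hst).ne' ht
  have hadd := h.add_of_le hx hs.le hst ht
  unfold sl
  rw [div_le_div_iff₀ ha hb]
  have P := h.ptol x hx y hy (x + t • v) ht (x + s • v) hsm
  have hP := h.ptol x hx (x + s • v) hsm (x + t • v) ht y hy
  have s1 := h.symm y hy x hx
  have e : d (x + s • v) (x + t • v) = d x (x + t • v) - d x (x + s • v) := by linarith
  rw [e, s1] at hP
  nlinarith

theorem sl_neg_le {x v y : E} (hx : x ∈ U) (hy : y ∈ U) (hv : v ≠ 0) {s t : ℝ} (hs : 0 < s)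
    (ht : 0 < t) (hsm : x + s • (-v) ∈ U) (htm : x + t • v ∈ U) :
    - sl d x (-v) y s ≤ sl d x v y t := by
  have ha := h.pos_add hx (neg_ne_zero.2 hv) hs.ne' hsm
  have hb := h.pos_add hx hv ht.ne' htm
  unfold sl
  have hadd : d (x + s • (-v)) x + d x (x + t • v) = d (x + s • (-v)) (x + t • v) := by
    rw [h.seg _ hsm _ hx _ htm]
    rw [segment_eq_image']
    refine ⟨s / (s + t), ⟨by positivity, (div_le_one (by positivity)).2 (by linarith)⟩, ?_⟩
    have : x + t • v - (x + s • (-v)) = (s + t) • v := by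
      rw [smul_neg, add_smul]; abel
    simp only [this, smul_smul]
    rw [div_mul_cancel₀ _ (by positivity : s + t ≠ 0)]
    rw [smul_neg]; abel
  have s1 := h.symm _ hsm x hx
  have hP := h.ptol (x + s • (-v)) hsm x hx (x + t • v) htm y hy
  have s2 := h.symm y hy _ hsm
  rw [← hadd, s1, s2] at hP
  rw [← neg_div, div_le_div_iff₀ ha hb]
  nlinarith

theorem abs_sl_le {x v y : E} (hx : x ∈ U) (hy : y ∈ U) (hv : v ≠ 0) {t : ℝ} (ht : t ≠ 0)
    (hm : x + t • v ∈ U) : |sl d x v y t| ≤ 1 := by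
  have ha := h.pos_add hx hv ht hm
  have t1 := h.tri x hx _ hm y hy
  have t2 := h.tri _ hm x hx y hy
  have s1 := h.symm _ hm x hx
  unfold sl
  rw [abs_div, abs_of_pos ha, div_le_one ha, abs_le]
  constructor <;> linarith

theorem tendsto_D {x v y : E} (hx : x ∈ U) (hy : y ∈ U) (hv : v ≠ 0) :
    Tendsto (sl d x v y) (𝓝[>] (0 : ℝ)) (𝓝 (D d x v y)) := by
  obtain ⟨t0, ht0, hm0⟩ : ∃ t0 : ℝ, 0 < t0 ∧ x + t0 • v ∈ U := by
    obtain ⟨t, h1, h2⟩ := ((h.eventually_mem hx v).and self_mem_nhdsWithin).exists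
    exact ⟨t, h2, h1⟩
  have hmono : MonotoneOn (sl d x v y) (Ioo 0 t0) := by
    intro s hs t ht hst
    exact h.sl_mono hx hy hv hs.1 hst (h.mem_of_le hx ht.1.le ht.2.le hm0)
  have hb : BddBelow (sl d x v y '' Ioo 0 t0) := by
    refine ⟨-1, ?_⟩
    rintro _ ⟨t, ht, rfl⟩
    exact (abs_le.1 (h.abs_sl_le hx hy hv ht.1.ne' (h.mem_of_le hx ht.1.le ht.2.le hm0))).1
  have := hmono.tendsto_nhdsWithin_Ioo_right ⟨t0 / 2, by constructor <;> linarith⟩ hb
  exact tendsto_nhds_limUnder ⟨_, this⟩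

theorem D_le_sl {x v y : E} (hx : x ∈ U) (hy : y ∈ U) (hv : v ≠ 0) {t : ℝ} (ht : 0 < t)
    (hm : x + t • v ∈ U) : D d x v y ≤ sl d x v y t := by
  apply le_of_tendsto (h.tendsto_D hx hy hv)
  have : ∀ᶠ s in 𝓝[>] (0 : ℝ), s ∈ Ioo 0 t := Ioo_mem_nhdsGT ht
  filter_upwards [this] with s hs
  exact h.sl_mono hx hy hv hs.1 hs.2.le hm

theorem abs_D_le {x v y : E} (hx : x ∈ U) (hy : y ∈ U) (hv : v ≠ 0) : |D d x v y| ≤ 1 := by
  have := (h.tendsto_D hx hy hv).abs
  apply le_of_tendsto this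
  filter_upwards [h.eventually_mem hx v, self_mem_nhdsWithin] with t h1 h2
  exact h.abs_sl_le hx hy hv (ne_of_gt h2) h1

theorem tendsto_d {x y : E} (hx : x ∈ U) (hy : y ∈ U) {α : Type*} {l : Filter α} {f g : α → E}
    (hf : Tendsto f l (𝓝 x)) (hg : Tendsto g l (𝓝 y)) :
    Tendsto (fun a => d (f a) (g a)) l (𝓝 (d x y)) := by
  have hc : ContinuousAt (fun p : E × E => d p.1 p.2) (x, y) :=
    h.cont.continuousAt ((h.isOpen.prod h.isOpen).mem_nhds ⟨hx, hy⟩)
  exact hc.tendsto.comp (hf.prodMk_nhds hg)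

/-- the derivative is the same for all points of a ray -/
theorem D_ray {x v y y' : E} (hx : x ∈ U) (hy : y ∈ U) (hy' : y' ∈ U) (hv : v ≠ 0) (hyx : y ≠ x)
    {c : ℝ} (hc : 1 ≤ c) (he : y' = x + c • (y - x)) : D d x v y' = D d x v y := by
  have hL := h.pos hx hy hyx.symm
  have hc0 : 0 < c := by linarith
  -- y* 
  let ys : ℝ → E := fun t => y + (1 - 1 / c) • (t • v)
  have hys : Tendsto ys (𝓝[>] (0 : ℝ)) (𝓝 y) := by
    have : ContinuousAt ys 0 := by fun_prop
    have h2 := this.tendsto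
    simp only [ys, zero_smul, smul_zero, add_zero] at h2
    exact h2.mono_left nhdsWithin_le_nhds
  have hysU : ∀ᶠ t in 𝓝[>] (0 : ℝ), ys t ∈ U := hys.eventually (h.isOpen.mem_nhds hy)
  have hd0 : Tendsto (fun t => 2 * d y (ys t) / d x y) (𝓝[>] (0 : ℝ)) (𝓝 0) := by
    have h1 := h.tendsto_d hy hy (tendsto_const_nhds (x := y) (f := 𝓝[>] (0:ℝ))) hys
    rw [h.self hy] at h1
    have h2 := (h1.const_mul 2).div_const (d x y)
    simpa using h2
  have hdiff : Tendsto (fun t => sl d x v y t - sl d x v y' t) (𝓝[>] (0 : ℝ)) (𝓝 0) := by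
    refine tendsto_of_tendsto_of_tendsto_of_le_of_le' tendsto_const_nhds hd0 ?_ ?_
    · filter_upwards [h.eventually_mem hx v, self_mem_nhdsWithin] with t ht1 ht2
      have ha := h.pos_add hx hv (ne_of_gt ht2) ht1
      have hs1 : d x y + d y y' = d x y' := by
        rw [h.seg x hx y hy y' hy', segment_eq_image']
        refine ⟨1 / c, ⟨by positivity, (div_le_one hc0).2 hc⟩, ?_⟩
        rw [he]
        simp only [add_sub_cancel_left, smul_smul]
        rw [one_div_mul_cancel hc0.ne', one_smul]; abel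
      have t1 := h.tri _ ht1 y hy y' hy'
      unfold sl
      rw [← sub_div]
      apply div_nonneg _ ha.le
      linarith
    · filter_upwards [h.eventually_mem hx v, self_mem_nhdsWithin, hysU] with t ht1 ht2 ht3
      have ha := h.pos_add hx hv (ne_of_gt ht2) ht1
      have hs1 : d x y + d y y' = d x y' := by
        rw [h.seg x hx y hy y' hy', segment_eq_image']
        refine ⟨1 / c, ⟨by positivity, (div_le_one hc0).2 hc⟩, ?_⟩
        rw [he]
        simp only [add_sub_cancel_left, smul_smul]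
        rw [one_div_mul_cancel hc0.ne', one_smul]; abel
      have hs2 : d (x + t • v) (ys t) + d (ys t) y' = d (x + t • v) y' := by
        rw [h.seg _ ht1 _ ht3 y' hy', segment_eq_image']
        refine ⟨1 / c, ⟨by positivity, (div_le_one hc0).2 hc⟩, ?_⟩
        simp only [ys]
        rw [he]
        have : (1 / c) • (x + c • (y - x) - (x + t • v)) = (y - x) - (1 / c) • (t • v) := by
          rw [← sub_sub, add_sub_cancel_left, smul_sub, smul_smul, one_div_mul_cancel hc0.ne', one_smul]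
        rw [this, sub_smul, one_smul]
        abel
      have t1 := h.tri x hx _ ht3 y' hy'
      have M := h.mbound hx ht1 hy ht3
      have M1 := le_abs_self (d x (ys t) + d (x + t • v) y - d x y - d (x + t • v) (ys t))
      have M2 : (d x (ys t) + d (x + t • v) y - d x y - d (x + t • v) (ys t)) * d x y ≤
          2 * d x (x + t • v) * d y (ys t) := by
        refine le_trans ?_ M
        exact mul_le_mul_of_nonneg_right M1 hL.le
      unfold sl
      rw [← sub_div, div_le_div_iff₀ ha hL]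
      nlinarith
  have hlim := (h.tendsto_D hx hy hv).sub (h.tendsto_D hx hy' hv)
  have := tendsto_nhds_unique hlim hdiff
  linarith

/-- the derivative changes sign for points of the opposite ray -/
theorem D_opp {x v y yb : E} (hx : x ∈ U) (hy : y ∈ U) (hyb : yb ∈ U) (hv : v ≠ 0) (hyx : y ≠ x)
    {θ : ℝ} (hθ0 : 0 < θ) (hθ1 : θ < 1) (he : x = yb + θ • (y - yb)) :
    D d x v yb = - D d x v y := by
  have hL := h.pos hx hy hyx.symm
  let ys : ℝ → E := fun t => y + (1 / θ) • (t • v)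
  have hys : Tendsto ys (𝓝[>] (0 : ℝ)) (𝓝 y) := by
    have : ContinuousAt ys 0 := by fun_prop
    have h2 := this.tendsto
    simp only [ys, zero_smul, smul_zero, add_zero] at h2
    exact h2.mono_left nhdsWithin_le_nhds
  have hysU : ∀ᶠ t in 𝓝[>] (0 : ℝ), ys t ∈ U := hys.eventually (h.isOpen.mem_nhds hy)
  have hd0 : Tendsto (fun t => 2 * d y (ys t) / d x y) (𝓝[>] (0 : ℝ)) (𝓝 0) := by
    have h1 := h.tendsto_d hy hy (tendsto_const_nhds (x := y) (f := 𝓝[>] (0:ℝ))) hys
    rw [h.self hy] at h1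
    have h2 := (h1.const_mul 2).div_const (d x y)
    simpa using h2
  have hs1 : d yb x + d x y = d yb y := by
    rw [h.seg yb hyb x hx y hy, segment_eq_image']
    exact ⟨θ, ⟨hθ0.le, hθ1.le⟩, he.symm⟩
  have hdiff : Tendsto (fun t => sl d x v y t + sl d x v yb t) (𝓝[>] (0 : ℝ)) (𝓝 0) := by
    refine tendsto_of_tendsto_of_tendsto_of_le_of_le' tendsto_const_nhds hd0 ?_ ?_
    · filter_upwards [h.eventually_mem hx v, self_mem_nhdsWithin] with t ht1 ht2
      have ha := h.pos_add hx hv (ne_of_gt ht2) ht1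
      have t1 := h.tri yb hyb _ ht1 y hy
      have s1 := h.symm yb hyb x hx
      have s2 := h.symm yb hyb _ ht1
      unfold sl
      rw [← add_div]
      apply div_nonneg _ ha.le
      linarith
    · filter_upwards [h.eventually_mem hx v, self_mem_nhdsWithin, hysU] with t ht1 ht2 ht3
      have ha := h.pos_add hx hv (ne_of_gt ht2) ht1
      have hs2 : d yb (x + t • v) + d (x + t • v) (ys t) = d yb (ys t) := by
        rw [h.seg yb hyb _ ht1 _ ht3, segment_eq_image']
        refine ⟨θ, ⟨hθ0.le, hθ1.le⟩, ?_⟩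
        simp only [ys]
        have : θ • (y + (1 / θ) • (t • v) - yb) = θ • (y - yb) + t • v := by
          rw [add_sub_right_comm, smul_add, smul_smul, mul_one_div_cancel hθ0.ne', one_smul]
        rw [this, ← add_assoc, ← he]
      have t1 := h.tri yb hyb x hx _ ht3
      have s1 := h.symm yb hyb x hx
      have s2 := h.symm yb hyb _ ht1
      have M := h.mbound hx ht1 hy ht3
      have M1 := le_abs_self (d x (ys t) + d (x + t • v) y - d x y - d (x + t • v) (ys t))
      have M2 : (d x (ys t) + d (x + t • v) y - d x y - d (x + t • v) (ys t)) * d x y ≤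
          2 * d x (x + t • v) * d y (ys t) := by
        refine le_trans ?_ M
        exact mul_le_mul_of_nonneg_right M1 hL.le
      unfold sl
      rw [← add_div, div_le_div_iff₀ ha hL]
      nlinarith
  have hlim := (h.tendsto_D hx hy hv).add (h.tendsto_D hx hyb hv)
  have := tendsto_nhds_unique hlim hdiff
  linarith


theorem D_neg {x v y : E} (hx : x ∈ U) (hy : y ∈ U) (hv : v ≠ 0) (hyx : y ≠ x) :
    D d x (-v) y = - D d x v y := by
  have key : ∀ y ∈ U, - D d x (-v) y ≤ D d x v y := by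
    intro y hy
    have h1 : ∀ᶠ t in 𝓝[>] (0 : ℝ), - D d x (-v) y ≤ sl d x v y t := by
      filter_upwards [h.eventually_mem hx v, self_mem_nhdsWithin] with t ht1 ht2
      apply le_of_tendsto (h.tendsto_D hx hy (neg_ne_zero.2 hv)).neg
      filter_upwards [h.eventually_mem hx (-v), self_mem_nhdsWithin] with s hs1 hs2
      exact h.sl_neg_le hx hy hv hs2 ht2 hs1 ht1
    exact ge_of_tendsto (h.tendsto_D hx hy hv) h1
  -- opposite point
  obtain ⟨μ, hμ0, hμ⟩ : ∃ μ : ℝ, 0 < μ ∧ x + μ • (x - y) ∈ U := by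
    obtain ⟨t, h1, h2⟩ := ((h.eventually_mem hx (x - y)).and self_mem_nhdsWithin).exists
    exact ⟨t, h2, h1⟩
  have hθ0 : 0 < μ / (1 + μ) := by positivity
  have hθ1 : μ / (1 + μ) < 1 := by rw [div_lt_one (by positivity)]; linarith
  have he : x = (x + μ • (x - y)) + (μ / (1 + μ)) • (y - (x + μ • (x - y))) := by
    have : y - (x + μ • (x - y)) = (1 + μ) • (y - x) := by
      rw [add_smul, one_smul, smul_sub, smul_sub]; abel
    rw [this, smul_smul, div_mul_cancel₀ _ (by positivity : (1 + μ) ≠ 0)]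
    rw [smul_sub, smul_sub]; abel
  have o1 := h.D_opp hx hy hμ hv hyx hθ0 hθ1 he
  have o2 := h.D_opp hx hy hμ (neg_ne_zero.2 hv) hyx hθ0 hθ1 he
  have k1 := key y hy
  have k2 := key _ hμ
  rw [o1, o2] at k2
  linarith

theorem C_eq {x u v : E} (hx : x ∈ U) (hu : u ≠ 0) (hv : v ≠ 0) {τ : ℝ} (hτ : 0 < τ)
    (hm : x + τ • u ∈ U) : D d x v (x + τ • u) = - C d x u v := by
  have hev : ∀ᶠ s in 𝓝[>] (0 : ℝ), D d x v (x + s • u) = D d x v (x + τ • u) := by
    have : ∀ᶠ s in 𝓝[>] (0 : ℝ), s ∈ Ioo 0 τ := Ioo_mem_nhdsGT hτ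
    filter_upwards [this] with s hs
    have hsm := h.mem_of_le hx hs.1.le hs.2.le hm
    have hne : x + s • u ≠ x := (ne_add hu hs.1.ne').symm
    refine (h.D_ray hx hsm hm hv hne (c := τ / s) ((one_le_div hs.1).2 hs.2.le) ?_).symm
    rw [add_sub_cancel_left, smul_smul, div_mul_cancel₀ _ hs.1.ne']
  have hlim : Tendsto (fun s => D d x v (x + s • u)) (𝓝[>] (0 : ℝ)) (𝓝 (D d x v (x + τ • u))) :=
    (tendsto_congr' hev).2 tendsto_const_nhds
  unfold C
  rw [hlim.limUnder_eq, neg_neg]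

theorem C_point {x y v : E} (hx : x ∈ U) (hy : y ∈ U) (hyx : y ≠ x) (hv : v ≠ 0) :
    D d x v y = - C d x (y - x) v := by
  have := h.C_eq hx (sub_ne_zero.2 hyx) hv one_pos (by simpa using hy)
  simpa using this

/-- (C4) the supporting inequality -/
theorem support {x y z : E} (hx : x ∈ U) (hy : y ∈ U) (hz : z ∈ U) (hyx : y ≠ x) (hzx : z ≠ x) :
    d x y - C d x (y - x) (z - x) * d x z ≤ d z y := by
  have h1 := h.C_point hx hy hyx (sub_ne_zero.2 hzx)
  have h2 := h.D_le_sl hx hy (sub_ne_zero.2 hzx) one_pos (by simpa using hz)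
  have hpos := h.pos hx hz hzx.symm
  unfold sl at h2
  simp only [one_smul, add_sub_cancel] at h2
  rw [h1, le_div_iff₀ hpos] at h2
  linarith

/-- (C5) -/
theorem tendsto_C {x y v : E} (hx : x ∈ U) (hy : y ∈ U) (hyx : y ≠ x) (hv : v ≠ 0) :
    Tendsto (fun t : ℝ => (d (x + t • v) y - d x y) / d x (x + t • v)) (𝓝[>] (0 : ℝ))
      (𝓝 (- C d x (y - x) v)) := by
  rw [← h.C_point hx hy hyx hv]
  exact h.tendsto_D hx hy hv

theorem exists_mem {x : E} (hx : x ∈ U) (u : E) : ∃ t : ℝ, 0 < t ∧ x + t • u ∈ U := by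
  obtain ⟨t, h1, h2⟩ := ((h.eventually_mem hx u).and self_mem_nhdsWithin).exists
  exact ⟨t, h2, h1⟩

theorem C_smul_left {x u v : E} (hx : x ∈ U) (hu : u ≠ 0) (hv : v ≠ 0) {c : ℝ} (hc : 0 < c) :
    C d x (c • u) v = C d x u v := by
  obtain ⟨t, ht, hm⟩ := h.exists_mem hx (c • u)
  have h1 := h.C_eq hx (smul_ne_zero hc.ne' hu) hv ht hm
  have hm' : x + (t * c) • u ∈ U := by rwa [mul_smul]
  have h2 := h.C_eq hx hu hv (mul_pos ht hc) hm'
  rw [mul_smul] at h2
  linarith

theorem D_smul {x v y : E} (hx : x ∈ U) (hy : y ∈ U) (hv : v ≠ 0) {c : ℝ} (hc : 0 < c) :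
    D d x (c • v) y = D d x v y := by
  have h1 := h.tendsto_D hx hy (smul_ne_zero hc.ne' hv)
  have h2 := h.tendsto_D hx hy hv
  have h3 : Tendsto (fun t : ℝ => t * c) (𝓝[>] (0 : ℝ)) (𝓝[>] (0 : ℝ)) := by
    refine tendsto_nhdsWithin_iff.2 ⟨?_, ?_⟩
    · have : ContinuousAt (fun t : ℝ => t * c) 0 := by fun_prop
      have h4 := this.tendsto
      simp only [zero_mul] at h4
      exact h4.mono_left nhdsWithin_le_nhds
    · filter_upwards [self_mem_nhdsWithin] with t ht
      exact mul_pos ht hc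
  have h4 := h2.comp h3
  have h5 : (sl d x v y ∘ fun t : ℝ => t * c) = sl d x (c • v) y := by
    funext t
    simp only [Function.comp, sl, mul_smul]
  rw [h5] at h4
  exact tendsto_nhds_unique h1 h4

theorem C_smul_right {x u v : E} (hx : x ∈ U) (hu : u ≠ 0) (hv : v ≠ 0) {c : ℝ} (hc : 0 < c) :
    C d x u (c • v) = C d x u v := by
  obtain ⟨t, ht, hm⟩ := h.exists_mem hx u
  have h1 := h.C_eq hx hu (smul_ne_zero hc.ne' hv) ht hm
  have h2 := h.C_eq hx hu hv ht hm
  rw [h.D_smul hx hm hv hc] at h1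
  linarith

theorem C_neg_right {x u v : E} (hx : x ∈ U) (hu : u ≠ 0) (hv : v ≠ 0) :
    C d x u (-v) = - C d x u v := by
  obtain ⟨t, ht, hm⟩ := h.exists_mem hx u
  have h1 := h.C_eq hx hu (neg_ne_zero.2 hv) ht hm
  have h2 := h.C_eq hx hu hv ht hm
  rw [h.D_neg hx hm hv (ne_add hu ht.ne').symm] at h1
  linarith

theorem C_neg_left {x u v : E} (hx : x ∈ U) (hu : u ≠ 0) (hv : v ≠ 0) :
    C d x (-u) v = - C d x u v := by
  obtain ⟨t, ht, hm⟩ := h.exists_mem hx u
  obtain ⟨t', ht', hm'⟩ := h.exists_mem hx (-u)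
  have hm1 := h.mem_of_le hx (lt_min ht ht').le (min_le_left t t') hm
  have hm2 := h.mem_of_le hx (lt_min ht ht').le (min_le_right t t') hm'
  have ht0 := lt_min ht ht'
  set s := min t t' with hs
  have h1 := h.C_eq hx (neg_ne_zero.2 hu) hv ht0 hm2
  have h2 := h.C_eq hx hu hv ht0 hm1
  have h3 := h.D_opp hx hm1 hm2 hv (ne_add hu ht0.ne').symm (θ := 1 / 2) (by norm_num)
    (by norm_num) (by
      have : x + s • u - (x + s • (-u)) = (2 : ℝ) • (s • u) := by
        rw [smul_neg, two_smul]; abel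
      rw [this, smul_smul]
      norm_num)
  linarith

theorem C_self {x u : E} (hx : x ∈ U) (hu : u ≠ 0) : C d x u u = 1 := by
  obtain ⟨t, ht, hm⟩ := h.exists_mem hx u
  have h1 := h.C_eq hx hu hu ht hm
  have h2 := h.tendsto_D hx hm hu
  have h3 : Tendsto (sl d x u (x + t • u)) (𝓝[>] (0 : ℝ)) (𝓝 (-1)) := by
    apply (tendsto_congr' _).2 tendsto_const_nhds
    have : ∀ᶠ s in 𝓝[>] (0 : ℝ), s ∈ Ioo 0 t := Ioo_mem_nhdsGT ht
    filter_upwards [this] with s hs
    have ha := h.pos_add hx hu hs.1.ne' (h.mem_of_le hx hs.1.le hs.2.le hm)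
    have hadd := h.add_of_le hx hs.1.le hs.2.le hm
    unfold sl
    rw [div_eq_iff ha.ne']
    linarith
  have := tendsto_nhds_unique h2 h3
  linarith

theorem C_lt_one {x u v : E} (hx : x ∈ U) (huv : Indep u v) (hu : u ≠ 0) (hv : v ≠ 0) :
    C d x u v < 1 := by
  by_contra hcon
  push Not at hcon
  obtain ⟨τ, hτ, hm⟩ := h.exists_mem hx u
  obtain ⟨t, ht, hmt⟩ := h.exists_mem hx (-v)
  have h1 := h.C_eq hx hu (neg_ne_zero.2 hv) hτ hm
  rw [h.C_neg_right hx hu hv, neg_neg] at h1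
  have h2 := h.D_le_sl hx hm (neg_ne_zero.2 hv) ht hmt
  have ha := h.pos_add hx (neg_ne_zero.2 hv) ht.ne' hmt
  unfold sl at h2
  rw [h1, le_div_iff₀ ha] at h2
  have h3 : d x (x + t • (-v)) ≤ d (x + t • (-v)) (x + τ • u) - d x (x + τ • u) := by nlinarith
  have t1 := h.tri _ hmt x hx _ hm
  have s1 := h.symm _ hmt x hx
  have heq : d (x + t • (-v)) x + d x (x + τ • u) = d (x + t • (-v)) (x + τ • u) := by linarith
  rw [h.seg _ hmt x hx _ hm, segment_eq_image'] at heq
  obtain ⟨θ, hθ, he⟩ := heq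
  have : (θ * τ) • u + (-(t * (1 - θ))) • v = 0 := by
    have e1 : x + t • (-v) + θ • (x + τ • u - (x + t • (-v))) - x = (θ * τ) • u + (-(t * (1 - θ))) • v := by
      module
    rw [← e1]
    simp only at he
    rw [he, sub_self]
  obtain ⟨e1, e2⟩ := huv _ _ this
  have : θ = 0 := by
    rcases mul_eq_zero.1 e1 with h0 | h0
    · exact h0
    · exact absurd h0 hτ.ne'
  rw [this] at e2
  simp at e2
  exact ht.ne' e2

theorem abs_C_lt_one {x u v : E} (hx : x ∈ U) (huv : Indep u v) : |C d x u v| < 1 := by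
  have hu := huv.ne_left
  have hv := huv.ne_right
  rw [abs_lt]
  refine ⟨?_, h.C_lt_one hx huv hu hv⟩
  have h1 : Indep u (-v) := by
    intro a b hab
    have := huv a (-b) (by simpa using hab)
    exact ⟨this.1, by linarith [this.2]⟩
  have h2 := h.C_lt_one hx h1 hu (neg_ne_zero.2 hv)
  rw [h.C_neg_right hx hu hv] at h2
  linarith

/-- (C1) joint continuity of the cosine -/
theorem C_continuousAt {x u v : E} (hx : x ∈ U) (hu : u ≠ 0) (hv : v ≠ 0) :
    ContinuousAt (fun p : E × E × E => C d p.1 p.2.1 p.2.2) (x, u, v) := by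
  obtain ⟨τ, hτ, hm⟩ := h.exists_mem hx u
  -- upper bound in general
  have main : ∀ v : E, v ≠ 0 → ∀ b : ℝ, D d x v (x + τ • u) < b →
      ∀ᶠ p : E × E × E in 𝓝 (x, u, v), D d p.1 p.2.2 (p.1 + τ • p.2.1) < b := by
    intro v hv b hb
    have hlim := h.tendsto_D hx hm hv
    obtain ⟨t, ⟨ht1, ht2⟩, ht3⟩ := (((hlim.eventually_lt_const hb).and
      (h.eventually_mem hx v)).and self_mem_nhdsWithin).exists
    have ht0 : (0 : ℝ) < t := ht3
    have e1 : Tendsto (fun p : E × E × E => p.1) (𝓝 (x, u, v)) (𝓝 x) := continuous_fst.tendsto _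
    have e2 : Tendsto (fun p : E × E × E => p.1 + t • p.2.2) (𝓝 (x, u, v)) (𝓝 (x + t • v)) := by
      have : Continuous (fun p : E × E × E => p.1 + t • p.2.2) := by fun_prop
      exact this.tendsto _
    have e3 : Tendsto (fun p : E × E × E => p.1 + τ • p.2.1) (𝓝 (x, u, v)) (𝓝 (x + τ • u)) := by
      have : Continuous (fun p : E × E × E => p.1 + τ • p.2.1) := by fun_prop
      exact this.tendsto _
    have ha := h.pos_add hx hv ht0.ne' ht2
    have hsl : Tendsto (fun p : E × E × E => sl d p.1 p.2.2 (p.1 + τ • p.2.1) t) (𝓝 (x, u, v))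
        (𝓝 (sl d x v (x + τ • u) t)) := by
      unfold sl
      exact ((h.tendsto_d ht2 hm e2 e3).sub (h.tendsto_d hx hm e1 e3)).div
        (h.tendsto_d hx ht2 e1 e2) ha.ne'
    have e4 : ∀ᶠ p : E × E × E in 𝓝 (x, u, v), p.2.2 ≠ 0 := by
      have : Tendsto (fun p : E × E × E => p.2.2) (𝓝 (x, u, v)) (𝓝 v) :=
        (continuous_snd.comp continuous_snd).tendsto _
      exact this.eventually_ne hv
    filter_upwards [hsl.eventually_lt_const ht1, e1.eventually (h.isOpen.mem_nhds hx),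
      e2.eventually (h.isOpen.mem_nhds ht2), e3.eventually (h.isOpen.mem_nhds hm), e4]
      with p h1 h2 h3 h4 h5
    exact lt_of_le_of_lt (h.D_le_sl h2 h4 h5 ht0 h3) h1
  have hnice : ∀ᶠ p : E × E × E in 𝓝 (x, u, v),
      D d p.1 p.2.2 (p.1 + τ • p.2.1) = - C d p.1 p.2.1 p.2.2 ∧
      D d p.1 (-p.2.2) (p.1 + τ • p.2.1) = C d p.1 p.2.1 p.2.2 := by
    have e1 : Tendsto (fun p : E × E × E => p.1) (𝓝 (x, u, v)) (𝓝 x) := continuous_fst.tendsto _
    have e3 : Tendsto (fun p : E × E × E => p.1 + τ • p.2.1) (𝓝 (x, u, v)) (𝓝 (x + τ • u)) := by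
      have : Continuous (fun p : E × E × E => p.1 + τ • p.2.1) := by fun_prop
      exact this.tendsto _
    have e4 : ∀ᶠ p : E × E × E in 𝓝 (x, u, v), p.2.2 ≠ 0 := by
      have : Tendsto (fun p : E × E × E => p.2.2) (𝓝 (x, u, v)) (𝓝 v) :=
        (continuous_snd.comp continuous_snd).tendsto _
      exact this.eventually_ne hv
    have e5 : ∀ᶠ p : E × E × E in 𝓝 (x, u, v), p.2.1 ≠ 0 := by
      have : Tendsto (fun p : E × E × E => p.2.1) (𝓝 (x, u, v)) (𝓝 u) :=
        (continuous_fst.comp continuous_snd).tendsto _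
      exact this.eventually_ne hu
    filter_upwards [e1.eventually (h.isOpen.mem_nhds hx), e3.eventually (h.isOpen.mem_nhds hm),
      e4, e5] with p h2 h4 h5 h6
    constructor
    · exact h.C_eq h2 h6 h5 hτ h4
    · rw [h.C_eq h2 h6 (neg_ne_zero.2 h5) hτ h4, h.C_neg_right h2 h6 h5, neg_neg]
  have hx1 := h.C_eq hx hu hv hτ hm
  have hx2 := h.C_eq hx hu (neg_ne_zero.2 hv) hτ hm
  rw [h.C_neg_right hx hu hv, neg_neg] at hx2
  unfold ContinuousAt
  rw [tendsto_order]
  constructor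
  · intro a ha
    simp only at ha
    have := main v hv (-a) (by rw [hx1]; linarith)
    filter_upwards [this, hnice] with p h1 h2
    rw [h2.1] at h1
    linarith
  · intro b hb
    simp only at hb
    have := main (-v) (neg_ne_zero.2 hv) b (by rw [hx2]; exact hb)
    have hmap : Tendsto (fun p : E × E × E => (p.1, p.2.1, -p.2.2)) (𝓝 (x, u, v)) (𝓝 (x, u, -v)) := by
      have : Continuous (fun p : E × E × E => (p.1, p.2.1, -p.2.2)) := by fun_prop
      exact this.tendsto _
    filter_upwards [hmap.eventually this, hnice] with p h1 h2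
    rw [h2.2] at h1
    exact h1

end PM

end Pool.Agent.Helper975.Ptol
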