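import Mathlib
import Pool.Agent.Helper975.Ptol.Header

set_option autoImplicit false

namespace Pool.Agent.Helper975.Ptol.JD

open Set Filter Topology


/-- polar form of `aq` -/
def bil (b : Fin 6 → ℝ) (x v : ℝ × ℝ) : ℝ :=
  (b 3 * b 5 - b 4 ^ 2) * (x.1 * v.1) + (b 2 * b 4 - b 1 * b 5) * (x.1 * v.2 + x.2 * v.1) +
    (b 0 * b 5 - b 2 ^ 2) * (x.2 * v.2) + (b 1 * b 4 - b 2 * b 3) * v.1 +
    (b 1 * b 2 - b 0 * b 4) * v.2

/-- quadratic part of `aq` -/
def gam (b : Fin 6 → ℝ) (v : ℝ × ℝ) : ℝ :=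
  (b 3 * b 5 - b 4 ^ 2) * v.1 ^ 2 + 2 * (b 2 * b 4 - b 1 * b 5) * (v.1 * v.2) +
    (b 0 * b 5 - b 2 ^ 2) * v.2 ^ 2

/-- determinant -/
def kap (b : Fin 6 → ℝ) : ℝ :=
  b 0 * b 3 * b 5 + 2 * (b 1 * b 2 * b 4) - b 0 * b 4 ^ 2 - b 3 * b 2 ^ 2 - b 5 * b 1 ^ 2

theorem aq_line (b : Fin 6 → ℝ) (x v : ℝ × ℝ) (t : ℝ) :
    aq b (x + t • v) = aq b x + 2 * bil b x v * t + gam b v * t ^ 2 := by
  simp only [aq, bil, gam, Prod.fst_add, Prod.snd_add, Prod.smul_fst, Prod.smul_snd, smul_eq_mul]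
  ring

theorem disc (b : Fin 6 → ℝ) (x v : ℝ × ℝ) :
    bil b x v ^ 2 - aq b x * gam b v = -(kap b) * Bq b x v := by
  simp only [aq, bil, gam, kap, Bq]
  ring

theorem Bq_smul (b : Fin 6 → ℝ) (x v : ℝ × ℝ) (t : ℝ) :
    Bq b x (t • v) = t ^ 2 * Bq b x v := by
  simp only [Bq, Prod.smul_fst, Prod.smul_snd, smul_eq_mul]
  ring

theorem Bq_neg (b : Fin 6 → ℝ) (x v : ℝ × ℝ) :
    Bq b x (-v) = Bq b x v := by
  simp only [Bq, Prod.fst_neg, Prod.snd_neg]
  ring

theorem bil_smul (b : Fin 6 → ℝ) (v : ℝ × ℝ) (t : ℝ) :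
    bil b 0 (t • v) = t * bil b 0 v := by
  simp only [bil, Prod.smul_fst, Prod.smul_snd, smul_eq_mul, Prod.fst_zero, Prod.snd_zero]
  ring

theorem bil_neg (b : Fin 6 → ℝ) (v : ℝ × ℝ) :
    bil b 0 (-v) = - bil b 0 v := by
  simp only [bil, Prod.fst_neg, Prod.snd_neg, Prod.fst_zero, Prod.snd_zero]
  ring

theorem gam_neg (b : Fin 6 → ℝ) (v : ℝ × ℝ) :
    gam b (-v) = gam b v := by
  simp only [gam, Prod.fst_neg, Prod.snd_neg]
  ring

theorem unb (U : Set (ℝ × ℝ)) (d : ℝ × ℝ → ℝ × ℝ → ℝ) (hPM : PM U d) (h0 : (0 : ℝ × ℝ) ∈ U)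
    (v : ℝ × ℝ) (hv : v ≠ 0) (r : ℝ) : ∃ t : ℝ, 0 < t ∧ t • v ∈ U ∧ r < d 0 (t • v) := by
  by_contra hcon
  push Not at hcon
  set R := max r 0 with hR
  have hd00 : d 0 0 = 0 := (hPM.eq_zero 0 h0 0 h0).2 rfl
  have hK := hPM.cpt 0 h0 R
  set K := {y | y ∈ U ∧ d 0 y ≤ R} with hKdef
  have hmem : ∀ t : ℝ, 0 ≤ t → t • v ∈ U → t • v ∈ K := by
    intro t ht htU
    refine ⟨htU, ?_⟩
    rcases ht.eq_or_lt with h | h
    · rw [← h, zero_smul, hd00]
      exact le_max_right _ _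
    · exact (hcon t h htU).trans (le_max_left _ _)
  -- the set of t
  have hcontv : Continuous (fun t : ℝ => t • v) := by fun_prop
  have hall : ∀ t : ℝ, 0 ≤ t → t • v ∈ U := by
    intro t ht
    have hconn : IsPreconnected (Icc (0 : ℝ) t) := isPreconnected_Icc
    have hopen : IsOpen ((fun t : ℝ => t • v) ⁻¹' U) := hPM.isOpen.preimage hcontv
    have hclosed : IsOpen (((fun t : ℝ => t • v) ⁻¹' K)ᶜ) :=
      (hK.isClosed.preimage hcontv).isOpen_compl
    by_contra htU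
    have htK : t • v ∉ K := fun h => htU h.1
    have h1 : (Icc (0 : ℝ) t ∩ ((fun t : ℝ => t • v) ⁻¹' U)).Nonempty :=
      ⟨0, ⟨le_refl _, ht⟩, by simpa using h0⟩
    have h2 : (Icc (0 : ℝ) t ∩ (((fun t : ℝ => t • v) ⁻¹' K)ᶜ)).Nonempty :=
      ⟨t, ⟨ht, le_refl _⟩, htK⟩
    have hcov : Icc (0 : ℝ) t ⊆ ((fun t : ℝ => t • v) ⁻¹' U) ∪ (((fun t : ℝ => t • v) ⁻¹' K)ᶜ) := by
      intro s _
      by_cases hs : s • v ∈ K
      · exact Or.inl hs.1
      · exact Or.inr hs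
    obtain ⟨s, hs, hsU, hsK⟩ := hconn _ _ hopen hclosed hcov h1 h2
    exact hsK (hmem s hs.1 hsU)
  -- unbounded
  obtain ⟨C, hC⟩ := hK.isBounded.exists_norm_le
  have hvn : 0 < ‖v‖ := norm_pos_iff.2 hv
  have hC0 : 0 ≤ C := by
    have := hC 0 (by simpa using hmem 0 le_rfl (by simpa using h0))
    simpa using this
  have ht : 0 ≤ (C + 1) / ‖v‖ := by positivity
  have := hC _ (hmem _ ht (hall _ ht))
  rw [norm_smul, Real.norm_of_nonneg ht, div_mul_cancel₀ _ hvn.ne'] at this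
  linarith

/-- integral over a ray -/
theorem ray_eq (U : Set (ℝ × ℝ)) (d : ℝ × ℝ → ℝ × ℝ → ℝ) (h0 : (0 : ℝ × ℝ) ∈ U)
    (b : Fin 6 → ℝ)
    (hdist : ∀ x ∈ U, ∀ y ∈ U, d x y =
      Real.sqrt (Bq b x (y - x)) * ∫ t in (0 : ℝ)..1, 1 / aq b (x + t • (y - x)))
    (v : ℝ × ℝ) (t : ℝ) (ht : 0 < t) (htU : t • v ∈ U) :
    d 0 (t • v) = Real.sqrt (Bq b 0 v) *
      ∫ s in (0 : ℝ)..t, 1 / (aq b 0 + 2 * bil b 0 v * s + gam b v * s ^ 2) := by
  rw [hdist 0 h0 _ htU, sub_zero, Bq_smul, Real.sqrt_mul (sq_nonneg t), Real.sqrt_sq ht.le]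
  have h1 : ∀ s : ℝ, (1 : ℝ) / aq b (0 + s • t • v) =
      (fun u : ℝ => 1 / (aq b 0 + 2 * bil b 0 v * u + gam b v * u ^ 2)) (s * t) := by
    intro s
    rw [smul_smul, aq_line]
  have h2 := intervalIntegral.integral_comp_mul_right (a := 0) (b := 1)
    (fun u : ℝ => 1 / (aq b 0 + 2 * bil b 0 v * u + gam b v * u ^ 2)) ht.ne'
  simp only [zero_mul, one_mul, smul_eq_mul] at h2
  have h3 : (∫ s in (0 : ℝ)..1, (1 : ℝ) / aq b (0 + s • t • v)) =
      t⁻¹ * ∫ s in (0 : ℝ)..t, 1 / (aq b 0 + 2 * bil b 0 v * s + gam b v * s ^ 2) := by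
    rw [← h2]
    exact intervalIntegral.integral_congr fun s _ => h1 s
  rw [h3]
  have h4 : ∀ J : ℝ, t * Real.sqrt (Bq b 0 v) * (t⁻¹ * J) = Real.sqrt (Bq b 0 v) * J := by
    intro J
    field_simp
  exact h4 _

theorem segU (U : Set (ℝ × ℝ)) (hc : Convex ℝ U) (h0 : (0 : ℝ × ℝ) ∈ U) (v : ℝ × ℝ) (s t : ℝ)
    (hs : 0 ≤ s) (hst : s ≤ t) (htU : t • v ∈ U) : s • v ∈ U := by
  rcases hs.eq_or_lt with h | h
  · rw [← h, zero_smul]; exact h0
  · have ht : 0 < t := h.trans_le hst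
    have := hc.smul_mem_of_zero_mem h0 htU (t := s / t) ⟨by positivity, by
      rw [div_le_one ht]; exact hst⟩
    rwa [smul_smul, div_mul_cancel₀ _ ht.ne'] at this

theorem case_pos (U : Set (ℝ × ℝ)) (d : ℝ × ℝ → ℝ × ℝ → ℝ) (hPM : PM U d)
    (h0 : (0 : ℝ × ℝ) ∈ U)
    (b : Fin 6 → ℝ) (ha : ∀ x ∈ U, 0 < aq b x) (hB : ∀ x ∈ U, ∀ v, v ≠ 0 → 0 < Bq b x v)
    (hdist : ∀ x ∈ U, ∀ y ∈ U, d x y =
      Real.sqrt (Bq b x (y - x)) * ∫ t in (0 : ℝ)..1, 1 / aq b (x + t • (y - x)))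
    (hk : 0 < kap b) : False := by
  set v : ℝ × ℝ := (1, 0) with hvdef
  have hv : v ≠ 0 := by simp [hvdef]
  have hα : 0 < aq b 0 := ha 0 h0
  have hq : 0 < Bq b 0 v := hB 0 h0 v hv
  have hdisc := disc b 0 v
  have hD : 0 < aq b 0 * gam b v - bil b 0 v ^ 2 := by nlinarith [mul_pos hk hq]
  set D := Real.sqrt (aq b 0 * gam b v - bil b 0 v ^ 2) with hDdef
  have hDpos : 0 < D := Real.sqrt_pos.2 hD
  have hD2 : D ^ 2 = aq b 0 * gam b v - bil b 0 v ^ 2 := Real.sq_sqrt hD.le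
  have hγ : 0 < gam b v := by
    by_contra h
    push Not at h
    nlinarith [sq_nonneg (bil b 0 v), mul_nonneg hα.le (neg_nonneg.2 h)]
  have hf : ∀ s : ℝ, 0 < aq b 0 + 2 * bil b 0 v * s + gam b v * s ^ 2 := by
    intro s
    have : gam b v * (aq b 0 + 2 * bil b 0 v * s + gam b v * s ^ 2) =
      (gam b v * s + bil b 0 v) ^ 2 + D ^ 2 := by rw [hD2]; ring
    have h2 : 0 < gam b v * (aq b 0 + 2 * bil b 0 v * s + gam b v * s ^ 2) := by
      rw [this]; positivity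
    exact (pos_iff_pos_of_mul_pos h2).1 hγ
  have hder : ∀ s : ℝ, HasDerivAt (fun s => Real.arctan ((gam b v * s + bil b 0 v) / D) / D)
      (1 / (aq b 0 + 2 * bil b 0 v * s + gam b v * s ^ 2)) s := by
    intro s
    have h1 : HasDerivAt (fun s : ℝ => (gam b v * s + bil b 0 v) / D) (gam b v / D) s := by
      simpa using (((hasDerivAt_id s).const_mul (gam b v)).add_const (bil b 0 v)).div_const D
    have h2 := (h1.arctan).div_const D
    refine h2.congr_deriv ?_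
    have hne : aq b 0 + 2 * bil b 0 v * s + gam b v * s ^ 2 ≠ 0 := (hf s).ne'
    have hne2 : 1 + ((gam b v * s + bil b 0 v) / D) ^ 2 ≠ 0 := by positivity
    have hDne : D ≠ 0 := hDpos.ne'
    have hne3 : D ^ 2 + (gam b v * s + bil b 0 v) ^ 2 ≠ 0 := by positivity
    have key : gam b v * (aq b 0 + 2 * bil b 0 v * s + gam b v * s ^ 2) =
      D ^ 2 + (gam b v * s + bil b 0 v) ^ 2 := by rw [hD2]; ring
    have e1 : 1 + ((gam b v * s + bil b 0 v) / D) ^ 2 =
        (gam b v * (aq b 0 + 2 * bil b 0 v * s + gam b v * s ^ 2)) / D ^ 2 := by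
      rw [key]; field_simp
    rw [e1]
    field_simp
  obtain ⟨t, ht, htU, hgt⟩ := unb U d hPM h0 v hv (Real.sqrt (Bq b 0 v) * (Real.pi / D))
  rw [ray_eq U d h0 b hdist v t ht htU] at hgt
  have hsq : 0 < Real.sqrt (Bq b 0 v) := Real.sqrt_pos.2 hq
  have hint : ∫ s in (0 : ℝ)..t, 1 / (aq b 0 + 2 * bil b 0 v * s + gam b v * s ^ 2) =
      Real.arctan ((gam b v * t + bil b 0 v) / D) / D -
        Real.arctan ((gam b v * 0 + bil b 0 v) / D) / D := by
    apply intervalIntegral.integral_eq_sub_of_hasDerivAt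
    · intro s _; exact hder s
    · apply Continuous.intervalIntegrable
      apply Continuous.div continuous_const (by fun_prop)
      intro s; exact (hf s).ne'
  rw [hint] at hgt
  have h1 := Real.arctan_lt_pi_div_two ((gam b v * t + bil b 0 v) / D)
  have h2 := Real.neg_pi_div_two_lt_arctan ((gam b v * 0 + bil b 0 v) / D)
  have h3 : Real.arctan ((gam b v * t + bil b 0 v) / D) / D -
        Real.arctan ((gam b v * 0 + bil b 0 v) / D) / D ≤ Real.pi / D := by
    rw [← sub_div]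
    exact div_le_div_of_nonneg_right (by linarith) hDpos.le
  have := mul_le_mul_of_nonneg_left h3 hsq.le
  linarith

theorem case_zero (U : Set (ℝ × ℝ)) (d : ℝ × ℝ → ℝ × ℝ → ℝ) (hPM : PM U d)
    (h0 : (0 : ℝ × ℝ) ∈ U)
    (b : Fin 6 → ℝ) (ha : ∀ x ∈ U, 0 < aq b x) (hB : ∀ x ∈ U, ∀ v, v ≠ 0 → 0 < Bq b x v)
    (hdist : ∀ x ∈ U, ∀ y ∈ U, d x y =
      Real.sqrt (Bq b x (y - x)) * ∫ t in (0 : ℝ)..1, 1 / aq b (x + t • (y - x)))
    (hk : kap b = 0) : ConclE U d := by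
  have hα : 0 < aq b 0 := ha 0 h0
  have hbil : ∀ v : ℝ × ℝ, v ≠ 0 → bil b 0 v = 0 := by
    have aux : ∀ v : ℝ × ℝ, v ≠ 0 → ¬ (0 < bil b 0 v) := by
      intro v hv hβ
      have hdisc := disc b 0 v
      rw [hk] at hdisc
      have hγ : aq b 0 * gam b v = bil b 0 v ^ 2 := by linarith
      have hq : 0 < Bq b 0 v := hB 0 h0 v hv
      obtain ⟨t, ht, htU, hgt⟩ := unb U d hPM h0 v hv (Real.sqrt (Bq b 0 v) * (1 / bil b 0 v))
      rw [ray_eq U d h0 b hdist v t ht htU] at hgt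
      have hpos : ∀ s : ℝ, 0 ≤ s → 0 < aq b 0 + bil b 0 v * s := fun s hs => by positivity
      have hfs : ∀ s : ℝ, aq b 0 * (aq b 0 + 2 * bil b 0 v * s + gam b v * s ^ 2) =
          (aq b 0 + bil b 0 v * s) ^ 2 := by
        intro s
        linear_combination s ^ 2 * hγ
      have hder : ∀ s : ℝ, 0 ≤ s →
          HasDerivAt (fun s => -(aq b 0 / bil b 0 v) * (aq b 0 + bil b 0 v * s)⁻¹)
          (1 / (aq b 0 + 2 * bil b 0 v * s + gam b v * s ^ 2)) s := by
        intro s hs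
        have hp := hpos s hs
        have h1 : HasDerivAt (fun s : ℝ => aq b 0 + bil b 0 v * s) (bil b 0 v) s := by
          simpa using ((hasDerivAt_id s).const_mul (bil b 0 v)).const_add (aq b 0)
        have h2 := (h1.inv hp.ne').const_mul (-(aq b 0 / bil b 0 v))
        refine h2.congr_deriv ?_
        have hne : aq b 0 + 2 * bil b 0 v * s + gam b v * s ^ 2 =
          (aq b 0 + bil b 0 v * s) ^ 2 / aq b 0 := by
          rw [eq_div_iff hα.ne', mul_comm]; exact hfs s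
        rw [hne]
        have := hα.ne'
        have := hβ.ne'
        field_simp
      have hint : ∫ s in (0 : ℝ)..t, 1 / (aq b 0 + 2 * bil b 0 v * s + gam b v * s ^ 2) =
          -(aq b 0 / bil b 0 v) * (aq b 0 + bil b 0 v * t)⁻¹ -
            -(aq b 0 / bil b 0 v) * (aq b 0 + bil b 0 v * 0)⁻¹ := by
        apply intervalIntegral.integral_eq_sub_of_hasDerivAt
        · intro s hs
          rw [uIcc_of_le ht.le] at hs
          exact hder s hs.1
        · apply ContinuousOn.intervalIntegrable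
          apply ContinuousOn.div continuousOn_const (by fun_prop)
          intro s hs
          rw [uIcc_of_le ht.le] at hs
          intro h
          have := hfs s
          rw [h, mul_zero] at this
          have hp := hpos s hs.1
          nlinarith [pow_pos hp 2]
      rw [hint] at hgt
      have h1 : -(aq b 0 / bil b 0 v) * (aq b 0 + bil b 0 v * t)⁻¹ -
            -(aq b 0 / bil b 0 v) * (aq b 0 + bil b 0 v * 0)⁻¹ ≤ 1 / bil b 0 v := by
        have hp := hpos t ht.le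
        have e : -(aq b 0 / bil b 0 v) * (aq b 0 + bil b 0 v * t)⁻¹ -
            -(aq b 0 / bil b 0 v) * (aq b 0 + bil b 0 v * 0)⁻¹ =
            1 / bil b 0 v - aq b 0 / bil b 0 v * (aq b 0 + bil b 0 v * t)⁻¹ := by
          have := hα.ne'
          rw [mul_zero, add_zero]
          field_simp
          ring
        rw [e]
        have : 0 ≤ aq b 0 / bil b 0 v * (aq b 0 + bil b 0 v * t)⁻¹ := by positivity
        linarith
      have hsq : 0 < Real.sqrt (Bq b 0 v) := Real.sqrt_pos.2 hq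
      have := mul_le_mul_of_nonneg_left h1 hsq.le
      linarith
    intro v hv
    by_contra h
    rcases lt_or_gt_of_ne h with h | h
    · exact aux (-v) (neg_ne_zero.2 hv) (by rw [bil_neg]; linarith)
    · exact aux v hv h
  have hgam : ∀ v : ℝ × ℝ, v ≠ 0 → gam b v = 0 := by
    intro v hv
    have hdisc := disc b 0 v
    rw [hk, hbil v hv] at hdisc
    have : aq b 0 * gam b v = 0 := by linarith
    exact (mul_eq_zero.1 this).resolve_left hα.ne'
  have e1 : b 1 * b 4 - b 2 * b 3 = 0 := by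
    have := hbil (1, 0) (by simp)
    simpa [bil] using this
  have e2 : b 1 * b 2 - b 0 * b 4 = 0 := by
    have := hbil (0, 1) (by simp)
    simpa [bil] using this
  have e3 : b 3 * b 5 - b 4 ^ 2 = 0 := by
    have := hgam (1, 0) (by simp)
    simpa [gam] using this
  have e4 : b 0 * b 5 - b 2 ^ 2 = 0 := by
    have := hgam (0, 1) (by simp)
    simpa [gam] using this
  have e5 : b 2 * b 4 - b 1 * b 5 = 0 := by
    have := hgam (1, 1) (by simp)
    simp only [gam, e3, e4] at this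
    linarith
  have ha0 : aq b 0 = b 0 * b 3 - b 1 ^ 2 := by simp [aq]
  rw [ha0] at hα
  have hb2 : b 2 = 0 := by
    have : (b 0 * b 3 - b 1 ^ 2) * b 2 = 0 := by
      linear_combination (-(b 0)) * e1 - b 1 * e2
    exact (mul_eq_zero.1 this).resolve_left hα.ne'
  have hb4 : b 4 = 0 := by
    have : (b 0 * b 3 - b 1 ^ 2) * b 4 = 0 := by
      linear_combination (-(b 1)) * e1 - b 3 * e2
    exact (mul_eq_zero.1 this).resolve_left hα.ne'
  have hb5 : b 5 = 0 := by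
    have : (b 0 * b 3 - b 1 ^ 2) * b 5 = 0 := by
      have h := hk
      simp only [kap, hb2, hb4] at h
      linear_combination h
    exact (mul_eq_zero.1 this).resolve_left hα.ne'
  have haq : ∀ x, aq b x = b 0 * b 3 - b 1 ^ 2 := by
    intro x
    simp only [aq, hb2, hb4, hb5]
    ring
  have hBq : ∀ x v, Bq b x v = b 0 * v.2 ^ 2 - 2 * b 1 * v.1 * v.2 + b 3 * v.1 ^ 2 := by
    intro x v
    simp only [Bq, hb2, hb4, hb5]
    ring
  set a0 := b 0 * b 3 - b 1 ^ 2 with ha0def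
  have hd : ∀ x ∈ U, ∀ y ∈ U, d x y = Real.sqrt (Bq b 0 (y - x)) * (1 / a0) := by
    intro x hx y hy
    rw [hdist x hx y hy]
    simp only [haq, intervalIntegral.integral_const, sub_zero, smul_eq_mul, one_mul, hBq]
  have hU : U = univ := by
    rw [eq_univ_iff_forall]
    intro v
    by_contra hvU
    have hv : v ≠ 0 := by
      rintro rfl
      exact hvU h0
    obtain ⟨t, ht, htU, hgt⟩ := unb U d hPM h0 v hv (Real.sqrt (Bq b 0 v) * (1 / a0))
    rw [hd 0 h0 _ htU, sub_zero, Bq_smul, Real.sqrt_mul (sq_nonneg t), Real.sqrt_sq ht.le] at hgt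
    have ht1 : t < 1 := by
      by_contra h
      push Not at h
      apply hvU
      have := segU U hPM.convex h0 v 1 t zero_le_one h htU
      rwa [one_smul] at this
    have : 0 ≤ Real.sqrt (Bq b 0 v) * (1 / a0) := by positivity
    nlinarith
  refine ⟨hU, b 3 / a0 ^ 2, -(b 1) / a0 ^ 2, b 0 / a0 ^ 2, ?_, ?_, ?_⟩
  · have := hB 0 h0 (1, 0) (by simp)
    rw [hBq] at this
    simp only [mul_zero, one_pow, mul_one] at this
    have h3 : 0 < b 3 := by nlinarith
    positivity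
  · have : b 3 / a0 ^ 2 * (b 0 / a0 ^ 2) - (-b 1 / a0 ^ 2) ^ 2 = 1 / a0 ^ 3 := by
      have := hα.ne'
      field_simp
      rw [ha0def]; ring
    rw [this]; positivity
  · intro x y
    have hx : x ∈ U := hU ▸ mem_univ x
    have hy : y ∈ U := hU ▸ mem_univ y
    rw [hd x hx y hy, mul_pow, Real.sq_sqrt, hBq]
    · simp only [qf, Prod.fst_sub, Prod.snd_sub]
      have := hα.ne'
      field_simp
      ring
    · by_cases h : y - x = 0
      · rw [h, hBq]; simp
      · exact (hB 0 h0 _ h).le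

/-- closed form of the distance when the determinant is negative -/
theorem neg_key (U : Set (ℝ × ℝ)) (d : ℝ × ℝ → ℝ × ℝ → ℝ) (hPM : PM U d)
    (b : Fin 6 → ℝ) (ha : ∀ x ∈ U, 0 < aq b x) (hB : ∀ x ∈ U, ∀ v, v ≠ 0 → 0 < Bq b x v)
    (hdist : ∀ x ∈ U, ∀ y ∈ U, d x y =
      Real.sqrt (Bq b x (y - x)) * ∫ t in (0 : ℝ)..1, 1 / aq b (x + t • (y - x)))
    (k : ℝ) (hk0 : 0 < k) (hk : k ^ 2 = -(kap b)) (x y : ℝ × ℝ) (hx : x ∈ U) (hy : y ∈ U)
    (hxy : x ≠ y) :
    0 < aq b x + bil b x (y - x) - k * Real.sqrt (Bq b x (y - x)) ∧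
    0 < aq b x + bil b x (y - x) + k * Real.sqrt (Bq b x (y - x)) ∧
    d x y = 1 / (2 * k) * Real.log ((aq b x + bil b x (y - x) + k * Real.sqrt (Bq b x (y - x))) /
      (aq b x + bil b x (y - x) - k * Real.sqrt (Bq b x (y - x)))) := by
  have hv : y - x ≠ 0 := sub_ne_zero.2 hxy.symm
  set v := y - x with hvdef
  have hq : 0 < Bq b x v := hB x hx v hv
  have hα : 0 < aq b x := ha x hx
  set α := aq b x with hαdef
  set β := bil b x v with hβdef
  set γ := gam b v with hγdef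
  set δ := k * Real.sqrt (Bq b x v) with hδdef
  have hδ0 : 0 < δ := mul_pos hk0 (Real.sqrt_pos.2 hq)
  have hδ2 : δ ^ 2 = β ^ 2 - α * γ := by
    rw [hδdef, mul_pow, Real.sq_sqrt hq.le, hk, ← disc b x v]
  have hseg : ∀ t : ℝ, t ∈ Icc (0 : ℝ) 1 → x + t • v ∈ U := by
    intro t ht
    have := hPM.convex.add_smul_sub_mem hx hy ht
    exact this
  have hf : ∀ t : ℝ, t ∈ Icc (0 : ℝ) 1 → 0 < α + 2 * β * t + γ * t ^ 2 := by
    intro t ht
    rw [← aq_line b x v t]
    exact ha _ (hseg t ht)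
  have hfac : ∀ t : ℝ, (α + (β + δ) * t) * (α + (β - δ) * t) =
      α * (α + 2 * β * t + γ * t ^ 2) := by
    intro t
    linear_combination (-(t ^ 2)) * hδ2
  have haff : ∀ c : ℝ, (∀ t : ℝ, t ∈ Icc (0 : ℝ) 1 → α + c * t ≠ 0) → 0 < α + c := by
    intro c hc
    by_contra h
    push Not at h
    have hc0 : c < 0 := by linarith
    refine hc (-α / c) ⟨div_nonneg_of_nonpos (by linarith) hc0.le, ?_⟩ ?_
    · rw [div_le_one_of_neg hc0]; linarith
    · have := hc0.ne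
      rw [mul_div_cancel₀ _ this]
      ring
  have hP1 : 0 < α + (β + δ) := by
    apply haff
    intro t ht h
    have := hfac t
    rw [h, zero_mul] at this
    exact absurd this.symm (mul_pos hα (hf t ht)).ne'
  have hM1 : 0 < α + (β - δ) := by
    apply haff
    intro t ht h
    have := hfac t
    rw [h, mul_zero] at this
    exact absurd this.symm (mul_pos hα (hf t ht)).ne'
  have hP : ∀ t : ℝ, t ∈ Icc (0 : ℝ) 1 → 0 < α + (β + δ) * t := by
    intro t ht
    rcases ht.1.eq_or_lt with h | h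
    · rw [← h]; simpa using hα
    · nlinarith [mul_nonneg (sub_nonneg.2 ht.2) hα.le, mul_pos h hP1]
  have hM : ∀ t : ℝ, t ∈ Icc (0 : ℝ) 1 → 0 < α + (β - δ) * t := by
    intro t ht
    rcases ht.1.eq_or_lt with h | h
    · rw [← h]; simpa using hα
    · nlinarith [mul_nonneg (sub_nonneg.2 ht.2) hα.le, mul_pos h hM1]
  refine ⟨by linarith, by linarith, ?_⟩
  have hder : ∀ t : ℝ, t ∈ Icc (0 : ℝ) 1 →
      HasDerivAt (fun t => (1 / (2 * δ)) *
        (Real.log (α + (β + δ) * t) - Real.log (α + (β - δ) * t)))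
        (1 / (α + 2 * β * t + γ * t ^ 2)) t := by
    intro t ht
    have hp := hP t ht
    have hm := hM t ht
    have h1 : HasDerivAt (fun t : ℝ => α + (β + δ) * t) (β + δ) t := by
      simpa using ((hasDerivAt_id t).const_mul (β + δ)).const_add α
    have h2 : HasDerivAt (fun t : ℝ => α + (β - δ) * t) (β - δ) t := by
      simpa using ((hasDerivAt_id t).const_mul (β - δ)).const_add α
    have h3 := ((h1.log hp.ne').sub (h2.log hm.ne')).const_mul (1 / (2 * δ))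
    refine h3.congr_deriv ?_
    have hne := (hf t ht).ne'
    have hne2 : α + 2 * β * t + γ * t ^ 2 =
      (α + (β + δ) * t) * (α + (β - δ) * t) / α := by
      rw [eq_div_iff hα.ne', mul_comm]; exact (hfac t).symm
    rw [hne2]
    have e : (β + δ) / (α + (β + δ) * t) - (β - δ) / (α + (β - δ) * t) =
        (2 * δ * α) / ((α + (β + δ) * t) * (α + (β - δ) * t)) := by
      rw [div_sub_div _ _ hp.ne' hm.ne']
      congr 1
      ring
    rw [e]
    have h5 := hδ0.ne'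
    have h6 := hα.ne'
    have h7 := hp.ne'
    have h8 := hm.ne'
    field_simp
  have hint : ∫ t in (0 : ℝ)..1, 1 / aq b (x + t • v) =
      (1 / (2 * δ)) * (Real.log (α + (β + δ) * 1) - Real.log (α + (β - δ) * 1)) -
      (1 / (2 * δ)) * (Real.log (α + (β + δ) * 0) - Real.log (α + (β - δ) * 0)) := by
    have h1 : ∀ t : ℝ, (1 : ℝ) / aq b (x + t • v) = 1 / (α + 2 * β * t + γ * t ^ 2) := by
      intro t
      rw [aq_line]
    simp_rw [h1]
    refine intervalIntegral.integral_eq_sub_of_hasDerivAt (f := fun t : ℝ => (1 / (2 * δ)) *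
        (Real.log (α + (β + δ) * t) - Real.log (α + (β - δ) * t))) ?_ ?_
    · intro s hs
      rw [uIcc_of_le zero_le_one] at hs
      exact hder s hs
    · apply ContinuousOn.intervalIntegrable
      apply ContinuousOn.div continuousOn_const (by fun_prop)
      intro s hs
      rw [uIcc_of_le zero_le_one] at hs
      exact (hf s hs).ne'
  rw [hdist x hx y hy, ← hvdef, hint, Real.log_div (by linarith) (by linarith)]
  simp only [mul_zero, add_zero, sub_self, mul_one, sub_zero]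
  have hsq : 0 < Real.sqrt (Bq b x v) := Real.sqrt_pos.2 hq
  rw [show α + (β + δ) = α + β + δ by ring, show α + (β - δ) = α + β - δ by ring]
  rw [hδdef]
  field_simp

theorem gauge_eq (U : Set (ℝ × ℝ)) (d : ℝ × ℝ → ℝ × ℝ → ℝ) (hPM : PM U d)
    (h0 : (0 : ℝ × ℝ) ∈ U)
    (b : Fin 6 → ℝ) (ha : ∀ x ∈ U, 0 < aq b x) (hB : ∀ x ∈ U, ∀ v, v ≠ 0 → 0 < Bq b x v)
    (hdist : ∀ x ∈ U, ∀ y ∈ U, d x y =
      Real.sqrt (Bq b x (y - x)) * ∫ t in (0 : ℝ)..1, 1 / aq b (x + t • (y - x)))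
    (k : ℝ) (hk0 : 0 < k) (hk : k ^ 2 = -(kap b)) (v : ℝ × ℝ) (hv : v ≠ 0) :
    gauge U v = (k * Real.sqrt (Bq b 0 v) - bil b 0 v) / aq b 0 := by
  have hα : 0 < aq b 0 := ha 0 h0
  have hq : 0 < Bq b 0 v := hB 0 h0 v hv
  set α := aq b 0 with hαdef
  set β := bil b 0 v with hβdef
  set δ := k * Real.sqrt (Bq b 0 v) with hδdef
  have hδ0 : 0 < δ := mul_pos hk0 (Real.sqrt_pos.2 hq)
  have hray : ∀ t : ℝ, 0 < t → t • v ∈ U → 0 < α + t * (β - δ) ∧ 0 < α + t * (β + δ) ∧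
      d 0 (t • v) = 1 / (2 * k) * Real.log ((α + t * (β + δ)) / (α + t * (β - δ))) := by
    intro t ht htU
    have hne : (0 : ℝ × ℝ) ≠ t • v := (smul_ne_zero ht.ne' hv).symm
    obtain ⟨h1, h2, h3⟩ := neg_key U d hPM b ha hB hdist k hk0 hk 0 (t • v) h0 htU hne
    rw [sub_zero, Bq_smul, Real.sqrt_mul (sq_nonneg t), Real.sqrt_sq ht.le, bil_smul] at h1 h2 h3
    have e1 : aq b 0 + t * bil b 0 v - k * (t * Real.sqrt (Bq b 0 v)) = α + t * (β - δ) := by
      rw [hδdef]; ring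
    have e2 : aq b 0 + t * bil b 0 v + k * (t * Real.sqrt (Bq b 0 v)) = α + t * (β + δ) := by
      rw [hδdef]; ring
    rw [e1] at h1 h3
    rw [e2] at h2 h3
    exact ⟨h1, h2, h3⟩
  -- boundedness principle
  have hbd : ∀ R : ℝ, ∃ t : ℝ, 0 < t ∧ t • v ∈ U ∧ R < (α + t * (β + δ)) / (α + t * (β - δ)) := by
    intro R
    obtain ⟨t, ht, htU, hgt⟩ := unb U d hPM h0 v hv (1 / (2 * k) * Real.log (max R 1))
    obtain ⟨h1, h2, h3⟩ := hray t ht htU
    refine ⟨t, ht, htU, ?_⟩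
    rw [h3] at hgt
    have hlog := lt_of_mul_lt_mul_left hgt (by positivity)
    have := (Real.log_lt_log_iff (by positivity) (by positivity)).1 hlog
    exact lt_of_le_of_lt (le_max_left _ _) this
  have hG : 0 ≤ δ - β := by
    by_contra h
    push Not at h
    obtain ⟨t, ht, htU, hgt⟩ := hbd (1 + (β + δ) / (β - δ))
    obtain ⟨h1, h2, -⟩ := hray t ht htU
    rw [lt_div_iff₀ h1] at hgt
    have h3 : 0 < β - δ := by linarith
    have h4 : (β + δ) / (β - δ) * (t * (β - δ)) = t * (β + δ) := by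
      field_simp
    have h5 : 0 < (β + δ) / (β - δ) := by
      apply div_pos <;> linarith
    nlinarith [mul_pos h5 hα, mul_pos ht h3]
  have hiff : ∀ t : ℝ, 0 < t → (t • v ∈ U ↔ t * (δ - β) < α) := by
    intro t ht
    constructor
    · intro htU
      have := (hray t ht htU).1
      linarith
    · intro hlt
      by_contra htU
      have hm : 0 < α + t * (β - δ) := by linarith
      obtain ⟨s, hs, hsU, hgt⟩ := hbd ((α + t * |β + δ|) / (α + t * (β - δ)))
      obtain ⟨h1, h2, -⟩ := hray s hs hsU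
      have hst : s < t := by
        by_contra h
        push Not at h
        exact htU (segU U hPM.convex h0 v t s ht.le h hsU)
      have hb1 : α + s * (β + δ) ≤ α + t * |β + δ| := by
        have h5 : s * (β + δ) ≤ s * |β + δ| := mul_le_mul_of_nonneg_left (le_abs_self _) hs.le
        have h6 : s * |β + δ| ≤ t * |β + δ| :=
          mul_le_mul_of_nonneg_right hst.le (abs_nonneg _)
        linarith
      have hb2 : α + t * (β - δ) ≤ α + s * (β - δ) := by nlinarith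
      have : (α + s * (β + δ)) / (α + s * (β - δ)) ≤ (α + t * |β + δ|) / (α + t * (β - δ)) := by
        apply div_le_div₀ _ hb1 hm hb2
        positivity
      linarith
  rw [gauge_def']
  have hset : {r : ℝ | r ∈ Ioi (0 : ℝ) ∧ r⁻¹ • v ∈ U} = Ioi ((δ - β) / α) := by
    ext r
    simp only [mem_ofPred_eq, mem_Ioi]
    constructor
    · rintro ⟨hr, hrU⟩
      have := (hiff r⁻¹ (inv_pos.2 hr)).1 hrU
      rw [div_lt_iff₀ hα]
      have h7 : r * (r⁻¹ * (δ - β)) < r * α := mul_lt_mul_of_pos_left this hr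
      rwa [← mul_assoc, mul_inv_cancel₀ hr.ne', one_mul] at h7
    · intro hr
      have hr0 : 0 < r := lt_of_le_of_lt (by positivity) hr
      refine ⟨hr0, (hiff r⁻¹ (inv_pos.2 hr0)).2 ?_⟩
      rw [div_lt_iff₀ hα] at hr
      rw [inv_mul_lt_iff₀ hr0]
      exact hr
  rw [hset, csInf_Ioi]

theorem case_neg (U : Set (ℝ × ℝ)) (d : ℝ × ℝ → ℝ × ℝ → ℝ) (hPM : PM U d)
    (h0 : (0 : ℝ × ℝ) ∈ U)
    (b : Fin 6 → ℝ) (ha : ∀ x ∈ U, 0 < aq b x) (hB : ∀ x ∈ U, ∀ v, v ≠ 0 → 0 < Bq b x v)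
    (hdist : ∀ x ∈ U, ∀ y ∈ U, d x y =
      Real.sqrt (Bq b x (y - x)) * ∫ t in (0 : ℝ)..1, 1 / aq b (x + t • (y - x)))
    (hk' : kap b < 0) : ConclH U d := by
  set k := Real.sqrt (-(kap b)) with hkdef
  have hk0 : 0 < k := Real.sqrt_pos.2 (by linarith)
  have hk : k ^ 2 = -(kap b) := Real.sq_sqrt (by linarith)
  have hα : 0 < aq b 0 := ha 0 h0
  have hαne := hα.ne'
  have hg := gauge_eq U d hPM h0 b ha hB hdist k hk0 hk
  have hgn : ∀ v : ℝ × ℝ, v ≠ 0 → gauge U (-v) =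
      (k * Real.sqrt (Bq b 0 v) + bil b 0 v) / aq b 0 := by
    intro v hv
    rw [hg (-v) (neg_ne_zero.2 hv), Bq_neg, bil_neg, sub_neg_eq_add]
  have hform : ∀ x : ℝ × ℝ, 1 + 2 * ((b 1 * b 4 - b 2 * b 3) / aq b 0 * x.1 +
      (b 1 * b 2 - b 0 * b 4) / aq b 0 * x.2) +
      qf ((b 3 * b 5 - b 4 ^ 2) / aq b 0) ((b 2 * b 4 - b 1 * b 5) / aq b 0)
        ((b 0 * b 5 - b 2 ^ 2) / aq b 0) x = aq b x / aq b 0 := by
    intro x
    have e : aq b x = aq b 0 + (aq b x - aq b 0) := by ring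
    have e2 : aq b x - aq b 0 = (b 3 * b 5 - b 4 ^ 2) * x.1 ^ 2 +
        2 * (b 2 * b 4 - b 1 * b 5) * x.1 * x.2 +
        (b 0 * b 5 - b 2 ^ 2) * x.2 ^ 2 + 2 * (b 1 * b 4 - b 2 * b 3) * x.1 +
        2 * (b 1 * b 2 - b 0 * b 4) * x.2 := by
      simp [aq]
    rw [e, e2]
    simp only [qf]
    field_simp
    ring
  refine ⟨1 / k, (b 1 * b 4 - b 2 * b 3) / aq b 0, (b 1 * b 2 - b 0 * b 4) / aq b 0,
    (b 3 * b 5 - b 4 ^ 2) / aq b 0, (b 2 * b 4 - b 1 * b 5) / aq b 0,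
    (b 0 * b 5 - b 2 ^ 2) / aq b 0, by positivity, ?_, ?_, ?_, ?_⟩
  · intro v
    by_cases hv : v = 0
    · subst hv; simp
    · rw [hg v hv, hgn v hv]
      have : bil b 0 v = (b 1 * b 4 - b 2 * b 3) * v.1 + (b 1 * b 2 - b 0 * b 4) * v.2 := by
        simp [bil]
      rw [← sub_div, show k * √(Bq b 0 v) + bil b 0 v - (k * √(Bq b 0 v) - bil b 0 v) =
        2 * bil b 0 v by ring, this]
      field_simp
  · intro v
    by_cases hv : v = 0
    · subst hv; simp [qf]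
    · rw [hg v hv, hgn v hv]
      have h1 := disc b 0 v
      have h2 : Real.sqrt (Bq b 0 v) ^ 2 = Bq b 0 v := Real.sq_sqrt (hB 0 h0 v hv).le
      have e : (k * Real.sqrt (Bq b 0 v) - bil b 0 v) / aq b 0 *
          ((k * Real.sqrt (Bq b 0 v) + bil b 0 v) / aq b 0) = - (gam b v / aq b 0) := by
        rw [div_mul_div_comm, eq_neg_iff_add_eq_zero, div_add_div _ _ (by positivity) hαne]
        rw [div_eq_zero_iff]
        left
        have : (k * Real.sqrt (Bq b 0 v) - bil b 0 v) * (k * Real.sqrt (Bq b 0 v) + bil b 0 v) =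
          - (aq b 0 * gam b v) := by
          have : (k * Real.sqrt (Bq b 0 v) - bil b 0 v) * (k * Real.sqrt (Bq b 0 v) + bil b 0 v) =
            k ^ 2 * (Real.sqrt (Bq b 0 v) ^ 2) - bil b 0 v ^ 2 := by ring
          rw [this, h2, hk]
          linarith
        rw [this]; ring
      rw [e, neg_neg]
      simp only [qf, gam]
      field_simp
  · intro v hv
    rw [hg v hv, hgn v hv, ← add_div]
    have : 0 < Real.sqrt (Bq b 0 v) := Real.sqrt_pos.2 (hB 0 h0 v hv)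
    have h3 : 0 < k * Real.sqrt (Bq b 0 v) := mul_pos hk0 this
    apply div_pos _ hα
    linarith
  · intro x hx y hy
    rw [hform x, hform y]
    have hax := ha x hx
    have hay := ha y hy
    have hbf : 1 + ((b 1 * b 4 - b 2 * b 3) / aq b 0 * x.1 +
        (b 1 * b 2 - b 0 * b 4) / aq b 0 * x.2) + ((b 1 * b 4 - b 2 * b 3) / aq b 0 * y.1 +
        (b 1 * b 2 - b 0 * b 4) / aq b 0 * y.2) +
        bf ((b 3 * b 5 - b 4 ^ 2) / aq b 0) ((b 2 * b 4 - b 1 * b 5) / aq b 0)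
          ((b 0 * b 5 - b 2 ^ 2) / aq b 0) x y = (aq b x + bil b x (y - x)) / aq b 0 := by
      have e2 : aq b x + bil b x (y - x) = aq b 0 + ((b 3 * b 5 - b 4 ^ 2) * (x.1 * y.1) +
          (b 2 * b 4 - b 1 * b 5) * (x.1 * y.2 + x.2 * y.1) +
          (b 0 * b 5 - b 2 ^ 2) * (x.2 * y.2) + (b 1 * b 4 - b 2 * b 3) * (x.1 + y.1) +
          (b 1 * b 2 - b 0 * b 4) * (x.2 + y.2)) := by
        simp only [aq, bil, Prod.fst_sub, Prod.snd_sub, Prod.fst_zero, Prod.snd_zero]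
        ring
      rw [e2]
      simp only [bf]
      field_simp
      ring
    rw [hbf]
    by_cases hxy : x = y
    · subst hxy
      have hd0 : d x x = 0 := (hPM.eq_zero x hx x hx).2 rfl
      rw [hd0, zero_div, Real.cosh_zero, one_mul, Real.sqrt_mul_self (by positivity)]
      have : bil b x (x - x) = 0 := by simp [bil]
      rw [this, add_zero]
    · obtain ⟨h1, h2, h3⟩ := neg_key U d hPM b ha hB hdist k hk0 hk x y hx hy hxy
      have hq : 0 < Bq b x (y - x) := hB x hx _ (sub_ne_zero.2 (Ne.symm hxy))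
      set M := aq b x + bil b x (y - x) - k * Real.sqrt (Bq b x (y - x)) with hM
      set P := aq b x + bil b x (y - x) + k * Real.sqrt (Bq b x (y - x)) with hP
      have hPM' : P * M = aq b x * aq b y := by
        have hline := aq_line b x (y - x) 1
        rw [one_smul, add_sub_cancel] at hline
        have h4 : Real.sqrt (Bq b x (y - x)) ^ 2 = Bq b x (y - x) := Real.sq_sqrt hq.le
        have h5 := disc b x (y - x)
        rw [← hk] at h5
        rw [hline, hP, hM]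
        linear_combination (-(k ^ 2)) * h4 + h5
      have hd' : d x y / (1 / k) = Real.log (Real.sqrt P / Real.sqrt M) := by
        rw [h3, Real.log_div h2.ne' h1.ne', Real.log_div (Real.sqrt_pos.2 h2).ne'
          (Real.sqrt_pos.2 h1).ne', Real.log_sqrt h2.le, Real.log_sqrt h1.le]
        field_simp
      rw [hd', Real.cosh_log (by positivity)]
      have hsP : 0 < Real.sqrt P := Real.sqrt_pos.2 h2
      have hsM : 0 < Real.sqrt M := Real.sqrt_pos.2 h1
      have hprod : Real.sqrt (aq b x / aq b 0 * (aq b y / aq b 0)) =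
          Real.sqrt P * Real.sqrt M / aq b 0 := by
        rw [div_mul_div_comm, ← hPM', Real.sqrt_div (by positivity), Real.sqrt_mul h2.le,
          Real.sqrt_mul_self hα.le]
      rw [hprod]
      have e1 : Real.sqrt P ^ 2 = P := Real.sq_sqrt h2.le
      have e2 : Real.sqrt M ^ 2 = M := Real.sq_sqrt h1.le
      have e3 : aq b x + bil b x (y - x) = (Real.sqrt P ^ 2 + Real.sqrt M ^ 2) / 2 := by
        rw [e1, e2, hP, hM]; ring
      rw [e3]
      field_simp

/-- TARGET D. Classification of the plane metrics of Beltrami form. -/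
theorem classify (U : Set (ℝ × ℝ)) (d : ℝ × ℝ → ℝ × ℝ → ℝ) (hPM : PM U d) (h0 : (0 : ℝ × ℝ) ∈ U)
    (b : Fin 6 → ℝ) (ha : ∀ x ∈ U, 0 < aq b x) (hB : ∀ x ∈ U, ∀ v, v ≠ 0 → 0 < Bq b x v)
    (hdist : ∀ x ∈ U, ∀ y ∈ U, d x y =
      Real.sqrt (Bq b x (y - x)) * ∫ t in (0 : ℝ)..1, 1 / aq b (x + t • (y - x))) :
    ConclE U d ∨ ConclH U d := by
  rcases lt_trichotomy (kap b) 0 with h | h | h
  · exact Or.inr (case_neg U d hPM h0 b ha hB hdist h)
  · exact Or.inl (case_zero U d hPM h0 b ha hB hdist h)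
  · exact (case_pos U d hPM h0 b ha hB hdist h).elim

end Pool.Agent.Helper975.Ptol.JD
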