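import Mathlib
import Pool.Agent.Helper975.Ptol.Header

set_option autoImplicit false

namespace Pool.Agent.Helper975.Ptol.JE0

open Set Filter Topology


theorem gauge_nonpos_of_full {V : Set (ℝ × ℝ)} {v : ℝ × ℝ} (h : ∀ t : ℝ, t • v ∈ V) :
    gauge V v ≤ 0 := by
  by_contra hcon
  push Not at hcon
  set g := gauge V v with hg
  have ht : 0 < 2 / g := by positivity
  have h1 : gauge V v ≤ (2 / g)⁻¹ := by
    apply gauge_le_of_mem (by positivity)
    refine ⟨(2 / g) • v, h _, ?_⟩
    simp only [smul_smul]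
    rw [inv_mul_cancel₀ ht.ne', one_smul]
  rw [← hg, inv_div] at h1
  linarith

theorem not_H_of_full {V : Set (ℝ × ℝ)} {d : ℝ × ℝ → ℝ × ℝ → ℝ} {v : ℝ × ℝ} (hv : v ≠ 0)
    (h : ∀ t : ℝ, t • v ∈ V) : ¬ ConclH V d := by
  rintro ⟨c, β₁, β₂, γ₁, γ₂, γ₃, -, -, -, h4, -⟩
  have h5 := h4 v hv
  have h6 := gauge_nonpos_of_full h
  have h7 : gauge V (-v) ≤ 0 := gauge_nonpos_of_full (fun t => by
    have := h (-t)
    rwa [smul_neg, ← neg_smul])
  linarith

/-- TARGET E0. All plane sections through `o` have the same type. -/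
theorem dichotomy {n : ℕ} (hn : 2 ≤ n) (U : Set (EuclideanSpace ℝ (Fin n)))
    (d : EuclideanSpace ℝ (Fin n) → EuclideanSpace ℝ (Fin n) → ℝ) (o : EuclideanSpace ℝ (Fin n))
    (h2 : ∀ p q : EuclideanSpace ℝ (Fin n), Indep p q →
      ConclE {a : ℝ × ℝ | o + a.1 • p + a.2 • q ∈ U}
        (fun a b => d (o + a.1 • p + a.2 • q) (o + b.1 • p + b.2 • q)) ∨
      ConclH {a : ℝ × ℝ | o + a.1 • p + a.2 • q ∈ U}
        (fun a b => d (o + a.1 • p + a.2 • q) (o + b.1 • p + b.2 • q))) :
    (∀ p q : EuclideanSpace ℝ (Fin n), Indep p q →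
      ConclE {a : ℝ × ℝ | o + a.1 • p + a.2 • q ∈ U}
        (fun a b => d (o + a.1 • p + a.2 • q) (o + b.1 • p + b.2 • q))) ∨
    (∀ p q : EuclideanSpace ℝ (Fin n), Indep p q →
      ConclH {a : ℝ × ℝ | o + a.1 • p + a.2 • q ∈ U}
        (fun a b => d (o + a.1 • p + a.2 • q) (o + b.1 • p + b.2 • q))) := by
  have key : ∀ p q : EuclideanSpace ℝ (Fin n), Indep p q → (∀ t : ℝ, o + t • p ∈ U) →
      ConclE {a : ℝ × ℝ | o + a.1 • p + a.2 • q ∈ U}
        (fun a b => d (o + a.1 • p + a.2 • q) (o + b.1 • p + b.2 • q)) := by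
    intro p q hpq hp
    rcases h2 p q hpq with h | h
    · exact h
    · exfalso
      refine not_H_of_full (v := ((1 : ℝ), (0 : ℝ))) ?_ ?_ h
      · intro h0
        have := congrArg Prod.fst h0
        simp at this
      · intro t
        simpa using hp t
  by_cases hE : ∃ p q : EuclideanSpace ℝ (Fin n), Indep p q ∧
      ConclE {a : ℝ × ℝ | o + a.1 • p + a.2 • q ∈ U}
        (fun a b => d (o + a.1 • p + a.2 • q) (o + b.1 • p + b.2 • q))
  · left
    obtain ⟨p, q, hpq, hpE⟩ := hE
    have hp : ∀ t : ℝ, o + t • p ∈ U := by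
      intro t
      have h1 : ((t, 0) : ℝ × ℝ) ∈ {a : ℝ × ℝ | o + a.1 • p + a.2 • q ∈ U} := by
        rw [hpE.1]; trivial
      simpa using h1
    have hp0 : p ≠ 0 := by
      intro h0
      have := (hpq 1 0 (by simp [h0])).1
      norm_num at this
    have hall : ∀ w : EuclideanSpace ℝ (Fin n), ∀ t : ℝ, o + t • w ∈ U := by
      intro w t
      by_cases hw : Indep p w
      · have h1 := (key p w hw hp).1
        have h3 : ((0, t) : ℝ × ℝ) ∈ {a : ℝ × ℝ | o + a.1 • p + a.2 • w ∈ U} := by
          rw [h1]; trivial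
        simpa using h3
      · unfold Indep at hw
        push Not at hw
        obtain ⟨a, b, hab, hne⟩ := hw
        have hb : b ≠ 0 := by
          intro hb
          rw [hb, zero_smul, add_zero] at hab
          rcases smul_eq_zero.1 hab with ha | ha
          · exact hne ha hb
          · exact hp0 ha
        have hw' : w = (-(a / b)) • p := by
          have h1 : b • w = -(a • p) := by
            rw [eq_neg_iff_add_eq_zero, add_comm]; exact hab
          calc w = b⁻¹ • (b • w) := by rw [smul_smul, inv_mul_cancel₀ hb, one_smul]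
            _ = (-(a / b)) • p := by
                rw [h1, smul_neg, smul_smul, neg_smul]
                congr 2
                field_simp
        rw [hw', smul_smul]
        exact hp _
    intro p' q' hpq'
    exact key p' q' hpq' (hall p')
  · right
    intro p q hpq
    rcases h2 p q hpq with h | h
    · exact absurd ⟨p, q, hpq, h⟩ hE
    · exact h

end Pool.Agent.Helper975.Ptol.JE0
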