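import Mathlib
import Pool.Agent.Helper975.Ptol.Header
import Pool.Agent.Helper975.Ptol.JobJ

set_option autoImplicit false

namespace Pool.Agent.Helper975.Ptol.JE1

open Set Filter Topology
open Pool.Agent.Helper975.Ptol.JJ (quad_of_planes lin_of_planes sqrt_form)





theorem exists_indep {n : ℕ} (hn : 2 ≤ n) (u : EuclideanSpace ℝ (Fin n)) (hu : u ≠ 0) :
    ∃ q : EuclideanSpace ℝ (Fin n), Indep u q := by
  obtain ⟨i, hi⟩ : ∃ i, u i ≠ 0 := by
    by_contra h
    push Not at h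
    exact hu (by ext i; simpa using h i)
  obtain ⟨j, hj⟩ : ∃ j : Fin n, j ≠ i := by
    by_cases h0 : i = ⟨0, by omega⟩
    · exact ⟨⟨1, by omega⟩, by rw [h0]; simp⟩
    · exact ⟨⟨0, by omega⟩, fun h => h0 h.symm⟩
  refine ⟨EuclideanSpace.single j 1, ?_⟩
  intro a b hab
  have h1 := congrArg (fun f : EuclideanSpace ℝ (Fin n) => f i) hab
  simp [hj.symm, hi] at h1
  subst h1
  have h2 := congrArg (fun f : EuclideanSpace ℝ (Fin n) => f j) hab
  simp at h2
  exact ⟨rfl, h2⟩

theorem exists_pair {n : ℕ} (hn : 2 ≤ n) (v w : EuclideanSpace ℝ (Fin n)) :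
    ∃ p q : EuclideanSpace ℝ (Fin n), Indep p q ∧ ∃ s t s' t' : ℝ,
      v = s • p + t • q ∧ w = s' • p + t' • q := by
  by_cases h : Indep v w
  · exact ⟨v, w, h, 1, 0, 0, 1, by simp, by simp⟩
  · unfold Indep at h
    push Not at h
    obtain ⟨a, b, hab, hne⟩ := h
    by_cases hv : v = 0
    · by_cases hw : w = 0
      · obtain ⟨q, hq⟩ := exists_indep hn (EuclideanSpace.single ⟨0, by omega⟩ (1 : ℝ)) (by simp)
        exact ⟨_, q, hq, 0, 0, 0, 0, by simp [hv], by simp [hw]⟩
      · obtain ⟨q, hq⟩ := exists_indep hn w hw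
        exact ⟨w, q, hq, 0, 0, 1, 0, by simp [hv], by simp⟩
    · obtain ⟨q, hq⟩ := exists_indep hn v hv
      have hb : b ≠ 0 := by
        intro hb
        subst hb
        simp only [zero_smul, add_zero, smul_eq_zero, hv, or_false] at hab
        exact hne hab rfl
      refine ⟨v, q, hq, 1, 0, -(a / b), 0, by simp, ?_⟩
      have : b • w = -(a • v) := by
        rw [eq_neg_iff_add_eq_zero, add_comm]; exact hab
      have h2 : w = b⁻¹ • (b • w) := by rw [smul_smul, inv_mul_cancel₀ hb, one_smul]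
      rw [h2, this, zero_smul, add_zero, smul_neg, smul_smul, neg_smul]
      congr 2
      field_simp

/-- TARGET E1. -/
theorem final_E {n : ℕ} (hn : 2 ≤ n) (U : Set (EuclideanSpace ℝ (Fin n)))
    (d : EuclideanSpace ℝ (Fin n) → EuclideanSpace ℝ (Fin n) → ℝ) (hPM : PM U d)
    (o : EuclideanSpace ℝ (Fin n)) (ho : o ∈ U)
    (h2 : ∀ p q : EuclideanSpace ℝ (Fin n), Indep p q →
      ConclE {a : ℝ × ℝ | o + a.1 • p + a.2 • q ∈ U}
        (fun a b => d (o + a.1 • p + a.2 • q) (o + b.1 • p + b.2 • q))) :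
    Final U d := by
  have hU : ∀ x, x ∈ U := by
    intro x
    obtain ⟨p, q, hpq, s, t, s', t', hv, -⟩ := exists_pair hn (x - o) 0
    obtain ⟨hu, -⟩ := h2 p q hpq
    have : ((s, t) : ℝ × ℝ) ∈ {a : ℝ × ℝ | o + a.1 • p + a.2 • q ∈ U} := by
      rw [hu]; trivial
    have h3 : o + s • p + t • q ∈ U := this
    have e : o + s • p + t • q = x := by
      rw [add_assoc, ← hv]; abel
    rwa [e] at h3
  have hQ : ∀ p q : EuclideanSpace ℝ (Fin n), Indep p q →
      ∃ a b c : ℝ, (∀ s t : ℝ, d o (o + (s • p + t • q)) ^ 2 = a * s ^ 2 + 2 * b * s * t + c * t ^ 2) ∧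
      ∀ x y : ℝ × ℝ, d (o + x.1 • p + x.2 • q) (o + y.1 • p + y.2 • q) ^ 2 = qf a b c (x - y) := by
    intro p q hpq
    obtain ⟨-, P, Qc, R, -, -, h⟩ := h2 p q hpq
    refine ⟨P, Qc, R, ?_, h⟩
    intro s t
    have := h (0, 0) (s, t)
    simp only [zero_smul, add_zero, qf, Prod.fst_sub, Prod.snd_sub, zero_sub] at this
    rw [← add_assoc, this]; ring
  obtain ⟨B, hB1, hB2⟩ := quad_of_planes hn (fun v => d o (o + v) ^ 2) (fun p q hpq => by
    obtain ⟨a, b, c, h, -⟩ := hQ p q hpq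
    exact ⟨a, b, c, h⟩)
  have hpos : ∀ v, v ≠ 0 → 0 < B v v := by
    intro v hv
    rw [← hB2 v]
    have : d o (o + v) ≠ 0 := by
      intro h
      rw [hPM.eq_zero o ho _ (hU _)] at h
      exact hv (by simpa using h.symm)
    positivity
  obtain ⟨L, hL⟩ := sqrt_form B hB1 hpos
  have dnn : ∀ x y, 0 ≤ d x y := by
    intro x y
    have h1 := hPM.tri x (hU x) y (hU y) x (hU x)
    have h3 := (hPM.eq_zero x (hU x) x (hU x)).mpr rfl
    have h4 := hPM.symm x (hU x) y (hU y)
    linarith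
  have key : ∀ x y, d x y ^ 2 = B (x - y) (x - y) := by
    intro x y
    obtain ⟨p, q, hpq, s, t, s', t', hv, hw⟩ := exists_pair hn (x - o) (y - o)
    obtain ⟨a, b, c, h3, h4⟩ := hQ p q hpq
    have e1 := h4 (s, t) (s', t')
    have ex : o + s • p + t • q = x := by
      rw [add_assoc, ← hv]; abel
    have ey : o + s' • p + t' • q = y := by
      rw [add_assoc, ← hw]; abel
    simp only [ex, ey] at e1
    have e2 : x - y = (s - s') • p + (t - t') • q := by
      have : x - y = (x - o) - (y - o) := by abel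
      rw [this, hv, hw]; module
    rw [← hB2, e1, e2, h3]
    simp only [qf, Prod.fst_sub, Prod.snd_sub]
  left
  refine ⟨fun x => L (x - o), ⟨?_, ?_, ?_⟩, ?_⟩
  · intro x _; trivial
  · intro x _ y _ hxy
    have := L.injective hxy
    exact sub_left_injective this
  · intro z _
    exact ⟨L.symm z + o, hU _, by simp⟩
  · intro x _ y _
    have e1 : dist (L (x - o)) (L (y - o)) = ‖L (x - y)‖ := by
      rw [dist_eq_norm, ← map_sub]; congr 2; abel
    have e2 : ‖L (x - y)‖ ^ 2 = d x y ^ 2 := by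
      rw [key, ← hL, real_inner_self_eq_norm_sq]
    rw [e1]
    exact ((pow_left_inj₀ (norm_nonneg _) (dnn x y) (by norm_num)).mp e2).symm

end Pool.Agent.Helper975.Ptol.JE1
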