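import Mathlib
import Pool.Agent.Helper975.Ptol.Header
import Pool.Agent.Helper975.Ptol.JobJ

set_option autoImplicit false

namespace Pool.Agent.Helper975.Ptol.JE2

open Set Filter Topology
open Pool.Agent.Helper975.Ptol.JJ (quad_of_planes lin_of_planes sqrt_form)






theorem indep_std {n : ℕ} (hn : 2 ≤ n) : ∃ p q : EuclideanSpace ℝ (Fin n), Indep p q := by
  refine ⟨EuclideanSpace.single ⟨0, by omega⟩ 1, EuclideanSpace.single ⟨1, by omega⟩ 1, ?_⟩
  intro a b h
  have h0 := congrArg (fun v : EuclideanSpace ℝ (Fin n) => v ⟨0, by omega⟩) h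
  have h1 := congrArg (fun v : EuclideanSpace ℝ (Fin n) => v ⟨1, by omega⟩) h
  simp at h0 h1
  exact ⟨h0, h1⟩

theorem indep_ne {E : Type*} [NormedAddCommGroup E] [NormedSpace ℝ E] {p q : E} (h : Indep p q) :
    p ≠ 0 ∧ q ≠ 0 := by
  constructor
  · intro hp
    have := (h 1 0 (by rw [hp]; simp)).1
    norm_num at this
  · intro hp
    have := (h 0 1 (by rw [hp]; simp)).2
    norm_num at this

/-- dependent vectors -/
theorem dep_mul {E : Type*} [NormedAddCommGroup E] [NormedSpace ℝ E] {u v : E} (hu : u ≠ 0)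
    (h : ¬ Indep u v) : ∃ t : ℝ, v = t • u := by
  unfold Indep at h
  push Not at h
  obtain ⟨a, b, h1, h2⟩ := h
  by_cases hb : b = 0
  · exfalso
    subst hb
    rw [zero_smul, add_zero] at h1
    rcases smul_eq_zero.mp h1 with h3 | h3
    · exact h2 h3 rfl
    · exact hu h3
  · refine ⟨-(a / b), ?_⟩
    have h3 : b • v = -(a • u) := by
      rw [eq_neg_iff_add_eq_zero, add_comm]; exact h1
    have h4 : v = b⁻¹ • (b • v) := by rw [smul_smul, inv_mul_cancel₀ hb, one_smul]
    rw [h4, h3, smul_neg, smul_smul, neg_smul]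
    congr 2
    field_simp

theorem exists_indep {n : ℕ} (hn : 2 ≤ n) (u : EuclideanSpace ℝ (Fin n)) (hu : u ≠ 0) :
    ∃ q, Indep u q := by
  obtain ⟨p0, q0, h0⟩ := indep_std hn
  by_cases h1 : Indep u p0
  · exact ⟨p0, h1⟩
  by_cases h2 : Indep u q0
  · exact ⟨q0, h2⟩
  exfalso
  obtain ⟨t, ht⟩ := dep_mul hu h1
  obtain ⟨s, hs⟩ := dep_mul hu h2
  have hp := (indep_ne h0).1
  have ht0 : t ≠ 0 := by
    rintro rfl
    rw [zero_smul] at ht
    exact hp ht
  have := (h0 s (-t) (by rw [ht, hs, smul_smul, smul_smul, ← add_smul]; ring_nf; rw [zero_smul])).2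
  exact ht0 (neg_eq_zero.mp this)

theorem common_plane {n : ℕ} (hn : 2 ≤ n) (v w : EuclideanSpace ℝ (Fin n)) :
    ∃ p q, Indep p q ∧ ∃ s t s' t' : ℝ, v = s • p + t • q ∧ w = s' • p + t' • q := by
  by_cases h : Indep v w
  · exact ⟨v, w, h, 1, 0, 0, 1, by simp, by simp⟩
  by_cases hv : v = 0
  · by_cases hw : w = 0
    · obtain ⟨p0, q0, h0⟩ := indep_std hn
      exact ⟨p0, q0, h0, 0, 0, 0, 0, by simp [hv], by simp [hw]⟩
    · obtain ⟨q, hq⟩ := exists_indep hn w hw
      exact ⟨w, q, hq, 0, 0, 1, 0, by simp [hv], by simp⟩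
  · obtain ⟨t, ht⟩ := dep_mul hv h
    obtain ⟨q, hq⟩ := exists_indep hn v hv
    exact ⟨v, q, hq, 1, 0, t, 0, by simp, by rw [zero_smul, add_zero]; exact ht⟩

theorem gauge_plane {n : ℕ} (U : Set (EuclideanSpace ℝ (Fin n))) (o p q : EuclideanSpace ℝ (Fin n))
    (a : ℝ × ℝ) : gauge {a : ℝ × ℝ | o + a.1 • p + a.2 • q ∈ U} a =
      gauge {v | o + v ∈ U} (a.1 • p + a.2 • q) := by
  rw [gauge_def', gauge_def']
  congr 1
  ext r
  simp only [Set.mem_ofPred_eq, Prod.smul_fst, Prod.smul_snd, smul_eq_mul, smul_add, smul_smul, add_assoc]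

/-- TARGET E2. -/
theorem final_H {n : ℕ} (hn : 2 ≤ n) (U : Set (EuclideanSpace ℝ (Fin n)))
    (d : EuclideanSpace ℝ (Fin n) → EuclideanSpace ℝ (Fin n) → ℝ) (hPM : PM U d)
    (o : EuclideanSpace ℝ (Fin n)) (ho : o ∈ U)
    (h2 : ∀ p q : EuclideanSpace ℝ (Fin n), Indep p q →
      ConclH {a : ℝ × ℝ | o + a.1 • p + a.2 • q ∈ U}
        (fun a b => d (o + a.1 • p + a.2 • q) (o + b.1 • p + b.2 • q))) :
    Final U d := by
  set W : Set (EuclideanSpace ℝ (Fin n)) := {v | o + v ∈ U} with hW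
  have hWo : IsOpen W := hPM.isOpen.preimage (continuous_const.add continuous_id)
  have hWc : Convex ℝ W := by
    have : W = (fun v => o + v) ⁻¹' U := rfl
    rw [this]
    exact hPM.convex.translate_preimage_right o
  have h0W : (0 : EuclideanSpace ℝ (Fin n)) ∈ W := by
    show o + 0 ∈ U
    rw [add_zero]; exact ho
  obtain ⟨g, hg⟩ : ∃ g : EuclideanSpace ℝ (Fin n) → ℝ, g = gauge W := ⟨_, rfl⟩
  have gW : ∀ v, v ∈ W ↔ g v < 1 := by
    intro v
    have := setOfPred_gauge_lt_one_eq_self_of_isOpen hWc h0W hWo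
    rw [hg]
    constructor
    · intro hv
      rw [← this] at hv
      exact hv
    · intro hv
      rw [← this]
      exact hv
  have gnn : ∀ v, 0 ≤ g v := by
    intro v; rw [hg]; exact gauge_nonneg v
  have gsm : ∀ (c : ℝ), 0 ≤ c → ∀ x, g (c • x) = c * g x := by
    intro c hc' x
    rw [hg, gauge_smul_of_nonneg hc', smul_eq_mul]
  have g0 : g 0 = 0 := by rw [hg]; exact gauge_zero
  have gpl : ∀ (p q : EuclideanSpace ℝ (Fin n)) (a : ℝ × ℝ),
      gauge {a : ℝ × ℝ | o + a.1 • p + a.2 • q ∈ U} a = g (a.1 • p + a.2 • q) := by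
    intro p q a
    rw [hg]
    exact gauge_plane U o p q a
  -- linear form
  obtain ⟨ℓ, hℓ⟩ := lin_of_planes hn (fun v => (g (-v) - g v) / 2) (by
    intro p q hpq
    obtain ⟨c, b1, b2, g1, g2, g3, hc, e1, e2, e3, e4⟩ := h2 p q hpq
    refine ⟨b1, b2, fun s t => ?_⟩
    have := e1 (s, t)
    rw [gpl, gpl] at this
    simp only [Prod.fst_neg, Prod.snd_neg] at this
    have h3 : (-s) • p + (-t) • q = -(s • p + t • q) := by
      rw [neg_smul, neg_smul, neg_add]
    rw [h3] at this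
    exact this.symm)
  obtain ⟨G, hGs, hG⟩ := quad_of_planes hn (fun v => -(g v * g (-v))) (by
    intro p q hpq
    obtain ⟨c, b1, b2, g1, g2, g3, hc, e1, e2, e3, e4⟩ := h2 p q hpq
    refine ⟨g1, g2, g3, fun s t => ?_⟩
    have := e2 (s, t)
    rw [gpl, gpl] at this
    simp only [Prod.fst_neg, Prod.snd_neg] at this
    have h3 : (-s) • p + (-t) • q = -(s • p + t • q) := by
      rw [neg_smul, neg_smul, neg_add]
    rw [h3] at this
    rw [← this]
    rfl)
  -- values in planes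
  have key : ∀ p q : EuclideanSpace ℝ (Fin n), Indep p q → ∃ c : ℝ, 0 < c ∧
      (∀ s t : ℝ, (s, t) ≠ (0, 0) → 0 < g (s • p + t • q) + g (-(s • p + t • q))) ∧
      ∀ s t s' t' : ℝ, s • p + t • q ∈ W → s' • p + t' • q ∈ W →
        Real.cosh (d (o + (s • p + t • q)) (o + (s' • p + t' • q)) / c) *
          Real.sqrt ((1 + 2 * ℓ (s • p + t • q) + G (s • p + t • q) (s • p + t • q)) *
            (1 + 2 * ℓ (s' • p + t' • q) + G (s' • p + t' • q) (s' • p + t' • q))) =
        1 + ℓ (s • p + t • q) + ℓ (s' • p + t' • q) + G (s • p + t • q) (s' • p + t' • q) := by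
    intro p q hpq
    obtain ⟨c, b1, b2, g1, g2, g3, hc, e1, e2, e3, e4⟩ := h2 p q hpq
    have hl : ∀ s t : ℝ, ℓ (s • p + t • q) = b1 * s + b2 * t := by
      intro s t
      rw [← hℓ]
      have := e1 (s, t)
      rw [gpl, gpl] at this
      simp only [Prod.fst_neg, Prod.snd_neg] at this
      have h3 : (-s) • p + (-t) • q = -(s • p + t • q) := by
        rw [neg_smul, neg_smul, neg_add]
      rw [h3] at this
      exact this.symm
    have hq : ∀ s t : ℝ, G (s • p + t • q) (s • p + t • q) = qf g1 g2 g3 (s, t) := by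
      intro s t
      rw [← hG]
      have := e2 (s, t)
      rw [gpl, gpl] at this
      simp only [Prod.fst_neg, Prod.snd_neg] at this
      have h3 : (-s) • p + (-t) • q = -(s • p + t • q) := by
        rw [neg_smul, neg_smul, neg_add]
      rw [h3] at this
      exact this.symm
    have k1 : G p p = g1 := by
      have := hq 1 0
      simpa [qf] using this
    have k3 : G q q = g3 := by
      have := hq 0 1
      simpa [qf] using this
    have k2 : G p q = g2 := by
      have := hq 1 1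
      simp only [one_smul, map_add, LinearMap.add_apply, qf] at this
      rw [k1, k3, hGs q p] at this
      linarith
    have hb : ∀ s t s' t' : ℝ, G (s • p + t • q) (s' • p + t' • q) = bf g1 g2 g3 (s, t) (s', t') := by
      intro s t s' t'
      simp only [map_add, map_smul, LinearMap.add_apply, LinearMap.smul_apply, smul_eq_mul, bf]
      rw [k1, k3, k2, hGs q p, k2]
      ring
    refine ⟨c, hc, ?_, ?_⟩
    · intro s t hst
      have := e3 (s, t) hst
      rw [gpl, gpl] at this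
      simp only [Prod.fst_neg, Prod.snd_neg] at this
      have h3 : (-s) • p + (-t) • q = -(s • p + t • q) := by
        rw [neg_smul, neg_smul, neg_add]
      rw [h3] at this
      exact this
    · intro s t s' t' hv hw
      have hv' : (s, t) ∈ {a : ℝ × ℝ | o + a.1 • p + a.2 • q ∈ U} := by
        show o + s • p + t • q ∈ U
        rw [add_assoc]; exact hv
      have hw' : (s', t') ∈ {a : ℝ × ℝ | o + a.1 • p + a.2 • q ∈ U} := by
        show o + s' • p + t' • q ∈ U
        rw [add_assoc]; exact hw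
      have := e4 (s, t) hv' (s', t') hw'
      simp only [add_assoc] at this
      rw [hq s t, hq s' t', hb s t s' t', hl s t, hl s' t']
      simp only [add_assoc]
      exact this
  have gsum : ∀ v, v ≠ 0 → 0 < g v + g (-v) := by
    intro v hv
    obtain ⟨q, hq⟩ := exists_indep hn v hv
    obtain ⟨c, hc, k1, k2⟩ := key v q hq
    have := k1 1 0 (by simp)
    simpa using this
  have Aval : ∀ v, 1 + 2 * ℓ v + G v v = (1 - g v) * (1 + g (-v)) := by
    intro v
    rw [← hℓ, ← hG]; ring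
  have Apos : ∀ v, v ∈ W → 0 < 1 + 2 * ℓ v + G v v := by
    intro v hv
    rw [Aval]
    have h3 := (gW v).mp hv
    have h4 := gnn (-v)
    apply mul_pos <;> linarith
  have lpos : ∀ v, v ∈ W → 0 < 1 + ℓ v := by
    intro v hv
    rw [← hℓ]
    have h3 := (gW v).mp hv
    have h4 := gnn (-v)
    show 0 < 1 + (g (-v) - g v) / 2
    linarith
  have hsmall : ∀ v : EuclideanSpace ℝ (Fin n), ∃ ε : ℝ, 0 < ε ∧ ε • v ∈ W := by
    intro v
    have h3 := gnn v
    refine ⟨1 / (g v + 1), by positivity, ?_⟩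
    rw [gW, gsm _ (by positivity)]
    rw [one_div, inv_mul_lt_iff₀ (by positivity)]
    linarith
  have cuniq : ∀ v : EuclideanSpace ℝ (Fin n), v ≠ 0 → v ∈ W → ∀ c c' : ℝ, 0 < c → 0 < c' →
      Real.cosh (d (o + 0) (o + v) / c) *
          Real.sqrt ((1 + 2 * ℓ 0 + G 0 0) * (1 + 2 * ℓ v + G v v)) = 1 + ℓ 0 + ℓ v + G 0 v →
      Real.cosh (d (o + 0) (o + v) / c') *
          Real.sqrt ((1 + 2 * ℓ 0 + G 0 0) * (1 + 2 * ℓ v + G v v)) = 1 + ℓ 0 + ℓ v + G 0 v →
      c = c' := by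
    intro v hv hvW c c' hc hc' e1 e2
    have hs : 0 < Real.sqrt ((1 + 2 * ℓ 0 + G 0 0) * (1 + 2 * ℓ v + G v v)) :=
      Real.sqrt_pos.mpr (mul_pos (Apos 0 h0W) (Apos v hvW))
    have h3 : Real.cosh (d (o + 0) (o + v) / c) = Real.cosh (d (o + 0) (o + v) / c') :=
      mul_right_cancel₀ hs.ne' (e1.trans e2.symm)
    have h4 : |d (o + 0) (o + v) / c| = |d (o + 0) (o + v) / c'| :=
      le_antisymm (Real.cosh_le_cosh.mp h3.le) (Real.cosh_le_cosh.mp h3.ge)
    rw [abs_div, abs_div, abs_of_pos hc, abs_of_pos hc'] at h4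
    have hd : d (o + 0) (o + v) ≠ 0 := by
      intro hd
      have := (hPM.eq_zero (o + 0) h0W (o + v) hvW).mp hd
      exact hv (add_left_cancel this).symm
    have hd' : |d (o + 0) (o + v)| ≠ 0 := abs_ne_zero.mpr hd
    rw [div_eq_div_iff hc.ne' hc'.ne'] at h4
    exact (mul_left_cancel₀ hd' h4).symm
  -- single constant
  obtain ⟨c0, hc0, hF⟩ : ∃ c0 : ℝ, 0 < c0 ∧ ∀ v w, v ∈ W → w ∈ W →
      Real.cosh (d (o + v) (o + w) / c0) *
          Real.sqrt ((1 + 2 * ℓ v + G v v) * (1 + 2 * ℓ w + G w w)) = 1 + ℓ v + ℓ w + G v w := by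
    obtain ⟨p0, q0, h00⟩ := indep_std hn
    obtain ⟨c0, hc0, -, k0⟩ := key p0 q0 h00
    have hp0 := (indep_ne h00).1
    refine ⟨c0, hc0, fun v w hv hw => ?_⟩
    obtain ⟨p, q, hpq, s, t, s', t', hv', hw'⟩ := common_plane hn v w
    obtain ⟨c, hc, -, k⟩ := key p q hpq
    have hp := (indep_ne hpq).1
    have hcc : c = c0 := by
      obtain ⟨ε, hε, hεW⟩ := hsmall p
      have hεp : ε • p ≠ 0 := smul_ne_zero hε.ne' hp
      have a1 := k 0 0 ε 0 (by simpa using h0W) (by simpa using hεW)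
      simp only [zero_smul, add_zero] at a1
      by_cases hdep : Indep p0 p
      · obtain ⟨c1, hc1, -, k1⟩ := key p0 p hdep
        obtain ⟨δ, hδ, hδW⟩ := hsmall p0
        have hδp : δ • p0 ≠ 0 := smul_ne_zero hδ.ne' hp0
        have b1 := k1 0 0 0 ε (by simpa using h0W) (by simpa using hεW)
        have b2 := k1 0 0 δ 0 (by simpa using h0W) (by simpa using hδW)
        have b3 := k0 0 0 δ 0 (by simpa using h0W) (by simpa using hδW)
        simp only [zero_smul, add_zero, zero_add] at b1 b2 b3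
        have r1 : c = c1 := by
          apply cuniq (ε • p) hεp hεW c c1 hc hc1
          · simpa using a1
          · simpa using b1
        have r2 : c1 = c0 := by
          apply cuniq (δ • p0) hδp hδW c1 c0 hc1 hc0
          · simpa using b2
          · simpa using b3
        rw [r1, r2]
      · obtain ⟨x, hx⟩ := dep_mul hp0 hdep
        have b1 := k0 0 0 (ε * x) 0 (by simpa using h0W) (by
          rw [zero_smul, add_zero, mul_smul, ← hx]; exact hεW)
        rw [mul_smul, ← hx] at b1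
        simp only [zero_smul, add_zero, zero_add] at b1
        apply cuniq (ε • p) hεp hεW c c0 hc hc0
        · simpa using a1
        · simpa using b1
    rw [hv'] at hv ⊢
    rw [hw'] at hw ⊢
    rw [← hcc]
    exact k s t s' t' hv hw
  -- the positive definite form
  obtain ⟨P, hP⟩ : ∃ P : EuclideanSpace ℝ (Fin n) →ₗ[ℝ] EuclideanSpace ℝ (Fin n) →ₗ[ℝ] ℝ,
      ∀ u v, P u v = ℓ u * ℓ v - G u v :=
    ⟨(LinearMap.mul ℝ ℝ).compl₁₂ ℓ ℓ - G, fun u v => by simp⟩
  have hPv : ∀ v, P v v = ((g v + g (-v)) / 2) ^ 2 := by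
    intro v
    rw [hP, ← hℓ, ← hG]; ring
  obtain ⟨L, hL⟩ := sqrt_form P (fun u v => by rw [hP, hP, hGs]; ring) (fun v hv => by
    rw [hPv]
    have := gsum v hv
    positivity)
  -- the map
  obtain ⟨f, hf⟩ : ∃ f : EuclideanSpace ℝ (Fin n) → EuclideanSpace ℝ (Fin n),
      ∀ v, f (o + v) = (1 + ℓ v)⁻¹ • L v :=
    ⟨fun x => (1 + ℓ (x - o))⁻¹ • L (x - o), fun v => by simp only [add_sub_cancel_left]⟩
  have hUW : ∀ x, x ∈ U → ∃ v, v ∈ W ∧ x = o + v := by
    intro x hx
    refine ⟨x - o, ?_, by abel⟩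
    show o + (x - o) ∈ U
    have : o + (x - o) = x := by abel
    rw [this]; exact hx
  have hin : ∀ v w, v ∈ W → w ∈ W → 1 - inner ℝ (f (o + v)) (f (o + w)) =
      (1 + ℓ v + ℓ w + G v w) / ((1 + ℓ v) * (1 + ℓ w)) := by
    intro v w hv hw
    have h3 := lpos v hv
    have h4 := lpos w hw
    rw [hf, hf, real_inner_smul_left, real_inner_smul_right, hL, hP]
    field_simp
    ring
  have hnm : ∀ v, v ∈ W → 1 - ‖f (o + v)‖ ^ 2 = (1 + 2 * ℓ v + G v v) / (1 + ℓ v) ^ 2 := by
    intro v hv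
    rw [← real_inner_self_eq_norm_sq, hin v v hv hv]
    have h3 := lpos v hv
    field_simp
    ring
  have hform : ∀ x ∈ U, ∀ y ∈ U, Real.cosh (d x y / c0) =
        (1 - inner ℝ (f x) (f y)) / Real.sqrt ((1 - ‖f x‖ ^ 2) * (1 - ‖f y‖ ^ 2)) := by
    intro x hx y hy
    obtain ⟨v, hv, rfl⟩ := hUW x hx
    obtain ⟨w, hw, rfl⟩ := hUW y hy
    rw [hin v w hv hw, hnm v hv, hnm w hw]
    have h3 := lpos v hv
    have h4 := lpos w hw
    have h5 := mul_pos (Apos v hv) (Apos w hw)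
    have h6 : (1 + 2 * ℓ v + G v v) / (1 + ℓ v) ^ 2 * ((1 + 2 * ℓ w + G w w) / (1 + ℓ w) ^ 2) =
        ((1 + 2 * ℓ v + G v v) * (1 + 2 * ℓ w + G w w)) / ((1 + ℓ v) * (1 + ℓ w)) ^ 2 := by
      field_simp
    rw [h6, Real.sqrt_div h5.le, Real.sqrt_sq (by positivity), ← hF v w hv hw]
    have h7 := Real.sqrt_pos.mpr h5
    field_simp
  right
  refine ⟨c0, hc0, f, ⟨?_, ?_, ?_⟩, hform⟩
  · intro x hx
    obtain ⟨v, hv, rfl⟩ := hUW x hx
    rw [mem_ball_zero_iff]
    have h3 := hnm v hv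
    have h4 : 0 < (1 + 2 * ℓ v + G v v) / (1 + ℓ v) ^ 2 := by
      have := Apos v hv
      have := lpos v hv
      positivity
    rw [← h3] at h4
    by_contra h5
    push Not at h5
    nlinarith [norm_nonneg (f (o + v))]
  · intro x hx y hy hxy
    have h3 := hform x hx y hy
    have h8 : 0 < 1 - ‖f x‖ ^ 2 := by
      obtain ⟨v, hv, rfl⟩ := hUW x hx
      rw [hnm v hv]
      have := Apos v hv
      have := lpos v hv
      positivity
    have h4 : Real.cosh (d x y / c0) = 1 := by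
      rw [h3, ← hxy, real_inner_self_eq_norm_sq, ← pow_two, Real.sqrt_sq h8.le]
      exact div_self h8.ne'
    by_contra hne
    have h5 : d x y ≠ 0 := fun h => hne ((hPM.eq_zero x hx y hy).mp h)
    have h6 : d x y / c0 ≠ 0 := div_ne_zero h5 hc0.ne'
    have := Real.one_lt_cosh.mpr h6
    linarith
  · intro z hz
    rw [mem_ball_zero_iff] at hz
    obtain ⟨w, hw⟩ : ∃ w, L w = z := ⟨L.symm z, L.apply_symm_apply z⟩
    have h3 : P w w < 1 := by
      rw [← hL, hw, real_inner_self_eq_norm_sq]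
      nlinarith [norm_nonneg z]
    rw [hPv] at h3
    have ha := gnn w
    have hb := gnn (-w)
    have h4 : (g w + g (-w)) / 2 < 1 := by nlinarith
    have h5 : ℓ w = (g (-w) - g w) / 2 := (hℓ w).symm
    have h6 : 0 < 1 - ℓ w := by rw [h5]; linarith
    refine ⟨o + (1 - ℓ w)⁻¹ • w, ?_, ?_⟩
    · have : (1 - ℓ w)⁻¹ • w ∈ W := by
        rw [gW, gsm _ (by positivity), inv_mul_lt_iff₀ h6, h5]
        linarith
      exact this
    · rw [hf, map_smul, map_smul, smul_eq_mul, smul_smul, ← hw]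
      have h7 : (1 + (1 - ℓ w)⁻¹ * ℓ w)⁻¹ * (1 - ℓ w)⁻¹ = 1 := by
        have h8 : 1 + (1 - ℓ w)⁻¹ * ℓ w = (1 - ℓ w)⁻¹ := by
          field_simp
          ring
        rw [h8, inv_inv]
        exact mul_inv_cancel₀ h6.ne'
      rw [h7, one_smul]

end Pool.Agent.Helper975.Ptol.JE2
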