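import Mathlib
import Pool.Agent.Helper975.Ptol.Header

set_option autoImplicit false

namespace Pool.Agent.Helper975.Ptol.JF

open Set Filter Topology


theorem v1487_up {V K : Set ℝ} {o : ℝ} (hV : IsOpen V) (ho : o ∈ V) (hK : IsCompact K)
    (hKV : K ⊆ V) (h : ∀ t ∈ V, o ≤ t → t ∈ K) : False := by
  have h1 : IsCompact (K ∩ Ici o) := hK.inter_right isClosed_Ici
  obtain ⟨s, hs, hmax⟩ := h1.exists_isGreatest ⟨o, h o ho le_rfl, Set.mem_Ici.2 le_rfl⟩
  obtain ⟨ε, hε, hb⟩ := Metric.isOpen_iff.1 hV s (hKV hs.1)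
  have h2 : s + ε / 2 ∈ V := hb (by rw [Metric.mem_ball, Real.dist_eq]; rw [abs_of_nonneg] <;> linarith)
  have hos : o ≤ s := hs.2
  have h3 : o ≤ s + ε / 2 := by linarith
  have h4 := hmax ⟨h _ h2 h3, h3⟩
  linarith

theorem v1487_dn {V K : Set ℝ} {o : ℝ} (hV : IsOpen V) (ho : o ∈ V) (hK : IsCompact K)
    (hKV : K ⊆ V) (h : ∀ t ∈ V, t ≤ o → t ∈ K) : False := by
  have h1 : IsCompact (K ∩ Iic o) := hK.inter_right isClosed_Iic
  obtain ⟨s, hs, hmin⟩ := h1.exists_isLeast ⟨o, h o ho le_rfl, Set.mem_Iic.2 le_rfl⟩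
  obtain ⟨ε, hε, hb⟩ := Metric.isOpen_iff.1 hV s (hKV hs.1)
  have h2 : s - ε / 2 ∈ V := hb (by
    rw [Metric.mem_ball, Real.dist_eq]; rw [abs_of_nonpos] <;> linarith)
  have hos : s ≤ o := hs.2
  have h3 : s - ε / 2 ≤ o := by linarith
  have h4 := hmin ⟨h _ h2 h3, h3⟩
  linarith

theorem v1487_nonneg {E : Type*} [NormedAddCommGroup E] [NormedSpace ℝ E] {U : Set E}
    {d : E → E → ℝ} (h : PM U d) {x y : E} (hx : x ∈ U) (hy : y ∈ U) : 0 ≤ d x y := by
  have h1 := h.tri x hx y hy x hx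
  have h2 := (h.eq_zero x hx x hx).2 rfl
  have h3 := h.symm x hx y hy
  linarith

theorem v1487_line (U : Set (EuclideanSpace ℝ (Fin 1))) (hne : U.Nonempty)
    (d : EuclideanSpace ℝ (Fin 1) → EuclideanSpace ℝ (Fin 1) → ℝ) (h : PM U d) :
    ∃ f : EuclideanSpace ℝ (Fin 1) → EuclideanSpace ℝ (Fin 1),
      Set.BijOn f U Set.univ ∧ ∀ x ∈ U, ∀ y ∈ U, d x y = dist (f x) (f y) := by
  classical
  let φ : ℝ → EuclideanSpace ℝ (Fin 1) := fun t => WithLp.toLp 2 (fun _ => t)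
  have hφc : Continuous φ := by
    show Continuous (fun t : ℝ => (WithLp.toLp 2 (fun _ => t) : EuclideanSpace ℝ (Fin 1)))
    fun_prop
  have hφ0 : ∀ t, φ t 0 = t := fun t => rfl
  have hφe : ∀ x : EuclideanSpace ℝ (Fin 1), φ (x 0) = x := by
    intro x
    ext i
    rw [Subsingleton.elim i 0]
  have hφd : ∀ s t, dist (φ s) (φ t) = |s - t| := by
    intro s t
    rw [EuclideanSpace.dist_eq]
    simp [hφ0, Real.dist_eq, Real.sqrt_sq_eq_abs]
  have hc : Continuous fun x : EuclideanSpace ℝ (Fin 1) => x 0 := by fun_prop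
  let V : Set ℝ := φ ⁻¹' U
  have hVo : IsOpen V := h.isOpen.preimage hφc
  have hUV : ∀ x ∈ U, x 0 ∈ V := by
    intro x hx
    show φ (x 0) ∈ U
    rw [hφe]
    exact hx
  have hseg : ∀ s t u : ℝ, s ≤ t → t ≤ u → φ t ∈ segment ℝ (φ s) (φ u) := by
    intro s t u h1 h2
    have h3 : t ∈ segment ℝ s u := by
      rw [segment_eq_Icc (h1.trans h2)]
      exact ⟨h1, h2⟩
    obtain ⟨a, b, ha, hb, hab, he⟩ := h3
    refine ⟨a, b, ha, hb, hab, ?_⟩
    ext i
    rw [Subsingleton.elim i 0]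
    show a * s + b * u = t
    simpa [smul_eq_mul] using he
  have hVconv : Convex ℝ V := by
    intro s hs t ht a b ha hb hab
    show φ (a • s + b • t) ∈ U
    have : φ (a • s + b • t) = a • φ s + b • φ t := by
      ext i
      rfl
    rw [this]
    exact h.convex hs ht ha hb hab
  obtain ⟨x0, hx0⟩ := hne
  let o : ℝ := x0 0
  have ho : o ∈ V := hUV x0 hx0
  let D : ℝ → ℝ → ℝ := fun s t => d (φ s) (φ t)
  have hDn : ∀ s ∈ V, ∀ t ∈ V, 0 ≤ D s t := fun s hs t ht => v1487_nonneg h hs ht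
  have hDs : ∀ s ∈ V, ∀ t ∈ V, D s t = D t s := fun s hs t ht => h.symm _ hs _ ht
  have hDa : ∀ s ∈ V, ∀ t ∈ V, ∀ u ∈ V, s ≤ t → t ≤ u → D s t + D t u = D s u :=
    fun s hs t ht u hu h1 h2 => (h.seg _ hs _ ht _ hu).2 (hseg s t u h1 h2)
  let g : ℝ → ℝ := fun t => if o ≤ t then D o t else -D o t
  have hg1 : ∀ s ∈ V, ∀ t ∈ V, s ≤ t → g t - g s = D s t := by
    intro s hs t ht hst
    show (if o ≤ t then D o t else -D o t) - (if o ≤ s then D o s else -D o s) = D s t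
    by_cases h1 : o ≤ s
    · rw [if_pos h1, if_pos (h1.trans hst)]
      linarith [hDa o ho s hs t ht h1 hst]
    · push Not at h1
      rw [if_neg (not_le.2 h1)]
      by_cases h2 : o ≤ t
      · rw [if_pos h2]
        linarith [hDa s hs o ho t ht h1.le h2, hDs s hs o ho]
      · push Not at h2
        rw [if_neg (not_le.2 h2)]
        linarith [hDa s hs t ht o ho hst h2.le, hDs s hs o ho, hDs t ht o ho]
  have hg2 : ∀ s ∈ V, ∀ t ∈ V, |g s - g t| = D s t := by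
    intro s hs t ht
    rcases le_total s t with h1 | h1
    · rw [abs_sub_comm, hg1 s hs t ht h1, abs_of_nonneg (hDn s hs t ht)]
    · rw [hg1 t ht s hs h1, abs_of_nonneg (hDn t ht s hs), hDs t ht s hs]
  have hgc : ContinuousOn g V := by
    intro s hs
    rw [ContinuousWithinAt, tendsto_iff_dist_tendsto_zero]
    have h1 : ContinuousOn (fun t : ℝ => d (φ t) (φ s)) V := by
      have h2 : ContinuousOn (fun t : ℝ => (φ t, φ s)) V := by fun_prop
      exact h.cont.comp h2 (fun t ht => ⟨ht, hs⟩)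
    have h2 : Tendsto (fun t : ℝ => d (φ t) (φ s)) (𝓝[V] s) (𝓝 (d (φ s) (φ s))) := h1 s hs
    rw [(h.eq_zero _ hs _ hs).2 rfl] at h2
    refine h2.congr' ?_
    filter_upwards [self_mem_nhdsWithin] with t ht
    rw [Real.dist_eq, hg2 t ht s hs]
  have hK : ∀ r : ℝ, IsCompact ((fun x : EuclideanSpace ℝ (Fin 1) => x 0) ''
      {y | y ∈ U ∧ d (φ o) y ≤ r}) := fun r => (h.cpt (φ o) ho r).image hc
  have hKV : ∀ r : ℝ, ((fun x : EuclideanSpace ℝ (Fin 1) => x 0) ''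
      {y | y ∈ U ∧ d (φ o) y ≤ r}) ⊆ V := by
    rintro r _ ⟨y, hy, rfl⟩
    exact hUV y hy.1
  have hup : ∀ r : ℝ, ∃ t ∈ V, r < g t := by
    intro r
    by_contra hcon
    push Not at hcon
    refine v1487_up hVo ho (hK r) (hKV r) ?_
    intro t ht hot
    refine ⟨φ t, ⟨ht, ?_⟩, hφ0 t⟩
    have h1 := hcon t ht
    have h2 : g t = D o t := if_pos hot
    rw [h2] at h1
    exact h1
  have hdn : ∀ r : ℝ, ∃ t ∈ V, g t < r := by
    intro r
    by_contra hcon
    push Not at hcon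
    refine v1487_dn hVo ho (hK (-r)) (hKV (-r)) ?_
    intro t ht hot
    refine ⟨φ t, ⟨ht, ?_⟩, hφ0 t⟩
    have h1 := hcon t ht
    have h2 : g t = -D o t := by
      rcases hot.lt_or_eq with h3 | h3
      · exact if_neg (not_le.2 h3)
      · have h4 : D o o = 0 := (h.eq_zero _ ho _ ho).2 rfl
        have h5 : g t = D o t := if_pos h3.symm.le
        rw [h5, h3, h4, neg_zero]
    rw [h2] at h1
    show D o t ≤ -r
    linarith
  have hsurj : ∀ r : ℝ, ∃ t ∈ V, g t = r := by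
    intro r
    obtain ⟨a, ha, ha2⟩ := hdn r
    obtain ⟨b, hb, hb2⟩ := hup r
    have h1 : IsPreconnected (g '' V) := hVconv.isPreconnected.image g hgc
    exact h1.Icc_subset (mem_image_of_mem g ha) (mem_image_of_mem g hb) ⟨ha2.le, hb2.le⟩
  have hfd : ∀ x ∈ U, ∀ y ∈ U, d x y = dist (φ (g (x 0))) (φ (g (y 0))) := by
    intro x hx y hy
    rw [hφd, hg2 _ (hUV x hx) _ (hUV y hy)]
    show d x y = d (φ (x 0)) (φ (y 0))
    rw [hφe, hφe]
  refine ⟨fun x => φ (g (x 0)), ⟨fun _ _ => mem_univ _, ?_, ?_⟩, hfd⟩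
  · intro x hx y hy hxy
    have h1 := hfd x hx y hy
    have h2 : φ (g (x 0)) = φ (g (y 0)) := hxy
    rw [h2, dist_self] at h1
    exact (h.eq_zero x hx y hy).1 h1
  · intro y _
    obtain ⟨t, ht, hty⟩ := hsurj (y 0)
    refine ⟨φ t, ht, ?_⟩
    show φ (g (φ t 0)) = y
    rw [hφ0, hty, hφe]

/-- TARGET F. Dimensions 0 and 1. -/
theorem small_dim {n : ℕ} (hn : n ≤ 1) (U : Set (EuclideanSpace ℝ (Fin n))) (hne : U.Nonempty)
    (d : EuclideanSpace ℝ (Fin n) → EuclideanSpace ℝ (Fin n) → ℝ) (h : PM U d) :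
    Final U d := by
  left
  interval_cases n
  · obtain ⟨x0, hx0⟩ := hne
    refine ⟨id, ⟨fun _ _ => mem_univ _, Function.injective_id.injOn, ?_⟩, ?_⟩
    · intro y _
      refine ⟨y, ?_, rfl⟩
      rw [Subsingleton.elim y x0]
      exact hx0
    · intro x hx y hy
      rw [Subsingleton.elim x y, dist_self]
      exact (h.eq_zero y hy y hy).2 rfl
  · exact v1487_line U hne d h

end Pool.Agent.Helper975.Ptol.JF
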