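import Mathlib
import Pool.Agent.Helper975.Ptol.Header

set_option autoImplicit false

namespace Pool.Agent.Helper975.Ptol.JG

open Set Filter Topology


noncomputable def Gpsi (D a : ℝ) : ℝ := a / Real.sqrt (a ^ 2 + D)

theorem Gpsi_deriv (D : ℝ) (hD : 0 < D) (a : ℝ) :
    HasDerivAt (fun a => Gpsi D a) (D / (Real.sqrt (a ^ 2 + D)) ^ 3) a := by
  have h0 : 0 < a ^ 2 + D := by positivity
  have hs : 0 < Real.sqrt (a ^ 2 + D) := Real.sqrt_pos.2 h0
  have h1 : HasDerivAt (fun a : ℝ => a ^ 2 + D) (2 * a) a := by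
    have := (hasDerivAt_pow 2 a).add_const D
    simpa using this
  have h2 := h1.sqrt h0.ne'
  have h3 := (hasDerivAt_id a).div h2 hs.ne'
  refine h3.congr_deriv ?_
  have hsq : Real.sqrt (a ^ 2 + D) ^ 2 = a ^ 2 + D := Real.sq_sqrt h0.le
  simp only [id]
  rw [div_eq_div_iff (by positivity) (by positivity)]
  have h4 : a * (2 * a / (2 * Real.sqrt (a ^ 2 + D))) = a ^ 2 / Real.sqrt (a ^ 2 + D) := by
    field_simp
  rw [h4]
  have h5 : 1 * Real.sqrt (a ^ 2 + D) - a ^ 2 / Real.sqrt (a ^ 2 + D) = D / Real.sqrt (a ^ 2 + D) := by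
    rw [one_mul, eq_div_iff hs.ne', sub_mul, div_mul_cancel₀ _ hs.ne', ← pow_two, hsq]
    ring
  rw [h5]
  field_simp

theorem Gpsi_strictMono (D : ℝ) (hD : 0 < D) : StrictMono (Gpsi D) := by
  apply strictMono_of_deriv_pos
  intro a
  rw [(Gpsi_deriv D hD a).deriv]
  positivity

theorem G_dbound (D : ℝ) (hD : 0 < D) (a : ℝ) :
    D / (Real.sqrt (a ^ 2 + D)) ^ 3 ≤ 1 / Real.sqrt D := by
  have h0 : 0 < a ^ 2 + D := by positivity
  have hs : 0 < Real.sqrt (a ^ 2 + D) := Real.sqrt_pos.2 h0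
  have hsD : 0 < Real.sqrt D := Real.sqrt_pos.2 hD
  have hle : Real.sqrt D ≤ Real.sqrt (a ^ 2 + D) := Real.sqrt_le_sqrt (by nlinarith [sq_nonneg a])
  rw [div_le_div_iff₀ (by positivity) hsD]
  have h1 : Real.sqrt D ^ 3 = D * Real.sqrt D := by
    have : Real.sqrt D ^ 2 = D := Real.sq_sqrt hD.le
    rw [pow_succ, this]
  rw [← h1, one_mul]
  exact pow_le_pow_left₀ hsD.le hle 3

theorem Gpsi_lip (D : ℝ) (hD : 0 < D) (a b : ℝ) :
    ‖Gpsi D b - Gpsi D a‖ ≤ (1 / Real.sqrt D) * ‖b - a‖ := by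
  apply Convex.norm_image_sub_le_of_norm_hasDerivWithin_le (s := Set.univ)
    (f' := fun a => D / (Real.sqrt (a ^ 2 + D)) ^ 3)
  · intro x _
    exact (Gpsi_deriv D hD x).hasDerivWithinAt
  · intro x _
    rw [Real.norm_of_nonneg (by positivity)]
    exact G_dbound D hD x
  · exact convex_univ
  · trivial
  · trivial

theorem Gpsi_contOn {s : Set ℝ} {a D : ℝ → ℝ} (ha : ContinuousOn a s) (hD : ContinuousOn D s)
    (hDp : ∀ x ∈ s, 0 < D x) : ContinuousOn (fun x => Gpsi (D x) (a x)) s := by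
  unfold Gpsi
  apply ContinuousOn.div ha
  · exact Real.continuous_sqrt.comp_continuousOn ((ha.pow 2).add hD)
  · intro x hx
    have : 0 < a x ^ 2 + D x := by have := hDp x hx; positivity
    exact (Real.sqrt_pos.2 this).ne'

/-- first variation of the integral -/
theorem G_tendsto_param (L : ℝ) (hL : 0 < L) (a D : ℝ → ℝ) (ha : ContinuousOn a (Icc 0 L))
    (hD : ContinuousOn D (Icc 0 L)) (hDp : ∀ s ∈ Icc 0 L, 0 < D s) :
    Tendsto (fun t : ℝ => ((∫ s in (0:ℝ)..L, Gpsi (D s) (a s + t)) - ∫ s in (0:ℝ)..L, Gpsi (D s) (a s)) / t)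
      (𝓝[>] 0) (𝓝 (∫ s in (0:ℝ)..L, D s / (Real.sqrt (a s ^ 2 + D s)) ^ 3)) := by
  have huI : uIcc 0 L = Icc 0 L := uIcc_of_le hL.le
  have hint : ∀ t : ℝ, IntervalIntegrable (fun s => Gpsi (D s) (a s + t)) MeasureTheory.volume 0 L := by
    intro t
    apply ContinuousOn.intervalIntegrable
    rw [huI]
    exact Gpsi_contOn (ha.add continuousOn_const) hD hDp
  have heq : (fun t : ℝ => ((∫ s in (0:ℝ)..L, Gpsi (D s) (a s + t)) - ∫ s in (0:ℝ)..L, Gpsi (D s) (a s)) / t) =
      fun t : ℝ => ∫ s in (0:ℝ)..L, (Gpsi (D s) (a s + t) - Gpsi (D s) (a s)) / t := by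
    ext t
    rw [intervalIntegral.integral_div, intervalIntegral.integral_sub (hint t) (by simpa using hint 0)]
  rw [heq]
  apply intervalIntegral.tendsto_integral_filter_of_dominated_convergence
    (bound := fun s => 1 / Real.sqrt (D s))
  · filter_upwards with t
    apply ContinuousOn.aestronglyMeasurable _ measurableSet_uIoc
    have : ContinuousOn (fun s => (Gpsi (D s) (a s + t) - Gpsi (D s) (a s)) / t) (Icc 0 L) := by
      apply ContinuousOn.div_const
      exact (Gpsi_contOn (ha.add continuousOn_const) hD hDp).sub (Gpsi_contOn ha hD hDp)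
    apply this.mono
    rw [uIoc_of_le hL.le]
    exact Ioc_subset_Icc_self
  · filter_upwards [self_mem_nhdsWithin] with t ht
    filter_upwards with s hs
    rw [uIoc_of_le hL.le] at hs
    have hs' := Ioc_subset_Icc_self hs
    have h1 := Gpsi_lip (D s) (hDp s hs') (a s) (a s + t)
    have ht' : (0:ℝ) < t := ht
    rw [norm_div, Real.norm_of_nonneg ht'.le, div_le_iff₀ ht']
    simpa [abs_of_pos ht'] using h1
  · apply ContinuousOn.intervalIntegrable
    rw [huI]
    apply ContinuousOn.div continuousOn_const (Real.continuous_sqrt.comp_continuousOn hD)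
    intro s hs
    exact (Real.sqrt_pos.2 (hDp s hs)).ne'
  · filter_upwards with s hs
    rw [uIoc_of_le hL.le] at hs
    have hs' := Ioc_subset_Icc_self hs
    have h1 := Gpsi_deriv (D s) (hDp s hs') (a s)
    have h2 := h1.tendsto_slope_zero_right
    refine h2.congr ?_
    intro t
    simp [div_eq_inv_mul]

/-- continuity of the parametric integral -/
theorem G_cont_param (L : ℝ) (hL : 0 < L) (z1 q m : ℝ → ℝ) (c : ℝ) (hz : ContinuousOn z1 (Icc 0 L))
    (hq : ContinuousOn q (Icc 0 L)) (hm : ContinuousOn m (Icc 0 L)) (hmp : ∀ s ∈ Icc 0 L, 0 < m s)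
    (x : ℝ × ℝ) (hx : x.2 < c) :
    ContinuousAt (fun x : ℝ × ℝ => ∫ s in (0:ℝ)..L, (m s * (x.2 - c) ^ 2) /
      (Real.sqrt ((x.1 - z1 s + q s * (x.2 - c)) ^ 2 + m s * (x.2 - c) ^ 2)) ^ 3) x := by
  have huI : uIcc 0 L = Icc 0 L := uIcc_of_le hL.le
  have hpos : ∀ y : ℝ × ℝ, y.2 < c → ∀ s ∈ Icc 0 L, 0 < m s * (y.2 - c) ^ 2 := by
    intro y hy s hs
    have h1 : y.2 - c ≠ 0 := by linarith [sub_neg.2 hy] |> ne_of_lt |> fun h => h
    have := hmp s hs
    positivity
  apply intervalIntegral.continuousAt_of_dominated_interval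
    (bound := fun s => 2 / (Real.sqrt (m s) * (c - x.2)))
  · have hev : ∀ᶠ y : ℝ × ℝ in 𝓝 x, y.2 < c :=
      (continuous_snd.tendsto x).eventually (gt_mem_nhds hx)
    filter_upwards [hev] with y hy
    apply ContinuousOn.aestronglyMeasurable _ measurableSet_uIoc
    have : ContinuousOn (fun s => (m s * (y.2 - c) ^ 2) /
      (Real.sqrt ((y.1 - z1 s + q s * (y.2 - c)) ^ 2 + m s * (y.2 - c) ^ 2)) ^ 3) (Icc 0 L) := by
      apply ContinuousOn.div (by fun_prop)
      · apply ContinuousOn.pow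
        apply Real.continuous_sqrt.comp_continuousOn
        fun_prop
      · intro s hs
        have := hpos y hy s hs
        have h2 : 0 < (y.1 - z1 s + q s * (y.2 - c)) ^ 2 + m s * (y.2 - c) ^ 2 := by positivity
        have := Real.sqrt_pos.2 h2
        positivity
    apply this.mono
    rw [uIoc_of_le hL.le]
    exact Ioc_subset_Icc_self
  · have hev : ∀ᶠ y : ℝ × ℝ in 𝓝 x, y.2 < (x.2 + c) / 2 :=
      (continuous_snd.tendsto x).eventually (gt_mem_nhds (by linarith))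
    filter_upwards [hev] with y hy
    filter_upwards with s hs
    rw [uIoc_of_le hL.le] at hs
    have hs' := Ioc_subset_Icc_self hs
    have hyc : y.2 < c := by linarith
    have h1 := hpos y hyc s hs'
    rw [Real.norm_of_nonneg (by positivity)]
    refine (G_dbound _ h1 _).trans ?_
    have hms := hmp s hs'
    rw [Real.sqrt_mul hms.le, Real.sqrt_sq_eq_abs, abs_of_neg (by linarith)]
    have h3 := Real.sqrt_pos.2 hms
    rw [div_le_div_iff₀ (mul_pos h3 (by linarith)) (mul_pos h3 (by linarith))]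
    nlinarith
  · apply ContinuousOn.intervalIntegrable
    rw [huI]
    apply ContinuousOn.div continuousOn_const
    · exact (Real.continuous_sqrt.comp_continuousOn hm).mul continuousOn_const
    · intro s hs
      have h3 := Real.sqrt_pos.2 (hmp s hs)
      exact (mul_pos h3 (by linarith)).ne'
  · filter_upwards with s hs
    rw [uIoc_of_le hL.le] at hs
    have hs' := Ioc_subset_Icc_self hs
    have h1 := hpos x hx s hs'
    apply ContinuousAt.div (by fun_prop)
    · apply ContinuousAt.pow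
      apply Real.continuous_sqrt.continuousAt.comp
      fun_prop
    · have h2 : 0 < (x.1 - z1 s + q s * (x.2 - c)) ^ 2 + m s * (x.2 - c) ^ 2 := by positivity
      have := Real.sqrt_pos.2 h2
      positivity

theorem G_pos_param (L : ℝ) (hL : 0 < L) (a D : ℝ → ℝ) (ha : ContinuousOn a (Icc 0 L))
    (hD : ContinuousOn D (Icc 0 L)) (hDp : ∀ s ∈ Icc 0 L, 0 < D s) :
    0 < ∫ s in (0:ℝ)..L, D s / (Real.sqrt (a s ^ 2 + D s)) ^ 3 := by
  have huI : uIcc 0 L = Icc 0 L := uIcc_of_le hL.le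
  apply intervalIntegral.intervalIntegral_pos_of_pos_on
  · apply ContinuousOn.intervalIntegrable
    rw [huI]
    apply ContinuousOn.div hD
    · apply ContinuousOn.pow
      exact Real.continuous_sqrt.comp_continuousOn ((ha.pow 2).add hD)
    · intro s hs
      have := hDp s hs
      have h2 : 0 < a s ^ 2 + D s := by positivity
      have := Real.sqrt_pos.2 h2
      positivity
  · intro s hs
    have := hDp s (Ioo_subset_Icc_self hs)
    have h2 : 0 < a s ^ 2 + D s := by positivity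
    have := Real.sqrt_pos.2 h2
    positivity
  · exact hL

theorem _root_.Pool.Agent.Helper975.Ptol.PM.G_nonneg {E : Type*} [NormedAddCommGroup E] [NormedSpace ℝ E] {U : Set E} {d : E → E → ℝ}
    (h : PM U d) {x y : E} (hx : x ∈ U) (hy : y ∈ U) : 0 ≤ d x y := by
  have h1 := h.tri x hx y hy x hx
  have h2 := (h.eq_zero x hx x hx).2 rfl
  have h3 := h.symm x hx y hy
  linarith

theorem _root_.Pool.Agent.Helper975.Ptol.PM.G_pos {E : Type*} [NormedAddCommGroup E] [NormedSpace ℝ E] {U : Set E} {d : E → E → ℝ}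
    (h : PM U d) {x y : E} (hx : x ∈ U) (hy : y ∈ U) (hne : x ≠ y) : 0 < d x y :=
  lt_of_le_of_ne (h.G_nonneg hx hy) (fun h0 => hne ((h.eq_zero x hx y hy).1 h0.symm))

/-- reparametrization by arclength of a curve `P` on `[0,η]` with additive strictly positive
lengths -/
theorem G_repar (η : ℝ) (hη : 0 < η) (D : ℝ → ℝ → ℝ) (hc : ContinuousOn (D 0) (Icc 0 η))
    (h0 : D 0 0 = 0)
    (hadd : ∀ s s', 0 ≤ s → s ≤ s' → s' ≤ η → D 0 s + D s s' = D 0 s')
    (hpos : ∀ s s', 0 ≤ s → s < s' → s' ≤ η → 0 < D s s') :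
    ∃ (L : ℝ) (Z : ℝ → ℝ), 0 < L ∧ Continuous Z ∧ StrictMono Z ∧ Z 0 = 0 ∧ Z L = η ∧
      ∀ s s', 0 ≤ s → s ≤ s' → s' ≤ L → D (Z s) (Z s') = s' - s := by
  set cl : ℝ → ℝ := fun s => (projIcc 0 η hη.le s : ℝ) with hcl
  have hclm : ∀ s, cl s ∈ Icc 0 η := fun s => (projIcc 0 η hη.le s).2
  have hclc : Continuous cl := by
    exact continuous_subtype_val.comp continuous_projIcc
  have hclmono : Monotone cl := fun a b hab => monotone_projIcc hη.le hab
  have hclid : ∀ s ∈ Icc 0 η, cl s = s := by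
    intro s hs
    simp [hcl, projIcc_of_mem hη.le hs]
  have hmaxmin : ∀ s, cl s = max 0 (min η s) := by
    intro s
    simp [hcl, projIcc]
  set f : ℝ → ℝ := fun s => D 0 (cl s) + (s - cl s) with hf
  have hD0mono : ∀ s s', 0 ≤ s → s ≤ s' → s' ≤ η → D 0 s ≤ D 0 s' := by
    intro s s' h1 h2 h3
    rcases h2.eq_or_lt with h | h
    · rw [h]
    · have := hadd s s' h1 h2 h3
      have := hpos s s' h1 h h3
      linarith
  have hD0nonneg : ∀ s ∈ Icc 0 η, 0 ≤ D 0 s := by
    intro s hs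
    have := hD0mono 0 s le_rfl hs.1 hs.2
    linarith
  have hfc : Continuous f := by
    have : Continuous (fun s => D 0 (cl s)) := hc.comp_continuous hclc hclm
    exact this.add (continuous_id.sub hclc)
  have hlip : ∀ s s', s ≤ s' → cl s' - cl s ≤ s' - s := by
    intro s s' h
    rw [hmaxmin, hmaxmin]
    rcases le_total η s with h1 | h1 <;> rcases le_total η s' with h2 | h2 <;>
    rcases le_total 0 s with h3 | h3 <;> rcases le_total 0 s' with h4 | h4 <;>
    simp [h1, h2, h3, h4, hη.le] <;> linarith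
  have hfm : StrictMono f := by
    intro s s' h
    have h1 := hclmono h.le
    have h2 := hlip s s' h.le
    rcases h1.eq_or_lt with h3 | h3
    · simp only [hf]
      rw [← h3]; linarith
    · have h4 := hadd (cl s) (cl s') (hclm s).1 h1 (hclm s').2
      have h5 := hpos (cl s) (cl s') (hclm s).1 h3 (hclm s').2
      simp only [hf]
      linarith
  have hsurj : Function.Surjective f := by
    apply hfc.surjective
    · apply tendsto_atTop_mono (f := fun s => s - η)
      · intro s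
        have := hD0nonneg _ (hclm s)
        have := (hclm s).2
        simp only [hf]; linarith
      · exact tendsto_atTop_add_const_right _ _ tendsto_id
    · apply tendsto_atBot_mono (f := fun s => s + D 0 η)
      · intro s
        have h1 := hD0mono (cl s) η (hclm s).1 (hclm s).2 le_rfl
        have := (hclm s).1
        simp only [hf]; linarith
      · exact tendsto_atBot_add_const_right _ _ tendsto_id
  let e : ℝ ≃o ℝ := StrictMono.orderIsoOfSurjective f hfm hsurj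
  have hef : ∀ s, e s = f s := fun s => rfl
  have hf0 : f 0 = 0 := by
    simp only [hf]
    rw [hclid 0 ⟨le_rfl, hη.le⟩, h0]; ring
  have hfη : f η = D 0 η := by
    simp only [hf]
    rw [hclid η ⟨hη.le, le_rfl⟩]; ring
  have hL : 0 < D 0 η := hpos 0 η le_rfl hη le_rfl
  have hZ0 : e.symm 0 = 0 := by
    rw [OrderIso.symm_apply_eq, hef, hf0]
  have hZL : e.symm (D 0 η) = η := by
    rw [OrderIso.symm_apply_eq, hef, hfη]
  refine ⟨D 0 η, e.symm, hL, e.symm.continuous, e.symm.strictMono, hZ0, hZL, ?_⟩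
  intro s s' h1 h2 h3
  have k1 : 0 ≤ e.symm s := by rw [← hZ0]; exact e.symm.monotone h1
  have k2 : e.symm s ≤ e.symm s' := e.symm.monotone h2
  have k3 : e.symm s' ≤ η := by rw [← hZL]; exact e.symm.monotone h3
  have k4 := hadd _ _ k1 k2 k3
  have k5 : ∀ s, 0 ≤ e.symm s → e.symm s ≤ η → D 0 (e.symm s) = s := by
    intro s h1 h2
    have : f (e.symm s) = s := e.apply_symm_apply s
    simp only [hf] at this
    rw [hclid _ ⟨h1, h2⟩] at this
    linarith
  rw [k5 s k1 (k2.trans k3), k5 s' (k1.trans k2) k3] at k4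
  linarith

theorem G_bf_e (q r : ℝ) (u : ℝ × ℝ) : bf 1 q r u ((1, 0) : ℝ × ℝ) = u.1 + q * u.2 := by
  simp [bf]

theorem G_qf_e (q r : ℝ) : qf 1 q r ((1, 0) : ℝ × ℝ) = 1 := by
  simp [qf]

theorem G_bfqf (q r : ℝ) (u : ℝ × ℝ) :
    bf 1 q r u ((1, 0) : ℝ × ℝ) / Real.sqrt (qf 1 q r u * qf 1 q r ((1, 0) : ℝ × ℝ)) =
      Gpsi ((r - q ^ 2) * u.2 ^ 2) (u.1 + q * u.2) := by
  rw [G_bf_e, G_qf_e, mul_one]
  unfold Gpsi qf
  congr 2
  ring

theorem G_local_arclength (U : Set (ℝ × ℝ)) (d : ℝ × ℝ → ℝ × ℝ → ℝ) (hPM : PM U d) (q r : ℝ × ℝ → ℝ)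
    (hqc : ContinuousOn q U) (hrc : ContinuousOn r U) (hdet : ∀ x ∈ U, 0 < r x - q x ^ 2)
    (hC : ∀ x ∈ U, ∀ y ∈ U, y ≠ x → ∀ v : ℝ × ℝ, v ≠ 0 →
      Tendsto (fun t : ℝ => (d (x + t • v) y - d x y) / d x (x + t • v)) (𝓝[>] 0)
        (𝓝 (-(bf 1 (q x) (r x) (y - x) v /
          Real.sqrt (qf 1 (q x) (r x) (y - x) * qf 1 (q x) (r x) v)))))
    (x0 : ℝ × ℝ) (hx0 : x0 ∈ U) :
    ∃ N ∈ 𝓝 x0, N ⊆ U ∧ ∃ φ : ℝ × ℝ → ℝ, ContinuousAt φ x0 ∧ ∀ x ∈ N, 0 < φ x ∧
      Tendsto (fun t : ℝ => d x (x + t • ((1, 0) : ℝ × ℝ)) / t) (𝓝[>] 0) (𝓝 (φ x)) := by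
  obtain ⟨η, hη, hball⟩ : ∃ η > 0, Metric.closedBall x0 η ⊆ U :=
    Metric.nhds_basis_closedBall.mem_iff.1 (hPM.isOpen.mem_nhds hx0)
  set c : ℝ := x0.2 + η with hc
  set P : ℝ → ℝ × ℝ := fun s => (x0.1 + s, c) with hP
  have hPU : ∀ s ∈ Icc 0 η, P s ∈ U := by
    intro s hs
    apply hball
    rw [Metric.mem_closedBall, Prod.dist_eq]
    simp only [hP, hc]
    apply max_le
    · rw [Real.dist_eq]; simp [abs_of_nonneg hs.1, hs.2]
    · rw [Real.dist_eq]; simp [abs_of_pos hη]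
  have hPc : Continuous P := by simp only [hP]; fun_prop
  have hadd0 : ∀ s s' s'', 0 ≤ s → s ≤ s' → s' ≤ s'' → s'' ≤ η →
      d (P s) (P s') + d (P s') (P s'') = d (P s) (P s'') := by
    intro s s' s'' h1 h2 h3 h4
    rw [hPM.seg _ (hPU s ⟨h1, by linarith⟩) _ (hPU s' ⟨by linarith, by linarith⟩) _
      (hPU s'' ⟨by linarith, by linarith⟩)]
    rcases (h2.trans h3).eq_or_lt with h | h
    · have : s' = s := by linarith
      rw [this]; exact left_mem_segment ℝ _ _
    · rw [segment_eq_image]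
      have hne : s'' - s ≠ 0 := by linarith [sub_pos.2 h] |> ne_of_gt |> fun h => h
      refine ⟨(s' - s) / (s'' - s), ⟨by apply div_nonneg <;> linarith, ?_⟩, ?_⟩
      · rw [div_le_one (by linarith)]; linarith
      · simp only [hP]
        ext
        · simp only [Prod.fst_add, Prod.smul_fst, smul_eq_mul]
          field_simp
          ring
        · simp only [Prod.snd_add, Prod.smul_snd, smul_eq_mul]
          ring
  obtain ⟨L, Z, hL, hZc, hZm, hZ0, hZL, hZd⟩ := G_repar η hη (fun s s' => d (P s) (P s'))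
    (by
      have := hPM.cont
      have h2 : ContinuousOn (fun s : ℝ => (P 0, P s)) (Icc 0 η) := by fun_prop
      exact this.comp h2 (fun s hs => ⟨hPU 0 ⟨le_rfl, hη.le⟩, hPU s hs⟩))
    ((hPM.eq_zero _ (hPU 0 ⟨le_rfl, hη.le⟩) _ (hPU 0 ⟨le_rfl, hη.le⟩)).2 rfl)
    (fun s s' h1 h2 h3 => hadd0 0 s s' le_rfl h1 h2 h3)
    (fun s s' h1 h2 h3 => hPM.G_pos (hPU s ⟨h1, by linarith⟩) (hPU s' ⟨by linarith, h3⟩) (by
      intro h
      have := congrArg Prod.fst h
      simp only [hP] at this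
      linarith))
  have hZI : ∀ s ∈ Icc 0 L, Z s ∈ Icc 0 η := by
    intro s hs
    constructor
    · rw [← hZ0]; exact hZm.monotone hs.1
    · rw [← hZL]; exact hZm.monotone hs.2
  have hPZc : Continuous (fun s => P (Z s)) := hPc.comp hZc
  have hqZ : ContinuousOn (fun s => q (P (Z s))) (Icc 0 L) :=
    hqc.comp hPZc.continuousOn (fun s hs => hPU _ (hZI s hs))
  have hrZ : ContinuousOn (fun s => r (P (Z s))) (Icc 0 L) :=
    hrc.comp hPZc.continuousOn (fun s hs => hPU _ (hZI s hs))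
  have hmZ : ContinuousOn (fun s => r (P (Z s)) - q (P (Z s)) ^ 2) (Icc 0 L) :=
    hrZ.sub (hqZ.pow 2)
  have hmp : ∀ s ∈ Icc 0 L, 0 < r (P (Z s)) - q (P (Z s)) ^ 2 :=
    fun s hs => hdet _ (hPU _ (hZI s hs))
  set aa : ℝ × ℝ → ℝ → ℝ := fun x s => x.1 - (x0.1 + Z s) + q (P (Z s)) * (x.2 - c) with haa
  set DD : ℝ × ℝ → ℝ → ℝ := fun x s => (r (P (Z s)) - q (P (Z s)) ^ 2) * (x.2 - c) ^ 2 with hDD
  have haac : ∀ x, ContinuousOn (aa x) (Icc 0 L) := by
    intro x
    simp only [haa]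
    exact (continuousOn_const.sub (continuousOn_const.add hZc.continuousOn)).add
      (hqZ.mul continuousOn_const)
  have hDDc : ∀ x, ContinuousOn (DD x) (Icc 0 L) := by
    intro x
    simp only [hDD]
    exact hmZ.mul continuousOn_const
  have hDDp : ∀ x : ℝ × ℝ, x.2 < c → ∀ s ∈ Icc 0 L, 0 < DD x s := by
    intro x hx s hs
    have h1 : x.2 - c ≠ 0 := by linarith [sub_neg.2 hx] |> ne_of_lt |> fun h => h
    have := hmp s hs
    simp only [hDD]
    positivity
  have hFTC : ∀ x ∈ U, x.2 < c → d x (P η) - d x (P 0) = - ∫ s in (0:ℝ)..L, Gpsi (DD x s) (aa x s) := by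
    intro x hx hxc
    have hcont : ContinuousOn (fun s => d x (P (Z s))) (Icc 0 L) := by
      have := hPM.cont
      have h2 : ContinuousOn (fun s : ℝ => (x, P (Z s))) (Icc 0 L) := by fun_prop
      exact this.comp h2 (fun s hs => ⟨hx, hPU _ (hZI s hs)⟩)
    have hder : ∀ s ∈ Ioo 0 L, HasDerivWithinAt (fun s => d x (P (Z s))) (-Gpsi (DD x s) (aa x s)) (Ioi s) s := by
      intro s hs
      rw [hasDerivWithinAt_iff_tendsto_slope' (self_notMem_Ioi)]
      have hsI : s ∈ Icc 0 L := Ioo_subset_Icc_self hs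
      have h1 := hC (P (Z s)) (hPU _ (hZI s hsI)) x hx (by
        intro h
        have := congrArg Prod.snd h
        simp only [hP] at this
        linarith) ((1, 0) : ℝ × ℝ) (by simp)
      rw [G_bfqf] at h1
      have h2 : Tendsto (fun s' => Z s' - Z s) (𝓝[>] s) (𝓝[>] 0) := by
        apply tendsto_nhdsWithin_iff.2 ⟨?_, ?_⟩
        · have : Tendsto (fun s' => Z s' - Z s) (𝓝 s) (𝓝 (Z s - Z s)) :=
            (hZc.tendsto s).sub_const _
          rw [sub_self] at this
          exact this.mono_left nhdsWithin_le_nhds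
        · filter_upwards [self_mem_nhdsWithin] with s' hs'
          exact sub_pos.2 (hZm hs')
      have h3 := h1.comp h2
      have h4 : (r (P (Z s)) - q (P (Z s)) ^ 2) * (x - P (Z s)).2 ^ 2 = DD x s := by
        simp [hDD, hP]
      have h5 : (x - P (Z s)).1 + q (P (Z s)) * (x - P (Z s)).2 = aa x s := by
        simp [haa, hP]
      rw [h4, h5] at h3
      refine h3.congr' ?_
      have hIoo : Ioo s L ∈ 𝓝[>] s := Ioo_mem_nhdsGT hs.2
      filter_upwards [hIoo] with s' hs'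
      simp only [Function.comp_apply]
      have h6 : P (Z s) + (Z s' - Z s) • ((1, 0) : ℝ × ℝ) = P (Z s') := by
        simp only [hP]
        ext
        · simp
        · simp
      rw [h6, hZd s s' hs.1.le hs'.1.le hs'.2.le]
      have hs'I : s' ∈ Icc 0 L := ⟨by linarith [hs.1, hs'.1], hs'.2.le⟩
      rw [hPM.symm _ (hPU _ (hZI s' hs'I)) x hx, hPM.symm _ (hPU _ (hZI s hsI)) x hx,
        slope_def_field]
    have hint : IntervalIntegrable (fun s => -Gpsi (DD x s) (aa x s)) MeasureTheory.volume 0 L := by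
      apply ContinuousOn.intervalIntegrable
      rw [uIcc_of_le hL.le]
      exact (Gpsi_contOn (haac x) (hDDc x) (hDDp x hxc)).neg
    have := intervalIntegral.integral_eq_sub_of_hasDeriv_right_of_le hL.le hcont hder hint
    rw [intervalIntegral.integral_neg] at this
    simp only [hZL, hZ0] at this
    exact this.symm
  set B : ℝ × ℝ → ℝ := fun x => ∫ s in (0:ℝ)..L, DD x s / (Real.sqrt (aa x s ^ 2 + DD x s)) ^ 3 with hB
  have hBpos : ∀ x : ℝ × ℝ, x.2 < c → 0 < B x := fun x hx =>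
    G_pos_param L hL _ _ (haac x) (hDDc x) (hDDp x hx)
  have hBc : ContinuousAt B x0 := by
    have := G_cont_param L hL (fun s => x0.1 + Z s) (fun s => q (P (Z s)))
      (fun s => r (P (Z s)) - q (P (Z s)) ^ 2) c (by fun_prop) hqZ hmZ hmp x0 (by linarith)
    exact this
  set A : ℝ × ℝ → ℝ := fun x =>
    Gpsi ((r x - q x ^ 2) * (c - x.2) ^ 2) ((x0.1 + η - x.1) + q x * (c - x.2)) -
    Gpsi ((r x - q x ^ 2) * (c - x.2) ^ 2) ((x0.1 + 0 - x.1) + q x * (c - x.2)) with hA
  have hDx : ∀ x ∈ U, x.2 < c → 0 < (r x - q x ^ 2) * (c - x.2) ^ 2 := by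
    intro x hx hxc
    have h1 : c - x.2 ≠ 0 := by linarith [sub_pos.2 hxc] |> ne_of_gt |> fun h => h
    have := hdet x hx
    positivity
  have hApos : ∀ x ∈ U, x.2 < c → 0 < A x := by
    intro x hx hxc
    simp only [hA]
    apply sub_pos.2
    apply Gpsi_strictMono _ (hDx x hx hxc)
    linarith
  have hqx0 : ContinuousAt q x0 := hqc.continuousAt (hPM.isOpen.mem_nhds hx0)
  have hrx0 : ContinuousAt r x0 := hrc.continuousAt (hPM.isOpen.mem_nhds hx0)
  have hAc : ContinuousAt A x0 := by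
    have h1 := hDx x0 hx0 (by linarith)
    simp only [hA, Gpsi]
    apply ContinuousAt.sub
    · apply ContinuousAt.div (by fun_prop)
      · apply Real.continuous_sqrt.continuousAt.comp
        fun_prop
      · apply ne_of_gt
        apply Real.sqrt_pos.2
        positivity
    · apply ContinuousAt.div (by fun_prop)
      · apply Real.continuous_sqrt.continuousAt.comp
        fun_prop
      · apply ne_of_gt
        apply Real.sqrt_pos.2
        positivity
  have hlimA : ∀ x ∈ U, x.2 < c → Tendsto (fun t : ℝ =>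
      ((d (x + t • ((1, 0) : ℝ × ℝ)) (P η) - d (x + t • ((1, 0) : ℝ × ℝ)) (P 0)) -
        (d x (P η) - d x (P 0))) / d x (x + t • ((1, 0) : ℝ × ℝ))) (𝓝[>] 0) (𝓝 (-A x)) := by
    intro x hx hxc
    have hne : ∀ s, P s ≠ x := by
      intro s h
      have := congrArg Prod.snd h
      simp only [hP] at this
      linarith
    have h1 := hC x hx (P η) (hPU η ⟨hη.le, le_rfl⟩) (hne η) ((1, 0) : ℝ × ℝ) (by simp)
    have h2 := hC x hx (P 0) (hPU 0 ⟨le_rfl, hη.le⟩) (hne 0) ((1, 0) : ℝ × ℝ) (by simp)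
    rw [G_bfqf] at h1 h2
    have h3 := h1.sub h2
    have h4 : -Gpsi ((r x - q x ^ 2) * (P η - x).2 ^ 2) ((P η - x).1 + q x * (P η - x).2) -
        -Gpsi ((r x - q x ^ 2) * (P 0 - x).2 ^ 2) ((P 0 - x).1 + q x * (P 0 - x).2) = -A x := by
      simp only [hA, hP, Prod.snd_sub, Prod.fst_sub]
      ring
    rw [h4] at h3
    refine h3.congr ?_
    intro t
    ring
  have hlimB : ∀ x ∈ U, x.2 < c → Tendsto (fun t : ℝ =>
      ((d (x + t • ((1, 0) : ℝ × ℝ)) (P η) - d (x + t • ((1, 0) : ℝ × ℝ)) (P 0)) -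
        (d x (P η) - d x (P 0))) / t) (𝓝[>] 0) (𝓝 (-B x)) := by
    intro x hx hxc
    have h1 := (G_tendsto_param L hL _ _ (haac x) (hDDc x) (hDDp x hxc)).neg
    refine h1.congr' ?_
    have hU : ∀ᶠ t : ℝ in 𝓝[>] 0, x + t • ((1, 0) : ℝ × ℝ) ∈ U := by
      have : Tendsto (fun t : ℝ => x + t • ((1, 0) : ℝ × ℝ)) (𝓝 0) (𝓝 x) := by
        have h : Continuous (fun t : ℝ => x + t • ((1, 0) : ℝ × ℝ)) := by fun_prop
        simpa using h.tendsto 0
      exact (this.mono_left nhdsWithin_le_nhds).eventually (hPM.isOpen.mem_nhds hx)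
    filter_upwards [hU] with t ht
    have hx2 : (x + t • ((1, 0) : ℝ × ℝ)).2 = x.2 := by simp
    rw [hFTC x hx hxc, hFTC _ ht (by rw [hx2]; exact hxc)]
    have e1 : ∀ s, DD (x + t • ((1, 0) : ℝ × ℝ)) s = DD x s := by
      intro s; simp only [hDD, hx2]
    have e2 : ∀ s, aa (x + t • ((1, 0) : ℝ × ℝ)) s = aa x s + t := by
      intro s; simp only [haa, hx2]
      simp
      ring
    simp only [e1, e2]
    ring
  refine ⟨Metric.ball x0 η, Metric.ball_mem_nhds x0 hη, Metric.ball_subset_closedBall.trans hball,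
    fun x => B x / A x, hBc.div hAc (hApos x0 hx0 (by linarith)).ne', ?_⟩
  intro x hx
  have hxU : x ∈ U := hball (Metric.ball_subset_closedBall hx)
  have hxc : x.2 < c := by
    rw [Metric.mem_ball, Prod.dist_eq] at hx
    have := (le_max_right _ _).trans_lt hx
    rw [Real.dist_eq] at this
    have := (abs_lt.1 this).2
    linarith
  have hAx := hApos x hxU hxc
  have hBx := hBpos x hxc
  refine ⟨div_pos hBx hAx, ?_⟩
  have h1 := (hlimB x hxU hxc).div (hlimA x hxU hxc) (by linarith [neg_neg_of_pos hAx] |> ne_of_lt |> fun h => h)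
  rw [neg_div_neg_eq] at h1
  refine h1.congr' ?_
  have hU : ∀ᶠ t : ℝ in 𝓝[>] 0, x + t • ((1, 0) : ℝ × ℝ) ∈ U := by
    have : Tendsto (fun t : ℝ => x + t • ((1, 0) : ℝ × ℝ)) (𝓝 0) (𝓝 x) := by
      have h : Continuous (fun t : ℝ => x + t • ((1, 0) : ℝ × ℝ)) := by fun_prop
      simpa using h.tendsto 0
    exact (this.mono_left nhdsWithin_le_nhds).eventually (hPM.isOpen.mem_nhds hxU)
  have hneg : ∀ᶠ t : ℝ in 𝓝[>] 0, ((d (x + t • ((1, 0) : ℝ × ℝ)) (P η) - d (x + t • ((1, 0) : ℝ × ℝ)) (P 0)) -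
        (d x (P η) - d x (P 0))) / d x (x + t • ((1, 0) : ℝ × ℝ)) < 0 :=
    (hlimA x hxU hxc).eventually (gt_mem_nhds (by linarith))
  filter_upwards [hU, hneg, self_mem_nhdsWithin] with t ht hn ht0
  have ht0' : (0:ℝ) < t := ht0
  have hdpos : 0 < d x (x + t • ((1, 0) : ℝ × ℝ)) := by
    apply hPM.G_pos hxU ht
    intro h
    have := congrArg Prod.fst h
    simp at this
    try linarith
  have hnum : ((d (x + t • ((1, 0) : ℝ × ℝ)) (P η) - d (x + t • ((1, 0) : ℝ × ℝ)) (P 0)) -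
        (d x (P η) - d x (P 0))) ≠ 0 := by
    intro h
    rw [h, zero_div] at hn
    exact lt_irrefl _ hn
  simp only [Pi.div_apply]
  exact div_div_div_cancel_left' _ _ hnum

/-- TARGET G. Arclength in the direction `(1,0)` is continuously differentiable. -/
theorem arclength (U : Set (ℝ × ℝ)) (d : ℝ × ℝ → ℝ × ℝ → ℝ) (hPM : PM U d) (q r : ℝ × ℝ → ℝ)
    (hqc : ContinuousOn q U) (hrc : ContinuousOn r U) (hdet : ∀ x ∈ U, 0 < r x - q x ^ 2)
    (hC : ∀ x ∈ U, ∀ y ∈ U, y ≠ x → ∀ v : ℝ × ℝ, v ≠ 0 →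
      Tendsto (fun t : ℝ => (d (x + t • v) y - d x y) / d x (x + t • v)) (𝓝[>] 0)
        (𝓝 (-(bf 1 (q x) (r x) (y - x) v /
          Real.sqrt (qf 1 (q x) (r x) (y - x) * qf 1 (q x) (r x) v))))) :
    ∃ φ : ℝ × ℝ → ℝ, ContinuousOn φ U ∧ ∀ x ∈ U, 0 < φ x ∧
      Tendsto (fun t : ℝ => d x (x + t • ((1, 0) : ℝ × ℝ)) / t) (𝓝[>] 0) (𝓝 (φ x)) := by
  classical
  have hloc := G_local_arclength U d hPM q r hqc hrc hdet hC
  have hex : ∀ x ∈ U, ∃ l : ℝ, 0 < l ∧
      Tendsto (fun t : ℝ => d x (x + t • ((1, 0) : ℝ × ℝ)) / t) (𝓝[>] 0) (𝓝 l) := by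
    intro x hx
    obtain ⟨N, hN, _, φ, _, h⟩ := hloc x hx
    exact ⟨φ x, (h x (mem_of_mem_nhds hN)).1, (h x (mem_of_mem_nhds hN)).2⟩
  refine ⟨fun x => if h : x ∈ U then (hex x h).choose else 0, ?_, ?_⟩
  · intro x0 hx0
    obtain ⟨N, hN, hNU, φ, hφ, h⟩ := hloc x0 hx0
    apply ContinuousAt.continuousWithinAt
    apply hφ.congr
    filter_upwards [hN] with x hx
    have hxU := hNU hx
    simp only [hxU, dif_pos]
    exact tendsto_nhds_unique (h x hx).2 (hex x hxU).choose_spec.2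
  · intro x hx
    simp only [hx, dif_pos]
    exact (hex x hx).choose_spec

end Pool.Agent.Helper975.Ptol.JG
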