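import Mathlib
import Pool.Agent.Helper975.Ptol.Header

set_option autoImplicit false

namespace Pool.Agent.Helper975.Ptol.JH

open Set Filter Topology



theorem qf_pos' {q r : ℝ} (h : 0 < r - q ^ 2) {v : ℝ × ℝ} (hv : v ≠ 0) : 0 < qf 1 q r v := by
  have e : qf 1 q r v = (v.1 + q * v.2) ^ 2 + (r - q ^ 2) * v.2 ^ 2 := by unfold qf; ring
  rw [e]
  by_cases h2 : v.2 = 0
  · have h1 : v.1 ≠ 0 := by
      intro h1; exact hv (Prod.ext h1 h2)
    rw [h2]
    have : 0 < v.1 ^ 2 := by positivity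
    nlinarith
  · have : 0 < v.2 ^ 2 := by positivity
    have := mul_pos h this
    nlinarith [sq_nonneg (v.1 + q * v.2)]

theorem qf_scale (f q r : ℝ) (v : ℝ × ℝ) :
    qf (f ^ 2) (f ^ 2 * q) (f ^ 2 * r) v = f ^ 2 * qf 1 q r v := by unfold qf; ring

theorem sqrt_qf_scale {f : ℝ} (hf : 0 < f) (q r : ℝ) (v : ℝ × ℝ) :
    Real.sqrt (qf (f ^ 2) (f ^ 2 * q) (f ^ 2 * r) v) = f * Real.sqrt (qf 1 q r v) := by
  rw [qf_scale, Real.sqrt_mul (by positivity), Real.sqrt_sq hf.le]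

theorem bf_scale (f q r : ℝ) (u v : ℝ × ℝ) :
    bf (f ^ 2) (f ^ 2 * q) (f ^ 2 * r) u v = f ^ 2 * bf 1 q r u v := by unfold bf; ring

theorem mem_ev {U : Set (ℝ × ℝ)} (hU : IsOpen U) {x : ℝ × ℝ} (hx : x ∈ U) (v : ℝ × ℝ) :
    ∀ᶠ t : ℝ in 𝓝 0, x + t • v ∈ U := by
  have hc : Continuous (fun t : ℝ => x + t • v) := by fun_prop
  have : (fun t : ℝ => x + t • v) ⁻¹' U ∈ 𝓝 (0 : ℝ) := by
    apply (hU.preimage hc).mem_nhds
    simpa using hx
  exact this

theorem dlim (U : Set (ℝ × ℝ)) (d : ℝ × ℝ → ℝ × ℝ → ℝ) (hPM : PM U d)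
    (q r φ : ℝ × ℝ → ℝ)
    (hφ : ∀ x ∈ U,
      Tendsto (fun t : ℝ => d x (x + t • ((1, 0) : ℝ × ℝ)) / t) (𝓝[>] 0) (𝓝 (φ x)))
    (hN : ∀ x ∈ U, ∀ v : ℝ × ℝ,
      Tendsto (fun t : ℝ => d x (x + t • v) / d x (x + t • ((1, 0) : ℝ × ℝ))) (𝓝[>] 0)
        (𝓝 (Real.sqrt (qf 1 (q x) (r x) v)))) (x : ℝ × ℝ) (hx : x ∈ U) (v : ℝ × ℝ) :
    Tendsto (fun t : ℝ => d x (x + t • v) / t) (𝓝[>] 0)
      (𝓝 (Real.sqrt (qf 1 (q x) (r x) v) * φ x)) := by
  refine ((hN x hx v).mul (hφ x hx)).congr' ?_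
  have h1 := (mem_ev hPM.isOpen hx ((1, 0) : ℝ × ℝ)).filter_mono
    (nhdsWithin_le_nhds (s := Ioi (0 : ℝ)))
  filter_upwards [h1, self_mem_nhdsWithin] with t ht ht0
  have hne : d x (x + t • ((1, 0) : ℝ × ℝ)) ≠ 0 := by
    intro h0
    have := (hPM.eq_zero x hx _ ht).1 h0
    have h2 : t • ((1, 0) : ℝ × ℝ) = 0 := by
      have := this.symm
      simpa using this
    have h3 := congrArg Prod.fst h2
    simp at h3
    exact (ne_of_gt ht0) h3
  have ht0' : t ≠ 0 := ne_of_gt ht0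
  field_simp

theorem rderiv (U : Set (ℝ × ℝ)) (d : ℝ × ℝ → ℝ × ℝ → ℝ) (hPM : PM U d)
    (q r φ : ℝ × ℝ → ℝ) (hdet : ∀ x ∈ U, 0 < r x - q x ^ 2)
    (hφ0 : ∀ x ∈ U, 0 < φ x)
    (hφ : ∀ x ∈ U,
      Tendsto (fun t : ℝ => d x (x + t • ((1, 0) : ℝ × ℝ)) / t) (𝓝[>] 0) (𝓝 (φ x)))
    (hN : ∀ x ∈ U, ∀ v : ℝ × ℝ,
      Tendsto (fun t : ℝ => d x (x + t • v) / d x (x + t • ((1, 0) : ℝ × ℝ))) (𝓝[>] 0)
        (𝓝 (Real.sqrt (qf 1 (q x) (r x) v))))
    (hC : ∀ x ∈ U, ∀ y ∈ U, y ≠ x → ∀ v : ℝ × ℝ, v ≠ 0 →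
      Tendsto (fun t : ℝ => (d (x + t • v) y - d x y) / d x (x + t • v)) (𝓝[>] 0)
        (𝓝 (-(bf 1 (q x) (r x) (y - x) v /
          Real.sqrt (qf 1 (q x) (r x) (y - x) * qf 1 (q x) (r x) v)))))
    (x : ℝ × ℝ) (hx : x ∈ U) (y : ℝ × ℝ) (hy : y ∈ U) (hxy : x ≠ y) (v : ℝ × ℝ) (hv : v ≠ 0) :
    Tendsto (fun t : ℝ => (d (x + t • v) y - d x y) / t) (𝓝[>] 0)
        (𝓝 (-(bf (φ x ^ 2) (φ x ^ 2 * q x) (φ x ^ 2 * r x) (y - x) v) /
          Real.sqrt (qf (φ x ^ 2) (φ x ^ 2 * q x) (φ x ^ 2 * r x) (y - x)))) := by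
  have hm := (hC x hx y hy (Ne.symm hxy) v hv).mul (dlim U d hPM q r φ hφ hN x hx v)
  have hval : -(bf 1 (q x) (r x) (y - x) v /
          Real.sqrt (qf 1 (q x) (r x) (y - x) * qf 1 (q x) (r x) v)) *
          (Real.sqrt (qf 1 (q x) (r x) v) * φ x) =
      -(bf (φ x ^ 2) (φ x ^ 2 * q x) (φ x ^ 2 * r x) (y - x) v) /
          Real.sqrt (qf (φ x ^ 2) (φ x ^ 2 * q x) (φ x ^ 2 * r x) (y - x)) := by
    rw [sqrt_qf_scale (hφ0 x hx), bf_scale, Real.sqrt_mul]
    · have h1 := Real.sqrt_pos.2 (qf_pos' (hdet x hx) hv)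
      have h2 := Real.sqrt_pos.2 (qf_pos' (hdet x hx) (sub_ne_zero.2 (Ne.symm hxy)))
      have h3 := hφ0 x hx
      field_simp
    · exact (qf_pos' (hdet x hx) (sub_ne_zero.2 (Ne.symm hxy))).le
  rw [hval] at hm
  refine hm.congr' ?_
  have h1 := (mem_ev hPM.isOpen hx v).filter_mono (nhdsWithin_le_nhds (s := Ioi (0 : ℝ)))
  filter_upwards [h1, self_mem_nhdsWithin] with t ht ht0
  have ht0' : t ≠ 0 := ne_of_gt ht0
  have hne : d x (x + t • v) ≠ 0 := by
    intro h0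
    have := (hPM.eq_zero x hx _ ht).1 h0
    have h2 : t • v = 0 := by
      have := this.symm
      simpa using this
    rcases smul_eq_zero.1 h2 with h3 | h3
    · exact ht0' h3
    · exact hv h3
  field_simp

/-- TARGET H. First variation and length formula. -/
theorem variation (U : Set (ℝ × ℝ)) (d : ℝ × ℝ → ℝ × ℝ → ℝ) (hPM : PM U d)
    (q r φ : ℝ × ℝ → ℝ) (hqc : ContinuousOn q U) (hrc : ContinuousOn r U)
    (hφc : ContinuousOn φ U) (hdet : ∀ x ∈ U, 0 < r x - q x ^ 2) (hφ0 : ∀ x ∈ U, 0 < φ x)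
    (hφ : ∀ x ∈ U,
      Tendsto (fun t : ℝ => d x (x + t • ((1, 0) : ℝ × ℝ)) / t) (𝓝[>] 0) (𝓝 (φ x)))
    (hN : ∀ x ∈ U, ∀ v : ℝ × ℝ,
      Tendsto (fun t : ℝ => d x (x + t • v) / d x (x + t • ((1, 0) : ℝ × ℝ))) (𝓝[>] 0)
        (𝓝 (Real.sqrt (qf 1 (q x) (r x) v))))
    (hC : ∀ x ∈ U, ∀ y ∈ U, y ≠ x → ∀ v : ℝ × ℝ, v ≠ 0 →
      Tendsto (fun t : ℝ => (d (x + t • v) y - d x y) / d x (x + t • v)) (𝓝[>] 0)
        (𝓝 (-(bf 1 (q x) (r x) (y - x) v /
          Real.sqrt (qf 1 (q x) (r x) (y - x) * qf 1 (q x) (r x) v))))) :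
    (∀ x ∈ U, ∀ y ∈ U, x ≠ y → ∀ v : ℝ × ℝ,
      HasDerivAt (fun t : ℝ => d (x + t • v) y)
        (-(bf (φ x ^ 2) (φ x ^ 2 * q x) (φ x ^ 2 * r x) (y - x) v) /
          Real.sqrt (qf (φ x ^ 2) (φ x ^ 2 * q x) (φ x ^ 2 * r x) (y - x))) 0) ∧
    (∀ x ∈ U, ∀ y ∈ U, d x y = ∫ t in (0 : ℝ)..1,
      Real.sqrt (qf (φ (x + t • (y - x)) ^ 2) (φ (x + t • (y - x)) ^ 2 * q (x + t • (y - x)))
        (φ (x + t • (y - x)) ^ 2 * r (x + t • (y - x))) (y - x))) := by
  have hD := dlim U d hPM q r φ hφ hN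
  refine ⟨?_, ?_⟩
  · intro x hx y hy hxy v
    by_cases hv : v = 0
    · subst hv
      have h1 : (fun t : ℝ => d (x + t • (0 : ℝ × ℝ)) y) = fun _ => d x y := by
        funext t; simp
      rw [h1]
      have h2 : bf (φ x ^ 2) (φ x ^ 2 * q x) (φ x ^ 2 * r x) (y - x) 0 = 0 := by simp [bf]
      rw [h2]
      simpa using hasDerivAt_const (0 : ℝ) (d x y)
    · have hr := rderiv U d hPM q r φ hdet hφ0 hφ hN hC x hx y hy hxy v hv
      have hl := rderiv U d hPM q r φ hdet hφ0 hφ hN hC x hx y hy hxy (-v) (neg_ne_zero.2 hv)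
      rw [hasDerivAt_iff_tendsto_slope, ← nhdsLT_sup_nhdsGT]
      refine Tendsto.sup ?_ ?_
      · have hneg : Tendsto (fun t : ℝ => -t) (𝓝[<] 0) (𝓝[>] 0) := by
          have := tendsto_neg_nhdsLT (a := (0 : ℝ))
          simpa using this
        have h3 := (hl.comp hneg).neg
        have hval : -(-(bf (φ x ^ 2) (φ x ^ 2 * q x) (φ x ^ 2 * r x) (y - x) (-v)) /
          Real.sqrt (qf (φ x ^ 2) (φ x ^ 2 * q x) (φ x ^ 2 * r x) (y - x))) =
          -(bf (φ x ^ 2) (φ x ^ 2 * q x) (φ x ^ 2 * r x) (y - x) v) /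
          Real.sqrt (qf (φ x ^ 2) (φ x ^ 2 * q x) (φ x ^ 2 * r x) (y - x)) := by
          have : bf (φ x ^ 2) (φ x ^ 2 * q x) (φ x ^ 2 * r x) (y - x) (-v) =
            - bf (φ x ^ 2) (φ x ^ 2 * q x) (φ x ^ 2 * r x) (y - x) v := by
            simp only [bf, Prod.fst_neg, Prod.snd_neg]; ring
          rw [this]; ring
        rw [hval] at h3
        refine h3.congr' ?_
        filter_upwards [self_mem_nhdsWithin] with t ht
        have ht0 : t ≠ 0 := ne_of_lt ht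
        simp only [Function.comp, slope_def_field, neg_smul, smul_neg, neg_neg, zero_smul, add_zero,
          sub_zero]
        field_simp
      · refine hr.congr' ?_
        filter_upwards [self_mem_nhdsWithin] with t ht
        simp only [slope_def_field, zero_smul, add_zero, sub_zero]
  · intro x hx y hy
    by_cases hxy : x = y
    · subst hxy
      rw [(hPM.eq_zero x hx x hx).2 rfl]
      simp [qf]
    · have hmem : ∀ t ∈ Icc (0 : ℝ) 1, x + t • (y - x) ∈ U := by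
        intro t ht
        exact hPM.convex.add_smul_sub_mem hx hy ht
      have hline : Continuous (fun t : ℝ => x + t • (y - x)) := by fun_prop
      have hcont : ContinuousOn (fun t : ℝ => d x (x + t • (y - x))) (uIcc 0 1) := by
        rw [uIcc_of_le zero_le_one]
        exact hPM.cont.comp (f := fun t : ℝ => (x, x + t • (y - x)))
          ((continuous_const.prodMk hline).continuousOn) (fun t ht => ⟨hx, hmem t ht⟩)
      have hφc' : ContinuousOn (fun t : ℝ => φ (x + t • (y - x))) (Icc 0 1) :=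
        hφc.comp hline.continuousOn hmem
      have hqc' : ContinuousOn (fun t : ℝ => q (x + t • (y - x))) (Icc 0 1) :=
        hqc.comp hline.continuousOn hmem
      have hrc' : ContinuousOn (fun t : ℝ => r (x + t • (y - x))) (Icc 0 1) :=
        hrc.comp hline.continuousOn hmem
      have hFc : ContinuousOn (fun t : ℝ => Real.sqrt (qf (φ (x + t • (y - x)) ^ 2)
        (φ (x + t • (y - x)) ^ 2 * q (x + t • (y - x)))
        (φ (x + t • (y - x)) ^ 2 * r (x + t • (y - x))) (y - x))) (Icc 0 1) := by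
        apply ContinuousOn.sqrt
        unfold qf
        exact (((hφc'.pow 2).mul continuousOn_const).add (((continuousOn_const.mul
          ((hφc'.pow 2).mul hqc')).mul continuousOn_const).mul continuousOn_const)).add
          (((hφc'.pow 2).mul hrc').mul continuousOn_const)
      have key := intervalIntegral.integral_eq_sub_of_hasDeriv_right hcont
        (f' := fun t : ℝ => Real.sqrt (qf (φ (x + t • (y - x)) ^ 2)
        (φ (x + t • (y - x)) ^ 2 * q (x + t • (y - x)))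
        (φ (x + t • (y - x)) ^ 2 * r (x + t • (y - x))) (y - x))) ?_ ?_
      · rw [key]
        simp only [one_smul, zero_smul, add_zero, add_sub_cancel]
        rw [(hPM.eq_zero x hx x hx).2 rfl, sub_zero]
      · intro t ht
        rw [min_eq_left zero_le_one, max_eq_right zero_le_one] at ht
        have htm : t ∈ Icc (0 : ℝ) 1 := ⟨ht.1.le, ht.2.le⟩
        have hz := hmem t htm
        rw [hasDerivWithinAt_iff_tendsto_slope' (by simp)]
        have h1 := hD _ hz (y - x)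
        have hval : Real.sqrt (qf 1 (q (x + t • (y - x))) (r (x + t • (y - x))) (y - x)) *
            φ (x + t • (y - x)) = Real.sqrt (qf (φ (x + t • (y - x)) ^ 2)
            (φ (x + t • (y - x)) ^ 2 * q (x + t • (y - x)))
            (φ (x + t • (y - x)) ^ 2 * r (x + t • (y - x))) (y - x)) := by
          rw [sqrt_qf_scale (hφ0 _ hz), mul_comm]
        rw [hval] at h1
        have hsub : Tendsto (fun s : ℝ => s - t) (𝓝[>] t) (𝓝[>] 0) := by
          rw [tendsto_nhdsWithin_iff]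
          refine ⟨?_, ?_⟩
          · have : Tendsto (fun s : ℝ => s - t) (𝓝 t) (𝓝 (t - t)) :=
              (continuous_id.sub continuous_const).tendsto t
            rw [sub_self] at this
            exact this.mono_left nhdsWithin_le_nhds
          · filter_upwards [self_mem_nhdsWithin] with s hs
            have hs2 : t < s := hs
            exact sub_pos.2 hs2
        refine (h1.comp hsub).congr' ?_
        have hs1 : ∀ᶠ s in 𝓝[>] t, s ∈ Ioo t 1 := Ioo_mem_nhdsGT ht.2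
        filter_upwards [hs1] with s hs
        have hsm : s ∈ Icc (0 : ℝ) 1 := ⟨(ht.1.trans hs.1).le, hs.2.le⟩
        have hs' := hmem s hsm
        have hseg : x + t • (y - x) ∈ segment ℝ x (x + s • (y - x)) := by
          have hs0 : 0 < s := ht.1.trans hs.1
          refine ⟨1 - t / s, t / s, ?_, div_nonneg ht.1.le hs0.le, by ring, ?_⟩
          · rw [sub_nonneg, div_le_one hs0]; exact hs.1.le
          · rw [smul_add, ← add_assoc, ← add_smul, smul_smul, div_mul_cancel₀ _ hs0.ne']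
            simp
        have hd := (hPM.seg x hx _ hz _ hs').2 hseg
        have e1 : x + t • (y - x) + (s - t) • (y - x) = x + s • (y - x) := by
          rw [sub_smul]; abel
        simp only [Function.comp, slope_def_field]
        rw [e1, ← hd, add_sub_cancel_left]
      · apply ContinuousOn.intervalIntegrable
        rw [uIcc_of_le zero_le_one]
        exact hFc

end Pool.Agent.Helper975.Ptol.JH
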