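import Mathlib
import Pool.Agent.Helper975.Ptol.Ratio

set_option autoImplicit false

namespace Pool.Agent.Helper975.Ptol

open Set Filter Topology

variable {E : Type*} [NormedAddCommGroup E] [NormedSpace ℝ E]

theorem Indep.symm' {A B : E} (hAB : Indep A B) : Indep B A := by
  intro a b h0
  have e : b • A + a • B = 0 := by rw [← h0]; module
  obtain ⟨e1, e2⟩ := hAB _ _ e
  exact ⟨e2, e1⟩

theorem Indep.neg_neg' {A B : E} (hAB : Indep A B) : Indep (-A) (-B) := by
  intro a b h0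
  have e : (-a) • A + (-b) • B = 0 := by rw [← h0]; module
  obtain ⟨e1, e2⟩ := hAB _ _ e
  constructor <;> linarith

theorem Indep.sub_ne {A B : E} (hAB : Indep A B) : A - B ≠ 0 := by
  intro h0
  have := hAB 1 (-1) (by rw [← h0]; module)
  exact one_ne_zero this.1

/-- for every direction there is an independent direction -/
def TwoDim (E : Type*) [NormedAddCommGroup E] [NormedSpace ℝ E] : Prop :=
  ∀ A : E, A ≠ 0 → ∃ B : E, Indep A B

namespace PM

variable {U : Set E} {d : E → E → ℝ} (h : PM U d)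
include h

theorem JF_dpos {x : E} (hx : x ∈ U) {A : E} (hA : A ≠ 0) :
    ∀ᶠ p : E × ℝ in JF x, 0 < d p.1 (p.1 + p.2 • A) := by
  filter_upwards [h.JF_mem0 hx, h.JF_mem hx A, JF_pos x] with p h0 h1 h2
  exact h.pos_add h0 hA h2.ne' h1

theorem R_neg {x A B : E} (hx : x ∈ U) (hAB : Indep A B) : R d x (-A) (-B) = R d x A B := by
  have hA0 := hAB.ne_left
  have hB0 := hAB.ne_right
  have hW := hAB.sub_ne
  have e3 : -A - -B = -(A - B) := by abel
  unfold R
  rw [e3, h.C_neg_left hx hB0 (neg_ne_zero.2 hA0), h.C_neg_right hx hB0 hA0,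
    h.C_neg_left hx hW (neg_ne_zero.2 hA0), h.C_neg_right hx hW hA0,
    h.C_neg_left hx hB0 (neg_ne_zero.2 hW), h.C_neg_right hx hB0 hW,
    h.C_neg_left hx hW (neg_ne_zero.2 hB0), h.C_neg_right hx hW hB0]
  simp only [neg_neg]

theorem JF_neBot {x : E} : (JF x).NeBot := by
  have h1 : (𝓝 x).NeBot := inferInstance
  have h2 : (𝓝[>] (0 : ℝ)).NeBot := inferInstance
  exact Filter.prod.instNeBot

theorem R_pos {x A B : E} (hx : x ∈ U) (hAB : Indep A B) : 0 < R d x A B := by
  have h1 := h.ratio hx hAB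
  have h2 := h.ratio hx hAB.symm'
  have h3 := h1.mul h2
  have h4 : Tendsto (fun p : E × ℝ => d p.1 (p.1 + p.2 • B) / d p.1 (p.1 + p.2 • A) *
      (d p.1 (p.1 + p.2 • A) / d p.1 (p.1 + p.2 • B))) (JF x) (𝓝 1) := by
    apply (tendsto_congr' _).2 tendsto_const_nhds
    filter_upwards [h.JF_dpos hx hAB.ne_left, h.JF_dpos hx hAB.ne_right] with p p1 p2
    field_simp
  have := h.JF_neBot (x := x)
  have h5 := tendsto_nhds_unique h3 h4
  have h6 : 0 ≤ R d x A B := by
    apply ge_of_tendsto h1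
    filter_upwards [h.JF_dpos hx hAB.ne_left, h.JF_dpos hx hAB.ne_right] with p p1 p2
    positivity
  rcases eq_or_lt_of_le h6 with h7 | h7
  · rw [← h7] at h5; simp at h5
  · exact h7

/-- Translation lemma, independent case -/
theorem trans_indep {x A W : E} (hx : x ∈ U) (hAW : Indep A W) :
    Tendsto (fun p : E × ℝ => d (p.1 + p.2 • W) (p.1 + p.2 • W + p.2 • A) /
      d p.1 (p.1 + p.2 • A)) (JF x) (𝓝 1) := by
  have hV : Indep (A + W) A := by
    intro a b h0
    have e : (a + b) • A + a • W = 0 := by rw [← h0]; module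
    obtain ⟨e1, e2⟩ := hAW _ _ e
    constructor <;> linarith
  have h1 := (h.ratio hx hV.neg_neg').comp (JF_shift x (A + W))
  have h2 := h.ratio hx hV
  rw [h.R_neg hx hV] at h1
  have hR := h.R_pos hx hV
  have h3 := h1.div h2 hR.ne'
  rw [div_self hR.ne'] at h3
  apply h3.congr'
  filter_upwards [h.JF_mem0 hx, h.JF_mem hx A, h.JF_mem hx (A + W), h.JF_mem hx W,
    h.JF_dpos hx hV.ne_left, h.JF_dpos hx hV.ne_right, JF_pos x] with p h0 p1 p2 p3 p4 p5 p6
  obtain ⟨X, t⟩ := p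
  simp only [Function.comp_apply, Pi.div_apply] at h0 p1 p2 p3 p4 p5 p6 ⊢
  have e1 : X + t • (A + W) + t • (-A) = X + t • W := by module
  have e2 : X + t • (A + W) + t • (-(A + W)) = X := by module
  have e3 : X + t • W + t • A = X + t • (A + W) := by module
  rw [e1, e2, e3, h.symm _ p2 _ p3, h.symm _ p2 _ h0]
  field_simp

/-- Translation lemma -/
theorem trans_gen (hE : TwoDim E) {x A : E} (W : E) (hx : x ∈ U) (hA : A ≠ 0) :
    Tendsto (fun p : E × ℝ => d (p.1 + p.2 • W) (p.1 + p.2 • W + p.2 • A) /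
      d p.1 (p.1 + p.2 • A)) (JF x) (𝓝 1) := by
  by_cases hAW : Indep A W
  · exact h.trans_indep hx hAW
  -- `W = l • A`
  obtain ⟨B, hB⟩ := hE A hA
  have hl : ∃ l : ℝ, W = l • A := by
    unfold Indep at hAW
    push Not at hAW
    obtain ⟨a, b, h0, h1⟩ := hAW
    have hb : b ≠ 0 := by
      intro hb
      rw [hb, zero_smul, add_zero] at h0
      rcases smul_eq_zero.1 h0 with h2 | h2
      · exact h1 h2 hb
      · exact hA h2
    refine ⟨-a / b, ?_⟩
    have : b • W = (-a) • A := by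
      rw [neg_smul, eq_neg_iff_add_eq_zero, add_comm]; exact h0
    rw [neg_div, neg_smul, div_eq_inv_mul, mul_smul]
    rw [neg_smul] at this
    rw [← smul_neg, ← this, smul_smul, inv_mul_cancel₀ hb, one_smul]
  obtain ⟨l, rfl⟩ := hl
  have hB2 : Indep A (l • A - B) := by
    intro a b h0
    have e : (a + b * l) • A + (-b) • B = 0 := by rw [← h0]; module
    obtain ⟨e1, e2⟩ := hB _ _ e
    have hb : b = 0 := by linarith
    rw [hb] at e1
    exact ⟨by linarith, hb⟩
  have h1 := h.trans_indep hx hB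
  have h2 := (h.trans_indep hx hB2).comp (JF_shift x B)
  have h3 := h2.mul h1
  rw [mul_one] at h3
  apply h3.congr'
  filter_upwards [(JF_shift x B).eventually (h.JF_dpos hx hA)] with p p1
  obtain ⟨X, t⟩ := p
  simp only [Function.comp] at p1 ⊢
  have e1 : X + t • B + t • (l • A - B) = X + t • (l • A) := by module
  rw [e1]
  field_simp

/-- existence of the tangent norm -/
theorem exists_norm (hE : TwoDim E) {V0 : E} (hV0 : V0 ≠ 0) (V : E) {x : E} (hx : x ∈ U) :
    ∃ n : ℝ, (V ≠ 0 → 0 < n) ∧ Tendsto (fun p : E × ℝ => d p.1 (p.1 + p.2 • V) /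
      d p.1 (p.1 + p.2 • V0)) (JF x) (𝓝 n) := by
  by_cases hV : V = 0
  · refine ⟨0, fun h0 => absurd hV h0, ?_⟩
    apply (tendsto_congr' _).2 tendsto_const_nhds
    filter_upwards [h.JF_mem0 hx] with p hp
    rw [hV, smul_zero, add_zero, h.self hp, zero_div]
  by_cases hAW : Indep V0 V
  · exact ⟨R d x V0 V, fun _ => h.R_pos hx hAW, h.ratio hx hAW⟩
  obtain ⟨B, hB⟩ := hE V0 hV0
  have hl : ∃ l : ℝ, V = l • V0 := by
    unfold Indep at hAW
    push Not at hAW
    obtain ⟨a, b, h0, h1⟩ := hAW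
    have hb : b ≠ 0 := by
      intro hb
      rw [hb, zero_smul, add_zero] at h0
      rcases smul_eq_zero.1 h0 with h2 | h2
      · exact h1 h2 hb
      · exact hV0 h2
    refine ⟨-a / b, ?_⟩
    have : b • V = (-a) • V0 := by
      rw [neg_smul, eq_neg_iff_add_eq_zero, add_comm]; exact h0
    rw [neg_div, neg_smul, div_eq_inv_mul, mul_smul]
    rw [neg_smul] at this
    rw [← smul_neg, ← this, smul_smul, inv_mul_cancel₀ hb, one_smul]
  obtain ⟨l, rfl⟩ := hl
  have hl0 : l ≠ 0 := by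
    rintro rfl
    exact hV (zero_smul _ _)
  have hB2 : Indep B (l • V0) := by
    intro a b h0
    have e : (b * l) • V0 + a • B = 0 := by rw [← h0]; module
    obtain ⟨e1, e2⟩ := hB _ _ e
    exact ⟨e2, (mul_eq_zero.1 e1).resolve_right hl0⟩
  refine ⟨R d x B (l • V0) * R d x V0 B, fun _ => mul_pos (h.R_pos hx hB2) (h.R_pos hx hB), ?_⟩
  have h3 := (h.ratio hx hB2).mul (h.ratio hx hB)
  apply h3.congr'
  filter_upwards [h.JF_dpos hx hB.ne_right] with p p1
  field_simp

end PM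

/-- tangent norm -/
noncomputable def Nm (d : E → E → ℝ) (V0 x V : E) : ℝ :=
  limUnder (JF x) (fun p : E × ℝ => d p.1 (p.1 + p.2 • V) / d p.1 (p.1 + p.2 • V0))

namespace PM

variable {U : Set E} {d : E → E → ℝ} (h : PM U d)
include h

theorem tendsto_Nm (hE : TwoDim E) {V0 : E} (hV0 : V0 ≠ 0) (V : E) {x : E} (hx : x ∈ U) :
    Tendsto (fun p : E × ℝ => d p.1 (p.1 + p.2 • V) /
      d p.1 (p.1 + p.2 • V0)) (JF x) (𝓝 (Nm d V0 x V)) := by
  obtain ⟨n, -, hn⟩ := h.exists_norm hE hV0 V hx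
  exact tendsto_nhds_limUnder ⟨n, hn⟩

theorem Nm_pos (hE : TwoDim E) {V0 : E} (hV0 : V0 ≠ 0) {V : E} (hV : V ≠ 0) {x : E} (hx : x ∈ U) :
    0 < Nm d V0 x V := by
  obtain ⟨n, hp, hn⟩ := h.exists_norm hE hV0 V hx
  have := h.JF_neBot (x := x)
  rw [tendsto_nhds_unique (h.tendsto_Nm hE hV0 V hx) hn]
  exact hp hV

theorem Nm_zero (hE : TwoDim E) {V0 : E} (hV0 : V0 ≠ 0) {x : E} (hx : x ∈ U) :
    Nm d V0 x 0 = 0 := by
  have := h.JF_neBot (x := x)
  refine tendsto_nhds_unique (h.tendsto_Nm hE hV0 0 hx) ?_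
  apply (tendsto_congr' _).2 tendsto_const_nhds
  filter_upwards [h.JF_mem0 hx] with p hp
  rw [smul_zero, add_zero, h.self hp, zero_div]

theorem Nm_self (hE : TwoDim E) {V0 : E} (hV0 : V0 ≠ 0) {x : E} (hx : x ∈ U) :
    Nm d V0 x V0 = 1 := by
  have := h.JF_neBot (x := x)
  refine tendsto_nhds_unique (h.tendsto_Nm hE hV0 V0 hx) ?_
  apply (tendsto_congr' _).2 tendsto_const_nhds
  filter_upwards [h.JF_dpos hx hV0] with p hp
  rw [div_self hp.ne']

/-- the distance of two nearby points is given by the tangent norm -/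
theorem tendsto_Nm2 (hE : TwoDim E) {V0 : E} (hV0 : V0 ≠ 0) (V W : E) {x : E} (hx : x ∈ U) :
    Tendsto (fun p : E × ℝ => d (p.1 + p.2 • V) (p.1 + p.2 • W) /
      d p.1 (p.1 + p.2 • V0)) (JF x) (𝓝 (Nm d V0 x (W - V))) := by
  by_cases hVW : W - V = 0
  · rw [hVW, h.Nm_zero hE hV0 hx]
    apply (tendsto_congr' _).2 tendsto_const_nhds
    filter_upwards [h.JF_mem hx V] with p hp
    have : W = V := by rwa [sub_eq_zero] at hVW
    rw [this, h.self hp, zero_div]
  · have h1 := (h.trans_gen hE V hx hVW).mul (h.tendsto_Nm hE hV0 (W - V) hx)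
    rw [one_mul] at h1
    apply h1.congr'
    filter_upwards [h.JF_dpos hx hVW] with p p1
    obtain ⟨X, t⟩ := p
    simp only at p1 ⊢
    have e : X + t • V + t • (W - V) = X + t • W := by module
    rw [e]
    field_simp

theorem Nm_neg (hE : TwoDim E) {V0 : E} (hV0 : V0 ≠ 0) (V : E) {x : E} (hx : x ∈ U) :
    Nm d V0 x (-V) = Nm d V0 x V := by
  have := h.JF_neBot (x := x)
  have h1 := h.tendsto_Nm2 hE hV0 V 0 hx
  rw [zero_sub] at h1
  refine tendsto_nhds_unique h1 ?_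
  apply (h.tendsto_Nm hE hV0 V hx).congr'
  filter_upwards [h.JF_mem hx V, h.JF_mem0 hx] with p p1 p2
  rw [smul_zero, add_zero, h.symm _ p1 _ p2]

theorem Nm_add_le (hE : TwoDim E) {V0 : E} (hV0 : V0 ≠ 0) (V W : E) {x : E} (hx : x ∈ U) :
    Nm d V0 x (V + W) ≤ Nm d V0 x V + Nm d V0 x W := by
  have := h.JF_neBot (x := x)
  have h1 := h.tendsto_Nm2 hE hV0 V (V + W) hx
  rw [add_sub_cancel_left] at h1
  have h2 := (h.tendsto_Nm hE hV0 V hx).add h1
  refine le_of_tendsto_of_tendsto (h.tendsto_Nm hE hV0 (V + W) hx) h2 ?_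
  filter_upwards [h.JF_mem hx V, h.JF_mem0 hx, h.JF_mem hx (V + W), h.JF_dpos hx hV0]
    with p p1 p2 p3 p4
  rw [← add_div, div_le_div_iff_of_pos_right p4]
  exact h.tri _ p2 _ p1 _ p3

theorem Nm_ptol (hE : TwoDim E) {V0 : E} (hV0 : V0 ≠ 0) (V W : E) {x : E} (hx : x ∈ U) :
    Nm d V0 x (V + W) * Nm d V0 x (V - W) ≤ Nm d V0 x V ^ 2 + Nm d V0 x W ^ 2 := by
  have := h.JF_neBot (x := x)
  have h1 := h.tendsto_Nm hE hV0 (V + W) hx
  have h2 := h.tendsto_Nm2 hE hV0 W V hx
  have h3 := h.tendsto_Nm hE hV0 V hx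
  have h4 := h.tendsto_Nm2 hE hV0 W (V + W) hx
  rw [add_sub_cancel_right] at h4
  have h5 := h.tendsto_Nm2 hE hV0 V (V + W) hx
  rw [add_sub_cancel_left] at h5
  have h6 := h.tendsto_Nm hE hV0 W hx
  have l1 := h1.mul h2
  have l2 := (h3.mul h4).add (h5.mul h6)
  have l3 := le_of_tendsto_of_tendsto l1 l2 ?_
  · calc _ ≤ _ := l3
      _ = _ := by ring
  filter_upwards [h.JF_mem hx V, h.JF_mem0 hx, h.JF_mem hx (V + W), h.JF_mem hx W,
    h.JF_dpos hx hV0] with p p1 p2 p3 p4 p5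
  have hP := h.ptol _ p2 _ p1 _ p3 _ p4
  rw [h.symm _ p3 _ p4, h.symm _ p4 _ p2, h.symm _ p1 _ p4] at hP
  rw [div_mul_div_comm, div_mul_div_comm, div_mul_div_comm, ← add_div]
  exact (div_le_div_iff_of_pos_right (by positivity)).2 hP

theorem Nm_ray_add (hE : TwoDim E) {V0 : E} (hV0 : V0 ≠ 0) (V : E) {x : E} (hx : x ∈ U)
    {a b : ℝ} (ha : 0 ≤ a) (hb : 0 ≤ b) :
    Nm d V0 x ((a + b) • V) = Nm d V0 x (a • V) + Nm d V0 x (b • V) := by
  have := h.JF_neBot (x := x)
  have h1 := h.tendsto_Nm2 hE hV0 (a • V) ((a + b) • V) hx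
  have e : (a + b) • V - a • V = b • V := by module
  rw [e] at h1
  have h2 := (h.tendsto_Nm hE hV0 (a • V) hx).add h1
  refine tendsto_nhds_unique (h.tendsto_Nm hE hV0 ((a + b) • V) hx) ?_
  apply h2.congr'
  filter_upwards [h.JF_mem0 hx, h.JF_mem hx ((a + b) • V), JF_pos x] with p p1 p2 p3
  rw [← add_div]
  congr 1
  have hh := h.add_of_le (x := p.1) (v := V) (s := p.2 * a) (t := p.2 * (a + b)) p1
    (by positivity) (by nlinarith) (by rw [mul_smul]; exact p2)
  rw [mul_smul, mul_smul] at hh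
  exact hh

end PM

/-- a nonnegative additive function on `[0,∞)` is linear -/
theorem additive_linear {f : ℝ → ℝ} (h0 : ∀ a, 0 ≤ a → 0 ≤ f a)
    (hadd : ∀ a b, 0 ≤ a → 0 ≤ b → f (a + b) = f a + f b) :
    ∀ c, 0 ≤ c → f c = c * f 1 := by
  have hz : f 0 = 0 := by
    have := hadd 0 0 le_rfl le_rfl
    rw [add_zero] at this
    linarith
  have hmono : ∀ a b, 0 ≤ a → a ≤ b → f a ≤ f b := by
    intro a b ha hab
    have := hadd a (b - a) ha (by linarith)
    rw [add_sub_cancel] at this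
    have h1 := h0 (b - a) (by linarith)
    linarith
  have hnat : ∀ n : ℕ, ∀ a, 0 ≤ a → f (n * a) = n * f a := by
    intro n a ha
    induction n with
    | zero => simp [hz]
    | succ n ih =>
      push_cast
      rw [add_mul, one_mul, hadd _ _ (by positivity) ha, ih]; ring
  intro c hc
  have hbd : ∀ n : ℕ, 0 < n → |f c - c * f 1| ≤ f 1 / n := by
    intro n hn
    have hn' : (0 : ℝ) < n := by exact_mod_cast hn
    have h1n : f 1 = n * f (1 / n) := by
      rw [← hnat n (1 / n) (by positivity), mul_one_div_cancel hn'.ne']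
    set k := ⌊c * n⌋₊ with hk
    have k1 : (k : ℝ) ≤ c * n := Nat.floor_le (by positivity)
    have k2 : c * n < k + 1 := Nat.lt_floor_add_one _
    have l1 : f (k * (1 / n)) ≤ f c := by
      apply hmono _ _ (by positivity)
      rw [mul_one_div, div_le_iff₀ hn']; exact k1
    have l2 : f c ≤ f ((k + 1 : ℕ) * (1 / n)) := by
      apply hmono _ _ hc
      rw [mul_one_div, le_div_iff₀ hn']; push_cast; exact k2.le
    rw [hnat k _ (by positivity)] at l1
    rw [hnat (k + 1) _ (by positivity)] at l2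
    push_cast at l2
    have hf1 : 0 ≤ f (1 / n) := h0 _ (by positivity)
    have e1 : f 1 / n = f (1 / n) := by rw [h1n]; field_simp
    rw [e1, abs_le]
    rw [h1n]
    constructor <;> nlinarith
  have hlim : Tendsto (fun n : ℕ => f 1 / (n : ℝ)) atTop (𝓝 0) :=
    tendsto_const_div_atTop_nhds_zero_nat _
  have : |f c - c * f 1| ≤ 0 := by
    apply ge_of_tendsto hlim
    filter_upwards [eventually_gt_atTop 0] with n hn
    exact hbd n hn
  have := abs_nonpos_iff.1 this
  linarith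

namespace PM

variable {U : Set E} {d : E → E → ℝ} (h : PM U d)
include h

theorem Nm_nonneg (hE : TwoDim E) {V0 : E} (hV0 : V0 ≠ 0) (V : E) {x : E} (hx : x ∈ U) :
    0 ≤ Nm d V0 x V := by
  by_cases hV : V = 0
  · rw [hV, h.Nm_zero hE hV0 hx]
  · exact (h.Nm_pos hE hV0 hV hx).le

theorem Nm_smul (hE : TwoDim E) {V0 : E} (hV0 : V0 ≠ 0) (c : ℝ) (V : E) {x : E} (hx : x ∈ U) :
    Nm d V0 x (c • V) = |c| * Nm d V0 x V := by
  have key : ∀ c : ℝ, 0 ≤ c → Nm d V0 x (c • V) = c * Nm d V0 x V := by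
    intro c hc
    have := additive_linear (f := fun a => Nm d V0 x (a • V))
      (fun a _ => h.Nm_nonneg hE hV0 _ hx) (fun a b ha hb => h.Nm_ray_add hE hV0 V hx ha hb) c hc
    simpa using this
  rcases le_total 0 c with hc | hc
  · rw [key c hc, abs_of_nonneg hc]
  · have : c • V = -((-c) • V) := by module
    rw [this, h.Nm_neg hE hV0 _ hx, key (-c) (by linarith), abs_of_nonpos hc]

theorem Nm_rhombus (hE : TwoDim E) {V0 : E} (hV0 : V0 ≠ 0) (V W : E) {x : E} (hx : x ∈ U) :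
    4 * Nm d V0 x V * Nm d V0 x W ≤ Nm d V0 x (V + W) ^ 2 + Nm d V0 x (V - W) ^ 2 := by
  have h1 := h.Nm_ptol hE hV0 (V + W) (V - W) hx
  have e1 : V + W + (V - W) = (2 : ℝ) • V := by module
  have e2 : V + W - (V - W) = (2 : ℝ) • W := by module
  rw [e1, e2, h.Nm_smul hE hV0 _ _ hx, h.Nm_smul hE hV0 _ _ hx] at h1
  norm_num at h1
  nlinarith

/-- supporting inequality for the tangent norm -/
theorem Nm_support (hE : TwoDim E) {V0 : E} (hV0 : V0 ≠ 0) {V W : E} (hV : V ≠ 0) (hW : W ≠ 0)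
    {x : E} (hx : x ∈ U) (s : ℝ) :
    Nm d V0 x V - s * C d x V W * Nm d V0 x W ≤ Nm d V0 x (V - s • W) := by
  -- positive case for arbitrary nonzero vector
  have key : ∀ W : E, W ≠ 0 → Nm d V0 x V - C d x V W * Nm d V0 x W ≤ Nm d V0 x (V - W) := by
    intro W hW
    have l1 := (h.tendsto_Nm hE hV0 V hx).comp (JF_left (x := x))
    have l2 := (h.tendsto_Nm hE hV0 W hx).comp (JF_left (x := x))
    have l3 := (h.tendsto_Nm2 hE hV0 W V hx).comp (JF_left (x := x))
    have l4 := l1.sub (l2.const_mul (C d x V W))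
    refine le_of_tendsto_of_tendsto l4 l3 ?_
    have q0 := (JF_left (x := x)).eventually (h.JF_mem hx V)
    have q1 := (JF_left (x := x)).eventually (h.JF_mem hx W)
    have q2 := (JF_left (x := x)).eventually (h.JF_dpos hx hV0)
    have q3 := (JF_left (x := x)).eventually (JF_pos x)
    filter_upwards [q0, q1, q2, q3] with t p0 p1 p2 p3
    simp only [Function.comp] at p0 p1 p2 p3 ⊢
    have hs := h.support hx p0 p1 (ne_add hV p3.ne').symm (ne_add hW p3.ne').symm
    rw [add_sub_cancel_left, add_sub_cancel_left, h.C_smul_left hx hV (smul_ne_zero p3.ne' hW) p3,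
      h.C_smul_right hx hV hW p3] at hs
    rw [← mul_div_assoc, ← sub_div]
    exact (div_le_div_iff_of_pos_right p2).2 hs
  rcases lt_trichotomy s 0 with hs | hs | hs
  · have := key (s • W) (smul_ne_zero hs.ne hW)
    have e : s • W = (-s) • (-W) := by module
    rw [h.Nm_smul hE hV0 _ _ hx, abs_of_neg hs] at this
    have hC : C d x V (s • W) = - C d x V W := by
      rw [e, h.C_smul_right hx hV (neg_ne_zero.2 hW) (by linarith), h.C_neg_right hx hV hW]
    rw [hC] at this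
    linarith
  · rw [hs]; simp
  · have := key (s • W) (smul_ne_zero hs.ne' hW)
    rw [h.Nm_smul hE hV0 _ _ hx, abs_of_pos hs, h.C_smul_right hx hV hW hs] at this
    linarith

theorem Nm_continuousAt (hE : TwoDim E) {V0 : E} (hV0 : V0 ≠ 0) (V : E) {x : E} (hx : x ∈ U) :
    ContinuousAt (fun y => Nm d V0 y V) x := by
  have h1 := h.tendsto_Nm hE hV0 V hx
  unfold ContinuousAt
  rw [(closed_nhds_basis (Nm d V0 x V)).tendsto_right_iff]
  rintro K ⟨hK, hKc⟩
  have h2 : ∀ᶠ p : E × ℝ in JF x, d p.1 (p.1 + p.2 • V) / d p.1 (p.1 + p.2 • V0) ∈ K := h1 hK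
  have h3 := h2.curry
  have hUx : ∀ᶠ z in 𝓝 x, z ∈ U := h.isOpen.mem_nhds hx
  filter_upwards [h3, hUx] with y hy hyU
  have h4 := (h.tendsto_Nm hE hV0 V hyU).comp (JF_left (x := y))
  exact hKc.mem_of_tendsto h4 hy

end PM

end Pool.Agent.Helper975.Ptol
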